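import Pool.Agent.Lib.MP_b4fd03_gt.Front

/-!
Movies of elementary cobordisms between fronts, their equivalence, simultaneous handles.
-/

namespace Pool.Agent.Lib.MP_b4fd03_gt

variable {α : Type}

/-- The step from the front `p ++ l ++ q` to the front `p ++ r ++ q`. -/
structure Step (α : Type) : Type where
  p : List (Gen α)
  l : List (Gen α)
  r : List (Gen α)
  q : List (Gen α)

/-- Forget the directions. -/
def Step.erase (σ : Step Bool) : Step Unit :=
  ⟨σ.p.map Gen.erase, σ.l.map Gen.erase, σ.r.map Gen.erase, σ.q.map Gen.erase⟩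

/-- `Mov neg s t n u M v`: the steps `M` lead from the word `u` to the word `v`; each is a move of
`Reid` in either direction or one of `n` one-handles (facing cusps with the same label on the upper
branches become two strands); all words on the way are labelled tangle fronts with the ends `s`
and `t` (fronts of links for `s = t = []`). -/
inductive Mov (neg : α → α) (s t : List α) :
    ℕ → List (Gen α) → List (Step α) → List (Gen α) → Prop
  | nil (u : List (Gen α)) : Run neg s u t → Mov neg s t 0 u [] u
  | iso (n : ℕ) (p l r q v : List (Gen α)) (M : List (Step α)) : Run neg s (p ++ l ++ q) t →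
      Reid l r ∨ Reid r l → Mov neg s t n (p ++ r ++ q) M v →
      Mov neg s t n (p ++ l ++ q) (⟨p, l, r, q⟩ :: M) v
  | handle (n : ℕ) (p q v : List (Gen α)) (x y : List α) (b : α) (M : List (Step α)) :
      Run neg s (p ++ [.R x.length, .L x.length b] ++ q) t → Run neg s p (x ++ b :: y) →
      Mov neg s t n (p ++ q) M v → Mov neg s t (n + 1) (p ++ [.R x.length, .L x.length b] ++ q)
        (⟨p, [.R x.length, .L x.length b], [], q⟩ :: M) v

/-- Movie moves: a move and its inverse cancel; steps on disjoint subwords commute; the site of a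
handle moves along its band, past a far column or a crossing strand `x` (`site`), or round a right
or left cusp of the band, whose two edges form a crossing and two cusps (`turnR`, `turnL`). -/
inductive Hom : List (Step Unit) → List (Step Unit) → Prop
  | cancel (p l r q : List (Gen Unit)) : Reid l r ∨ Reid r l → Hom [⟨p, l, r, q⟩, ⟨p, r, l, q⟩] []
  | far (p l r m l' r' q : List (Gen Unit)) :
      Hom [⟨p, l, r, m ++ l' ++ q⟩, ⟨p ++ r ++ m, l', r', q⟩]
        [⟨p ++ l ++ m, l', r', q⟩, ⟨p, l, r, m ++ r' ++ q⟩]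
  | site (p q x z : List (Gen Unit)) (i j : ℕ) :
      Reid (x ++ [.R i]) (.R j :: z) ∨ Reid (.R j :: z) (x ++ [.R i]) →
      Reid (z ++ [.L i ()]) (.L j () :: x) ∨ Reid (.L j () :: x) (z ++ [.L i ()]) →
      Hom [⟨p, x ++ [.R i], .R j :: z, .L i () :: q⟩,
          ⟨p ++ [.R j], z ++ [.L i ()], .L j () :: x, q⟩, ⟨p, [.R j, .L j ()], [], x ++ q⟩]
        [⟨p ++ x, [.R i, .L i ()], [], q⟩]
  | turnR (p q : List (Gen Unit)) (i : ℕ) :
      Hom [⟨p ++ [.R i], [], [.L i (), .X (i + 1), .R i], .R i :: q⟩,
          ⟨p, [.R i, .L i ()], [], .X (i + 1) :: .R i :: .R i :: q⟩,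
          ⟨p ++ [.X (i + 1)], [.R i, .R i], [.R (i + 2), .R i], q⟩]
        [⟨p, [.R i, .R i], [.R (i + 2), .R i], q⟩,
          ⟨p ++ [.R (i + 2)], [], [.L (i + 2) (), .X (i + 1), .R (i + 2)], .R i :: q⟩,
          ⟨p, [.R (i + 2), .L (i + 2) ()], [], .X (i + 1) :: .R (i + 2) :: .R i :: q⟩]
  | turnL (p q : List (Gen Unit)) (i : ℕ) :
      Hom [⟨p ++ [.L i ()], [], [.L i (), .X (i + 1), .R i], .L i () :: q⟩,
          ⟨p ++ [.L i (), .L i (), .X (i + 1)], [.R i, .L i ()], [], q⟩,
          ⟨p, [.L i (), .L i ()], [.L i (), .L (i + 2) ()], .X (i + 1) :: q⟩]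
        [⟨p, [.L i (), .L i ()], [.L i (), .L (i + 2) ()], q⟩,
          ⟨p ++ [.L i ()], [], [.L (i + 2) (), .X (i + 1), .R (i + 2)], .L (i + 2) () :: q⟩,
          ⟨p ++ [.L i (), .L (i + 2) (), .X (i + 1)], [.R (i + 2), .L (i + 2) ()], [], q⟩]

/-- Equivalence of movies from `u` to `v`, generated by the movie moves. -/
inductive Same (s t : List Unit) (u v : List (Gen Unit)) (M : List (Step Unit)) :
    List (Step Unit) → Prop
  | refl (n : ℕ) : Mov id s t n u M v → Same s t u v M M
  | step (n : ℕ) (A l r B : List (Step Unit)) : Same s t u v M (A ++ l ++ B) →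
      Hom l r ∨ Hom r l → Mov id s t n u (A ++ r ++ B) v → Same s t u v M (A ++ r ++ B)

/-- Kinds of columns; `H b` is the site of a handle whose left cusp has the upper label `b`. -/
inductive K : Type
  | L (b : Bool) : K
  | R : K
  | X : K
  | H (b : Bool) : K

/-- A column before the handles are attached. -/
def pre1 : K × ℕ → List (Gen Bool)
  | (.L b, i) => [.L i b]
  | (.R, i) => [.R i]
  | (.X, i) => [.X i]
  | (.H b, i) => [.R i, .L i b]

/-- A column after the handles are attached. -/
def post1 : K × ℕ → List (Gen Unit)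
  | (.L _, i) => [.L i ()]
  | (.R, i) => [.R i]
  | (.X, i) => [.X i]
  | (.H _, _) => []

/-- The movie that attaches the handles of a word from left to right, between `p` and `q`. -/
def exec (p q : List (Gen Unit)) : List (K × ℕ) → List (Step Unit)
  | [] => []
  | (.H _, i) :: w => ⟨p, [.R i, .L i ()], [], (w.flatMap pre1).map Gen.erase ++ q⟩ :: exec p q w
  | (k, i) :: w => exec (p ++ post1 (k, i)) q w

end Pool.Agent.Lib.MP_b4fd03_gt
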