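import Pool.Agent.Lib.MP_b4fd03_gt.Colour
import Pool.Agent.Lib.MP_b4fd03_gt.Movie

/-!
Movies in contexts, reversal, cancellation and interchange.
-/

namespace Pool.Agent.Lib.MP_b4fd03_gt

variable {α : Type} {neg : α → α}

def Step.lc (a : List (Gen α)) (σ : Step α) : Step α := ⟨a ++ σ.p, σ.l, σ.r, σ.q⟩
def Step.rc (b : List (Gen α)) (σ : Step α) : Step α := ⟨σ.p, σ.l, σ.r, σ.q ++ b⟩
def Step.sh (n : ℕ) (σ : Step α) : Step α :=
  ⟨σ.p.map (MP_b4fd03_gt.sh n), σ.l.map (MP_b4fd03_gt.sh n), σ.r.map (MP_b4fd03_gt.sh n),
    σ.q.map (MP_b4fd03_gt.sh n)⟩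
def Step.rev (σ : Step α) : Step α := ⟨σ.p, σ.r, σ.l, σ.q⟩
def un (s : List Bool) : List Unit := s.map fun _ => ()

theorem un_append (u v : List Bool) : un (u ++ v) = un u ++ un v := List.map_append
theorem un_length (u : List Bool) : (un u).length = u.length := List.length_map _

theorem Reid.erase {l r : List (Gen Bool)} (h : Reid l r) :
    Reid (l.map Gen.erase) (r.map Gen.erase) := by
  cases h with
  | comm g h i k =>
    have := Reid.comm g.erase h.erase i k
    cases g <;> cases h <;> exact this
  | one i b => exact .one i ()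
  | one' i b => exact .one' i ()
  | twoL i b => exact .twoL i ()
  | twoL' i b => exact .twoL' i ()
  | twoR i => exact .twoR i
  | twoR' i => exact .twoR' i
  | three i => exact .three i

namespace Mov

variable {s t r : List α} {n m : ℕ} {u v w : List (Gen α)} {M N : List (Step α)}

theorem left (h : Mov neg s t n u M v) : Run neg s u t := by
  cases h <;> assumption

theorem right (h : Mov neg s t n u M v) : Run neg s v t := by
  induction h <;> assumption

theorem cast {u' v' : List (Gen α)} (h : Mov neg s t n u M v) (e1 : u = u') (e2 : M = N)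
    (e3 : v = v') : Mov neg s t n u' N v' := by subst e1 e2 e3; exact h

theorem append (h : Mov neg s t n u M v) (h' : Mov neg s t m v N w) :
    Mov neg s t (m + n) u (M ++ N) w := by
  induction h with
  | nil u _ => exact h'
  | iso n p l r q v M a b _ ih => exact .iso _ p l r q w _ a b (ih h')
  | handle n p q v x y b M a c _ ih => exact .handle _ p q w x y b _ a c (ih h')

theorem lc (h : Mov neg s t n u M v) {a : List (Gen α)} (ha : Run neg r a s) :
    Mov neg r t n (a ++ u) (M.map (Step.lc a)) (a ++ v) := by
  induction h with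
  | nil u h => exact .nil _ (ha.append h)
  | iso n p l r q v M c b _ ih =>
    exact (Mov.iso _ (a ++ p) l r q _ _ (by simpa using ha.append c) b
      (ih.cast (by simp) rfl rfl)).cast (by simp) rfl rfl
  | handle n p q v x y b M c d _ ih =>
    exact (Mov.handle _ (a ++ p) q _ x y b _ (by simpa using ha.append c) (ha.append d)
      (ih.cast (by simp) rfl rfl)).cast (by simp) rfl rfl

theorem rc (h : Mov neg s t n u M v) {a : List (Gen α)} (ha : Run neg t a r) :
    Mov neg s r n (u ++ a) (M.map (Step.rc a)) (v ++ a) := by
  induction h with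
  | nil u h => exact .nil _ (h.append ha)
  | iso n p l r q v M c b _ ih =>
    exact (Mov.iso _ p l r (q ++ a) _ _ (by simpa using c.append ha) b
      (ih.cast (by simp) rfl rfl)).cast (by simp) rfl rfl
  | handle n p q v x y b M c d _ ih =>
    exact (Mov.handle _ p (q ++ a) _ x y b _ (by simpa using c.append ha) d
      (ih.cast (by simp) rfl rfl)).cast (by simp) rfl rfl

theorem frame (h : Mov neg s t n u M v) (x y : List α) :
    Mov neg (x ++ s ++ y) (x ++ t ++ y) n (u.map (sh x.length)) (M.map (Step.sh x.length))
      (v.map (sh x.length)) := by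
  induction h with
  | nil u h => exact .nil _ (h.frame x y)
  | iso n p l r q v M c b _ ih =>
    exact (Mov.iso _ _ _ _ _ _ _ (by simpa using c.frame x y)
      (b.imp (·.sh x.length) (·.sh x.length)) (ih.cast (by simp) rfl rfl)).cast (by simp) rfl rfl
  | handle n p q v z z' b M c d _ ih =>
    exact (Mov.handle _ (p.map (sh x.length)) (q.map (sh x.length)) _ (x ++ z) (z' ++ y) b _
      (by simpa [sh, Gen.put, Gen.pos] using c.frame x y) (by simpa using d.frame x y)
      (ih.cast (by simp) rfl rfl)).cast (by simp [sh, Gen.put, Gen.pos])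
      (by simp [Step.sh, sh, Gen.put, Gen.pos]) rfl

theorem erase {s t : List Bool} {u v : List (Gen Bool)} {M : List (Step Bool)}
    (h : Mov not s t n u M v) :
    Mov id (un s) (un t) n (u.map Gen.erase) (M.map Step.erase) (v.map Gen.erase) := by
  induction h with
  | nil u h => exact .nil _ h.len_erase
  | iso n p l r q v M c b _ ih =>
    exact (Mov.iso _ _ _ _ _ _ _ (by simpa [un] using c.len_erase)
      (b.imp (·.erase) (·.erase)) (ih.cast (by simp) rfl rfl)).cast (by simp) rfl rfl
  | handle n p q v z z' b M c d _ ih =>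
    exact (Mov.handle _ (p.map Gen.erase) (q.map Gen.erase) _ (un z) (un z') () _
      (by simpa [un, Gen.erase] using c.len_erase) (by simpa [un] using d.len_erase)
      (ih.cast (by simp) rfl rfl)).cast (by simp [un, Gen.erase])
      (by simp [Step.erase, un, Gen.erase]) rfl

theorem rev (h : Mov neg s t n u M v) (e : n = 0) :
    Mov neg s t 0 v (M.map Step.rev).reverse u := by
  induction h with
  | nil u h => exact .nil _ h
  | iso n p l r q v M c b d ih =>
    simpa [Step.rev] using (ih e).append (.iso _ p r l q _ _ d.left b.symm (.nil _ c))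
  | handle => simp at e

theorem eqv (h : Mov neg s t n u M v) (e : n = 0) : Eqv neg s t u v := by
  induction h with
  | nil u h => exact .refl _ h
  | iso n p l r q v M c b d ih => exact (Eqv.move _ p q l r (.refl _ c) b d.left).trans (ih e)
  | handle => simp at e

theorem inv {σ : Step α} (h : Mov neg s t n u (σ :: M) v) : u = σ.p ++ σ.l ++ σ.q ∧
    ∃ a b, Mov neg s t a u [σ] (σ.p ++ σ.r ++ σ.q) ∧ Mov neg s t b (σ.p ++ σ.r ++ σ.q) M v := by
  cases h with
  | iso _ p l r q _ _ c b d => exact ⟨rfl, _, _, .iso _ p l r q _ _ c b (.nil _ d.left), d⟩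
  | handle n p q _ x y b _ c d e =>
    exact ⟨rfl, _, _, (Mov.handle _ p q _ x y b _ c d (.nil _ e.left)).cast rfl rfl (by simp),
      e.cast (by simp) rfl rfl⟩

theorem nil_inv (h : Mov neg s t n u [] v) : u = v := by cases h; rfl

end Mov

theorem Hom.lc {l r : List (Step Unit)} (h : Hom l r) (a : List (Gen Unit)) :
    Hom (l.map (Step.lc a)) (r.map (Step.lc a)) := by
  cases h with
  | cancel p l r q h => exact .cancel _ l r q h
  | far p l r m l' r' q => simpa [Step.lc] using Hom.far (a ++ p) l r m l' r' q
  | site p q x z i j h h' => simpa [Step.lc] using Hom.site (a ++ p) q x z i j h h'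
  | turnR p q i => simpa [Step.lc] using Hom.turnR (a ++ p) q i
  | turnL p q i => simpa [Step.lc] using Hom.turnL (a ++ p) q i

theorem Hom.rc {l r : List (Step Unit)} (h : Hom l r) (a : List (Gen Unit)) :
    Hom (l.map (Step.rc a)) (r.map (Step.rc a)) := by
  cases h with
  | cancel p l r q h => exact .cancel p l r _ h
  | far p l r m l' r' q => simpa [Step.rc] using Hom.far p l r m l' r' (q ++ a)
  | site p q x z i j h h' => simpa [Step.rc] using Hom.site p (q ++ a) x z i j h h'
  | turnR p q i => simpa [Step.rc] using Hom.turnR p (q ++ a) i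
  | turnL p q i => simpa [Step.rc] using Hom.turnL p (q ++ a) i

theorem sh_L (n i : ℕ) (b : α) : sh n (.L i b) = .L (n + i) b := rfl
theorem sh_R (n i : ℕ) : sh n (.R i : Gen α) = .R (n + i) := rfl
theorem sh_X (n i : ℕ) : sh n (.X i : Gen α) = .X (n + i) := rfl

theorem Hom.shift {l r : List (Step Unit)} (h : Hom l r) (n : ℕ) :
    Hom (l.map (Step.sh n)) (r.map (Step.sh n)) := by
  cases h with
  | cancel p l r q h => exact .cancel _ _ _ _ (h.imp (·.sh n) (·.sh n))
  | far p l r m l' r' q =>
    simpa [Step.sh] using Hom.far (p.map (sh n)) (l.map (sh n)) (r.map (sh n)) (m.map (sh n))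
      (l'.map (sh n)) (r'.map (sh n)) (q.map (sh n))
  | site p q x z i j h h' =>
    simpa [Step.sh, sh_L, sh_R] using Hom.site (p.map (sh n)) (q.map (sh n)) (x.map (sh n))
      (z.map (sh n)) (n + i) (n + j) (by simpa [sh_R] using h.imp (·.sh n) (·.sh n))
      (by simpa [sh_L] using h'.imp (·.sh n) (·.sh n))
  | turnR p q i =>
    simpa [Step.sh, sh_L, sh_R, sh_X, Nat.add_assoc] using
      Hom.turnR (p.map (sh n)) (q.map (sh n)) (n + i)
  | turnL p q i =>
    simpa [Step.sh, sh_L, sh_R, sh_X, Nat.add_assoc] using
      Hom.turnL (p.map (sh n)) (q.map (sh n)) (n + i)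

namespace Same

variable {s t r : List Unit} {n m : ℕ} {u v w u' v' : List (Gen Unit)} {M N P : List (Step Unit)}

theorem left (h : Same s t u v M N) : ∃ n, Mov id s t n u M v := by
  induction h with
  | refl n h => exact ⟨n, h⟩
  | step n A l r B _ _ _ ih => exact ih

theorem right (h : Same s t u v M N) : ∃ n, Mov id s t n u N v := by
  cases h with
  | refl n h => exact ⟨n, h⟩
  | step n A l r B _ _ h => exact ⟨n, h⟩

theorem cast {M' N' : List (Step Unit)} (h : Same s t u v M N) (e1 : M = M') (e2 : N = N') :
    Same s t u v M' N' := by subst e1 e2; exact h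

theorem trans (h : Same s t u v M N) (h' : Same s t u v N P) : Same s t u v M P := by
  induction h' with
  | refl => exact h
  | step n A l r B _ a b ih => exact .step n A l r B ih a b

theorem symm (h : Same s t u v M N) : Same s t u v N M := by
  induction h with
  | refl n h => exact .refl n h
  | step n A l r B e a b ih =>
    obtain ⟨m, c⟩ := e.right
    exact (Same.step m A r l B (.refl n b) a.symm c).trans ih

theorem one (h : Mov id s t n u M v) (h' : Mov id s t m u N v) (e : Hom M N ∨ Hom N M) :
    Same s t u v M N := by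
  simpa using Same.step m [] M N [] (by simpa using Same.refl n h) e (by simpa using h')

theorem pre (h : Same s t u v M N) (a : Mov id s t n w P u) : Same s t w v (P ++ M) (P ++ N) := by
  induction h with
  | refl m h => exact .refl _ (a.append h)
  | step m A l r B _ b c ih =>
    simpa using Same.step _ (P ++ A) l r B (by simpa using ih) b (by simpa using a.append c)

theorem post (h : Same s t u v M N) (a : Mov id s t n v P w) : Same s t u w (M ++ P) (N ++ P) := by
  induction h with
  | refl m h => exact .refl _ (h.append a)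
  | step m A l r B _ b c ih =>
    simpa using Same.step _ A l r (B ++ P) (by simpa using ih) b (by simpa using c.append a)

theorem lc (h : Same s t u v M N) {a : List (Gen Unit)} (ha : Run id r a s) :
    Same r t (a ++ u) (a ++ v) (M.map (Step.lc a)) (N.map (Step.lc a)) := by
  induction h with
  | refl m h => exact .refl _ (h.lc ha)
  | step m A l r B _ b c ih =>
    simpa using Same.step _ _ _ _ _ (by simpa using ih) (b.imp (·.lc a) (·.lc a))
      (by simpa using c.lc ha)

theorem rc (h : Same s t u v M N) {a : List (Gen Unit)} (ha : Run id t a r) :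
    Same s r (u ++ a) (v ++ a) (M.map (Step.rc a)) (N.map (Step.rc a)) := by
  induction h with
  | refl m h => exact .refl _ (h.rc ha)
  | step m A l r B _ b c ih =>
    simpa using Same.step _ _ _ _ _ (by simpa using ih) (b.imp (·.rc a) (·.rc a))
      (by simpa using c.rc ha)

theorem frame (h : Same s t u v M N) (x y : List Unit) :
    Same (x ++ s ++ y) (x ++ t ++ y) (u.map (sh x.length)) (v.map (sh x.length))
      (M.map (Step.sh x.length)) (N.map (Step.sh x.length)) := by
  induction h with
  | refl m h => exact .refl _ (h.frame x y)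
  | step m A l r B _ b c ih =>
    simpa using Same.step _ _ _ _ _ (by simpa using ih) (b.imp (·.shift _) (·.shift _))
      (by simpa using c.frame x y)

theorem cancel (h : Mov id s t n u M v) (e : n = 0) :
    Same s t u u (M ++ (M.map Step.rev).reverse) [] := by
  induction h with
  | nil u h => exact .refl _ (.nil _ h)
  | iso n p l r q v M c b d ih =>
    have h1 := Mov.iso _ p l r q _ _ c b (.nil _ d.left)
    have h2 := Mov.iso _ p r l q _ _ d.left b.symm (.nil _ c)
    exact (((ih e).pre h1).post h2).cast (by simp [Step.rev]) rfl |>.trans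
      (.one (h1.append h2) (.nil _ c) (.inl (.cancel p l r q b)))
  | handle => simp at e

theorem inter1 {σ : Step Unit} (h : Mov id s t n u [σ] u') (h' : Mov id t r m v N v') :
    Same s r (u ++ v) (u' ++ v') (σ.rc v :: N.map (Step.lc u'))
      (N.map (Step.lc u) ++ [σ.rc v']) := by
  induction N generalizing v m with
  | nil =>
    obtain rfl := h'.nil_inv
    exact .refl _ (h.rc h'.left)
  | cons τ N ih =>
    obtain ⟨e, a, b, h1, h2⟩ := h'.inv
    obtain ⟨e', _, _, -, h3⟩ := h.inv
    have e'' := h3.nil_inv
    have k := Same.one ((h.rc h1.left).append (h1.lc h.right)) ((h1.lc h.left).append (h.rc h1.right))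
      (.inl (by
        subst e e' e''
        simpa [Step.lc, Step.rc] using Hom.far σ.p σ.l σ.r (σ.q ++ τ.p) τ.l τ.r τ.q))
    exact (k.post (h2.lc h.right)).trans ((ih h2).pre (h1.lc h.left))

/-- Movies on the left and on the right part of a word commute. -/
theorem inter (h : Mov id s t n u M u') (h' : Mov id t r m v N v') :
    Same s r (u ++ v) (u' ++ v') (M.map (Step.rc v) ++ N.map (Step.lc u'))
      (N.map (Step.lc u) ++ M.map (Step.rc v')) := by
  induction M generalizing u n with
  | nil =>
    obtain rfl := h.nil_inv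
    simpa using Same.refl _ (h'.lc h.left)
  | cons σ M ih =>
    obtain ⟨-, a, b, h1, h2⟩ := h.inv
    exact ((ih h2).pre (h1.rc h'.left)).trans
      (((inter1 h1 h').post (h2.rc h'.right)).cast (by simp) (by simp))

end Same

end Pool.Agent.Lib.MP_b4fd03_gt
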