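import Pool.Agent.Lib.MP_b4fd03_gt.Front

/-!
Local moves on tangle words and a checker for sequences of moves.
-/

namespace Pool.Agent.Lib.MP_b4fd03_gt

variable {α : Type}

section

variable [DecidableEq α]

def Gen.pos : Gen α → ℕ
  | .L i _ => i
  | .R i => i
  | .X i => i

def Gen.eqb : Gen α → Gen α → Bool
  | .L i b, .L j c => decide (i = j) && decide (b = c)
  | .R i, .R j => decide (i = j)
  | .X i, .X j => decide (i = j)
  | _, _ => false

def eqw : List (Gen α) → List (Gen α) → Bool
  | [], [] => true
  | g :: u, h :: v => g.eqb h && eqw u v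
  | _, _ => false

theorem Gen.eq_of_eqb {g h : Gen α} (e : g.eqb h = true) : g = h := by
  cases g <;> cases h <;> simp_all [Gen.eqb]

theorem eq_of_eqw {u v : List (Gen α)} (e : eqw u v = true) : u = v := by
  induction u generalizing v with
  | nil => cases v <;> simp_all [eqw]
  | cons g u ih =>
    cases v with
    | nil => simp [eqw] at e
    | cons h v =>
      simp only [eqw, Bool.and_eq_true] at e
      rw [Gen.eq_of_eqb e.1, ih e.2]

def step (neg : α → α) (s : List α) : Gen α → Option (List α)
  | .L i b => if i ≤ s.length then some (s.take i ++ b :: neg b :: s.drop i) else none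
  | .R i => match s.drop i with
    | a :: b :: t => if b = neg a then some (s.take i ++ t) else none
    | _ => none
  | .X i => match s.drop i with
    | a :: b :: t => some (s.take i ++ b :: a :: t)
    | _ => none

def run (neg : α → α) : List α → List (Gen α) → Option (List α)
  | s, [] => some s
  | s, g :: w => (step neg s g).bind fun s' => run neg s' w

variable {neg : α → α}

omit [DecidableEq α] in
theorem take_len {s : List α} {i : ℕ} {a : α} {t : List α} (h : s.drop i = a :: t) :
    (s.take i).length = i := by
  have := congrArg List.length h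
  simp only [List.length_drop, List.length_cons] at this
  rw [List.length_take]
  omega

theorem Run.of_run {s t : List α} {w : List (Gen α)} (h : run neg s w = some t) :
    Run neg s w t := by
  induction w generalizing s with
  | nil =>
    simp only [run, Option.some.injEq] at h
    rw [h]
    exact .nil t
  | cons g w ih =>
    simp only [run, Option.bind_eq_some_iff] at h
    obtain ⟨s', h1, h2⟩ := h
    have h3 := ih h2
    cases g with
    | L i b =>
      simp only [step] at h1
      split_ifs at h1 with hi
      obtain rfl := Option.some.inj h1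
      have := Run.L (s.take i) (s.drop i) b w t h3
      rwa [List.take_append_drop, List.length_take, Nat.min_eq_left hi] at this
    | R i =>
      simp only [step] at h1
      split at h1
      · rename_i a b r hd
        split_ifs at h1 with hb
        obtain rfl := Option.some.inj h1
        have := Run.R (s.take i) r a w t h3
        rwa [← hb, ← hd, List.take_append_drop, take_len hd] at this
      · simp at h1
    | X i =>
      simp only [step] at h1
      split at h1
      · rename_i a b r hd
        obtain rfl := Option.some.inj h1
        have := Run.X (s.take i) r a b w t h3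
        rwa [← hd, List.take_append_drop, take_len hd] at this
      · simp at h1

end

variable {neg : α → α}

theorem Run.append {s t r : List α} {u v : List (Gen α)} (h : Run neg s u t)
    (h' : Run neg t v r) : Run neg s (u ++ v) r := by
  induction h with
  | nil s => exact h'
  | L p q b w t _ ih => exact .L p q b _ _ (ih h')
  | R p q b w t _ ih => exact .R p q b _ _ (ih h')
  | X p q a b w t _ ih => exact .X p q a b _ _ (ih h')

/-- A local cobordism of tangle words with `n` handles. -/
def Loc (neg : α → α) (n : ℕ) (s t : List α) (u v : List (Gen α)) : Prop :=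
  Run neg s u t ∧ Run neg s v t ∧ ∀ m w p q, Run neg [] p s → Run neg t q [] →
    Cob neg m w (p ++ u ++ q) → Cob neg (m + n) w (p ++ v ++ q)

theorem Loc.refl {s t : List α} {u : List (Gen α)} (h : Run neg s u t) : Loc neg 0 s t u u :=
  ⟨h, h, fun _ _ _ _ _ _ c => c⟩

theorem Loc.trans {n n' : ℕ} {s t : List α} {u v x : List (Gen α)} (h : Loc neg n s t u v)
    (h' : Loc neg n' s t v x) : Loc neg (n + n') s t u x :=
  ⟨h.1, h'.2.1, fun m w p q hp hq c => by
    rw [← Nat.add_assoc]; exact h'.2.2 _ w p q hp hq (h.2.2 m w p q hp hq c)⟩

theorem Loc.append {n n' : ℕ} {s t r : List α} {u v x y : List (Gen α)} (h : Loc neg n s t u v)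
    (h' : Loc neg n' t r x y) : Loc neg (n + n') s r (u ++ x) (v ++ y) := by
  refine ⟨h.1.append h'.1, h.2.1.append h'.2.1, fun m w p q hp hq c => ?_⟩
  have c1 := h.2.2 m w p (x ++ q) hp (h'.1.append hq) (by simpa only [List.append_assoc] using c)
  have c2 := h'.2.2 _ w (p ++ v) q (hp.append h.2.1) hq
    (by simpa only [List.append_assoc] using c1)
  rw [← Nat.add_assoc]
  simpa only [List.append_assoc] using c2

theorem Loc.cast {n n' : ℕ} {s t : List α} {u v u' v' : List (Gen α)} (h : Loc neg n s t u v)
    (e : n = n') (eu : u = u') (ev : v = v') : Loc neg n' s t u' v' := by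
  subst e eu ev; exact h

theorem Loc.move {s t : List α} {a b l r : List (Gen α)} (h : Reid l r ∨ Reid r l)
    (hu : Run neg s (a ++ l ++ b) t) (hv : Run neg s (a ++ r ++ b) t) :
    Loc neg 0 s t (a ++ l ++ b) (a ++ r ++ b) := by
  refine ⟨hu, hv, fun m w p q hp hq c => ?_⟩
  have := Cob.move m w (p ++ a) (b ++ q) l r (by simpa only [List.append_assoc] using c) h
    (by simpa only [List.append_assoc] using (hp.append hv).append hq)
  simpa only [List.append_assoc, Nat.add_zero] using this

theorem Loc.handle {s t r : List α} {a b : List (Gen α)} {c : α} (ha : Run neg s a (c :: r))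
    (hu : Run neg s (a ++ [.R 0, .L 0 c] ++ b) t) (hv : Run neg s (a ++ b) t) :
    Loc neg 1 s t (a ++ [.R 0, .L 0 c] ++ b) (a ++ b) := by
  refine ⟨hu, hv, fun m w p q hp hq h => ?_⟩
  have := Cob.handle m w (p ++ a) (b ++ q) [] r c
    (by simpa only [List.append_assoc, List.length_nil] using h) (hp.append ha)
    (by simpa only [List.append_assoc] using (hp.append hv).append hq)
  simpa only [List.append_assoc] using this

theorem Loc.cob {n : ℕ} {u v : List (Gen α)} (h : Loc neg n [] [] u v) : Cob neg n u v := by
  have := h.2.2 0 u [] [] (.nil _) (.nil _) (by simpa using Cob.refl u h.1)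
  simpa using this

/-- The right-hand sides of the moves with a given left-hand side. -/
def cand : List (Gen α) → List (List (Gen α))
  | [g, h] => if g.pos + g.out ≤ h.pos then [[h.put (h.pos - g.out + g.inn), g]] else []
  | [.L i _, .X j, .R k] => if k = i ∧ (i = j + 1 ∨ j = i + 1) then [[]] else []
  | [.L i b, .X j, .X k] =>
    if j = i + 1 ∧ k = i then [[.L j b]] else if i = j + 1 ∧ k = i then [[.L j b]] else []
  | [.X i, .X j, .R k] =>
    if j = i + 1 ∧ k = i then [[.R j]] else if i = j + 1 ∧ k = i then [[.R j]] else []
  | [.X i, .X j, .X k] => if j = i + 1 ∧ k = i then [[.X j, .X i, .X j]] else []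
  | _ => []

theorem Gen.put_pos (g : Gen α) : g.put g.pos = g := by cases g <;> rfl

theorem reid_of_cand {l r : List (Gen α)} (h : r ∈ cand l) : Reid l r := by
  unfold cand at h
  split at h
  · rename_i g k
    split_ifs at h with c
    · obtain ⟨j, hj⟩ := Nat.exists_eq_add_of_le c
      have := Reid.comm g k g.pos j
      rw [← hj, g.put_pos, k.put_pos] at this
      rw [List.mem_singleton.1 h, show k.pos - g.out + g.inn = g.pos + g.inn + j by omega]
      exact this
    · simp at h
  · split_ifs at h with c
    · obtain ⟨rfl, rfl | rfl⟩ := c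
      · rw [List.mem_singleton.1 h]; exact .one _ _
      · rw [List.mem_singleton.1 h]; exact .one' _ _
    · simp at h
  · split_ifs at h with c c'
    · obtain ⟨rfl, rfl⟩ := c
      rw [List.mem_singleton.1 h]; exact .twoL _ _
    · obtain ⟨rfl, rfl⟩ := c'
      rw [List.mem_singleton.1 h]; exact .twoL' _ _
    · simp at h
  · split_ifs at h with c c'
    · obtain ⟨rfl, rfl⟩ := c
      rw [List.mem_singleton.1 h]; exact .twoR _
    · obtain ⟨rfl, rfl⟩ := c'
      rw [List.mem_singleton.1 h]; exact .twoR' _
    · simp at h
  · split_ifs at h with c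
    · obtain ⟨rfl, rfl⟩ := c
      rw [List.mem_singleton.1 h]; exact .three _
    · simp at h
  · simp at h

variable [DecidableEq α]

def okMove (l r : List (Gen α)) : Bool := (cand l).any (eqw r) || (cand r).any (eqw l)

theorem reid_of_ok {l r : List (Gen α)} (h : okMove l r = true) : Reid l r ∨ Reid r l := by
  simp only [okMove, Bool.or_eq_true, List.any_eq_true] at h
  rcases h with ⟨x, hx, e⟩ | ⟨x, hx, e⟩
  · exact .inl (reid_of_cand (eq_of_eqw e ▸ hx))
  · exact .inr (reid_of_cand (eq_of_eqw e ▸ hx))

/-- Check a list of moves; the triple k, n, r replaces the n letters after the first k by r. -/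
def chk (neg : α → α) (s t : List α) :
    List (Gen α) → List (ℕ × ℕ × List (Gen α)) → List (Gen α) → Bool
  | u, [], v => decide (run neg s u = some t) && eqw u v
  | u, m :: ms, v => decide (run neg s u = some t) &&
      okMove ((u.drop m.1).take m.2.1) m.2.2 &&
      chk neg s t (u.take m.1 ++ m.2.2 ++ (u.drop m.1).drop m.2.1) ms v

theorem Loc.of_chk {s t : List α} {u v : List (Gen α)} (ms : List (ℕ × ℕ × List (Gen α)))
    (h : chk neg s t u ms v = true) : Loc neg 0 s t u v := by
  induction ms generalizing u with
  | nil =>
    simp only [chk, Bool.and_eq_true, decide_eq_true_eq] at h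
    rw [← eq_of_eqw h.2]
    exact .refl (.of_run h.1)
  | cons m ms ih =>
    simp only [chk, Bool.and_eq_true, decide_eq_true_eq] at h
    have h2 := ih h.2
    have e : u.take m.1 ++ (u.drop m.1).take m.2.1 ++ (u.drop m.1).drop m.2.1 = u := by
      rw [List.append_assoc, List.take_append_drop, List.take_append_drop]
    have h1 := Loc.move (neg := neg) (s := s) (t := t) (a := u.take m.1)
      (b := (u.drop m.1).drop m.2.1) (reid_of_ok h.1.2) (e.symm ▸ Run.of_run h.1.1) h2.1
    rw [e] at h1
    exact h1.trans h2

end Pool.Agent.Lib.MP_b4fd03_gt
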