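import Pool.Agent.Lib.MP_b4fd03_gt.Eqv

/-!
Colourings of fronts that are constant along the components survive isotopy.
-/

namespace Pool.Agent.Lib.MP_b4fd03_gt

variable {α : Type} {neg : α → α}

theorem cut {a b c d : List α} (e : a ++ b = c ++ d) (h : a.length ≤ c.length) :
    ∃ z, c = a ++ z ∧ b = z ++ d := by
  rcases List.append_eq_append_iff.1 e with h1 | ⟨z, rfl, rfl⟩
  · exact h1
  · obtain rfl : z = [] := List.length_eq_zero_iff.1 (by rw [List.length_append] at h; omega)
    exact ⟨[], by simp, rfl⟩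

theorem cut3 (s : List α) {i k : ℕ} (h : i + k ≤ s.length) :
    ∃ x z y, s = x ++ z ++ y ∧ x.length = i ∧ z.length = k :=
  ⟨s.take i, (s.drop i).take k, (s.drop i).drop k,
    by rw [List.append_assoc, List.take_append_drop, List.take_append_drop],
    by simp; omega, by simp; omega⟩

/-- The word fits on `k` strands. -/
def Fit : ℕ → List (Gen α) → Prop
  | _, [] => True
  | k, g :: w => g.pos + g.inn ≤ k ∧ Fit (k - g.inn + g.out) w

instance Fit.dec : ∀ (k : ℕ) (w : List (Gen α)), Decidable (Fit k w)
  | _, [] => isTrue trivial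
  | _, _ :: w => @instDecidableAnd _ _ _ (Fit.dec _ w)

theorem Run.fit {s t : List α} {w : List (Gen α)} (h : Run neg s w t) : Fit s.length w := by
  induction h with
  | nil s => trivial
  | L p q b w t _ ih => exact ⟨by simp [Gen.pos, Gen.inn], by convert ih using 1; simp [Gen.inn, Gen.out]; omega⟩
  | R p q b w t _ ih => exact ⟨by simp [Gen.pos, Gen.inn], by convert ih using 1; simp [Gen.inn, Gen.out]; omega⟩
  | X p q a b w t _ ih => exact ⟨by simp [Gen.pos, Gen.inn], by convert ih using 1; simp [Gen.inn, Gen.out]; omega⟩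

theorem Run.unframe {x s y r : List α} {w : List (Gen α)}
    (h : Run neg (x ++ s ++ y) (w.map (sh x.length)) r) (f : Fit s.length w) :
    ∃ t, Run neg s w t ∧ r = x ++ t ++ y := by
  induction w generalizing s with
  | nil => exact ⟨s, .nil s, h.nil_inv.symm⟩
  | cons g w ih =>
    obtain ⟨p, q, s0, t0, c, e1, e, h1⟩ := Run.inv h
    rw [sh, Gen.put_put] at c
    rw [sh, Gen.pos_put] at e
    have l1 := c.len.1
    have l2 := c.len.2
    rw [Gen.inn_put] at l1
    rw [Gen.out_put] at l2
    obtain ⟨a, z, b, rfl, la, lz⟩ := cut3 s f.1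
    have e2 : (x ++ a) ++ (z ++ (b ++ y)) = p ++ (s0 ++ q) := by simpa using e1
    obtain ⟨rfl, e3⟩ := List.append_inj e2 (by simp [← e, la])
    obtain ⟨rfl, rfl⟩ := List.append_inj e3 (lz.trans l1.symm)
    obtain ⟨t, h2, rfl⟩ := ih (s := a ++ t0 ++ b) (by simpa using h1)
      (by convert f.2 using 1; simp; omega)
    refine ⟨t, ?_, rfl⟩
    have := c.run a b h2
    rwa [Gen.put_put, la, Gen.put_pos] at this

theorem Run.to_run [DecidableEq α] {s t : List α} {w : List (Gen α)} (h : Run neg s w t) :
    run neg s w = some t := by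
  induction h with
  | nil s => rfl
  | L p q b w t _ ih => simpa [run, step] using ih
  | R p q b w t _ ih => simpa [run, step] using ih
  | X p q a b w t _ ih => simpa [run, step] using ih

def lifts : List (Gen Unit) → List (List (Gen Bool))
  | [] => [[]]
  | .L i _ :: w => (lifts w).map (.L i true :: ·) ++ (lifts w).map (.L i false :: ·)
  | .R i :: w => (lifts w).map (.R i :: ·)
  | .X i :: w => (lifts w).map (.X i :: ·)

theorem mem_lifts {l : List (Gen Unit)} {l' : List (Gen Bool)} :
    l' ∈ lifts l ↔ l'.map Gen.erase = l := by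
  induction l generalizing l' with
  | nil => simp [lifts]
  | cons g l ih =>
    rcases l' with _ | ⟨g', l'⟩
    · cases g <;> simp [lifts]
    · rcases g' with ⟨j, _ | _⟩ | j | j <;> cases g <;> simp [lifts, Gen.erase, ih, eq_comm, and_comm]

def has (c : Bool) (w : List (Gen Bool)) : Bool :=
  w.any fun g => match g with
    | .L _ b => b == c
    | _ => false

theorem has_iff {c : Bool} {w : List (Gen Bool)} : has c w = true ↔ ∃ i, Gen.L i c ∈ w := by
  simp only [has, List.any_eq_true]
  constructor
  · rintro ⟨g, hg, h⟩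
    cases g <;> simp at h
    exact ⟨_, h ▸ hg⟩
  · rintro ⟨i, h⟩
    exact ⟨_, h, by simp⟩

theorem has_sh (c : Bool) (w : List (Gen Bool)) (n : ℕ) : has c (w.map (sh n)) = has c w := by
  simp only [has, List.any_map]
  congr with g
  cases g <;> rfl

theorem erase_sh (n : ℕ) (g : Gen Bool) : (sh n g).erase = sh n g.erase := by cases g <;> rfl

theorem fit_erase {k : ℕ} {w : List (Gen Bool)} : Fit k (w.map Gen.erase) ↔ Fit k w := by
  induction w generalizing k with
  | nil => rfl
  | cons g w ih => cases g <;> exact and_congr Iff.rfl ih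

theorem unsh {i : ℕ} {l : List (Gen Unit)} {l' : List (Gen Bool)}
    (e : l'.map Gen.erase = l.map (sh i)) : ∃ m : List (Gen Bool), l' = m.map (sh i) ∧ m.map Gen.erase = l := by
  induction l generalizing l' with
  | nil => exact ⟨[], by simpa using e, rfl⟩
  | cons g l ih =>
    obtain ⟨g', l', rfl, e1, e2⟩ := List.map_eq_cons_iff.1 e
    obtain ⟨m, rfl, rfl⟩ := ih e2
    refine ⟨g'.put g.pos :: m, ?_, ?_⟩ <;>
      cases g <;> cases g' <;> simp_all [sh, Gen.erase, Gen.put, Gen.pos]

/-- Colourings for `false`, orientations for `true`. -/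
def ng (e : Bool) (b : Bool) : Bool := cond e (!b) b

def LiftOK (e : Bool) (s : List Bool) (l r : List (Gen Unit)) : Prop :=
  ∀ l' ∈ lifts l, (run (ng e) s l').isSome = true → ∃ r' ∈ lifts r,
    run (ng e) s r' = run (ng e) s l' ∧ okMove l' r' = true ∧
      (e = false → ∀ c, has c l' = true → has c r' = true ∨ c ∈ s)

instance (e : Bool) (s : List Bool) (l r : List (Gen Unit)) : Decidable (LiftOK e s l r) := by
  unfold LiftOK; infer_instance

/-- The conclusion of the lifting lemmas. -/
def Lifted (e : Bool) (s t : List Bool) (l' : List (Gen Bool)) (r : List (Gen Unit)) : Prop :=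
  ∃ r' : List (Gen Bool), r'.map Gen.erase = r ∧ Run (ng e) s r' t ∧ (Reid l' r' ∨ Reid r' l') ∧
    (e = false → ∀ c, has c l' = true → has c r' = true ∨ c ∈ s)

theorem lift_small {k i : ℕ} {o : Bool} (l r : List (Gen Unit)) (f : Fit k l)
    (h : ∀ o, ∀ s : List Bool, s.length = k → LiftOK o s l r) {s t : List Bool}
    {l' : List (Gen Bool)} (hk : i + k ≤ s.length) (e : l'.map Gen.erase = l.map (sh i))
    (hr : Run (ng o) s l' t) : Lifted o s t l' (r.map (sh i)) := by
  obtain ⟨x, z, y, rfl, rfl, rfl⟩ := cut3 s hk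
  obtain ⟨m, rfl, rfl⟩ := unsh e
  obtain ⟨t, h1, rfl⟩ := hr.unframe (fit_erase.1 f)
  obtain ⟨r', a, b, b', c⟩ := h o z rfl m (mem_lifts.2 rfl) (by rw [h1.to_run]; rfl)
  refine ⟨r'.map (sh x.length), ?_, (Run.of_run (b.trans h1.to_run)).frame x y,
    (reid_of_ok b').imp (·.sh _) (·.sh _), fun ho d hd => ?_⟩
  · rw [← mem_lifts.1 a, List.map_map, List.map_map]
    exact List.map_congr_left fun g _ => erase_sh _ g
  · rw [has_sh] at hd ⊢
    exact (c ho d hd).imp_right fun h => by simp [h]

theorem all1 {P : Bool → List Bool → Prop} (h : ∀ o a, P o [a]) (o : Bool) (s : List Bool)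
    (e : s.length = 1) : P o s := by
  obtain ⟨a, rfl⟩ := List.length_eq_one_iff.1 e
  exact h o a

theorem all3 {P : Bool → List Bool → Prop} (h : ∀ o a b c, P o [a, b, c]) (o : Bool) (s : List Bool)
    (e : s.length = 3) : P o s := by
  obtain ⟨a, b, c, rfl⟩ := List.length_eq_three.1 e
  exact h o a b c

theorem erase_put {g : Gen Bool} {h : Gen Unit} {i : ℕ} (e : g.erase = h.put i) :
    g.pos = i ∧ g.inn = h.inn ∧ g.out = h.out ∧ ∀ j, (g.put j).erase = h.put j := by
  cases g <;> cases h <;> simp_all [Gen.erase, Gen.put, Gen.pos, Gen.inn, Gen.out]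

theorem has_swap (c : Bool) (g h : Gen Bool) (j : ℕ) : has c [g, h] = has c [h.put j, g] := by
  cases g <;> cases h <;> simp [has, Gen.put, Bool.or_comm]

theorem lift_move {l r : List (Gen Unit)} (m : Reid l r ∨ Reid r l) {s t : List Bool} {o : Bool}
    {l' : List (Gen Bool)} (e : l'.map Gen.erase = l) (hr : Run (ng o) s l' t)
    (f : Fit s.length r) : Lifted o s t l' r := by
  have f' : Fit s.length l := e ▸ fit_erase.2 hr.fit
  rcases m with m | m <;> cases m <;>
    simp only [Fit, Gen.pos, Gen.inn, Gen.out, and_true] at f f'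
  case inl.comm g h i k =>
    clear f f'
    obtain ⟨g', _, rfl, e1, e0⟩ := List.map_eq_cons_iff.1 e
    obtain ⟨h', rfl, e2⟩ := List.map_eq_singleton_iff.1 e0
    obtain ⟨a1, a2, a3, -⟩ := erase_put e1
    obtain ⟨b1, -, -, b4⟩ := erase_put e2
    obtain ⟨p, q, s0, t0, c, rfl, ep, h1⟩ := Run.inv hr
    obtain ⟨p', q', s1, t1, c', e3, ep', h2⟩ := Run.inv h1
    have l1 := c.len.1
    have l2 := c.len.2
    rw [Gen.inn_put] at l1
    rw [Gen.out_put] at l2
    rw [List.append_assoc p'] at e3
    obtain ⟨z, rfl, rfl⟩ := cut e3 (by simp; omega)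
    have m := Reid.comm g' h' i k
    rw [a2, a3, ← b1, Gen.put_pos, ← a1, Gen.put_pos, a1] at m
    refine ⟨[h'.put (i + g.inn + k), g'], by simp [e1, b4], ?_, .inl m,
      fun _ c hc => .inl (by rwa [← has_swap])⟩
    have := c'.run (p ++ s0 ++ z) q' (by simpa using c.run p (z ++ t1 ++ q') (by simpa using h2))
    rw [Gen.put_put, ← ep, Gen.put_pos, show (p ++ s0 ++ z).length = i + g.inn + k by
      simp at ep' ⊢; omega] at this
    simpa using this
  case inr.comm g h i k =>
    clear f f'
    obtain ⟨h', _, rfl, e2, e0⟩ := List.map_eq_cons_iff.1 e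
    obtain ⟨g', rfl, e1⟩ := List.map_eq_singleton_iff.1 e0
    obtain ⟨a1, a2, a3, -⟩ := erase_put e1
    obtain ⟨b1, -, -, b4⟩ := erase_put e2
    obtain ⟨p', q', s1, t1, c', rfl, ep', h1⟩ := Run.inv hr
    obtain ⟨p, q, s0, t0, c, e3, ep, h2⟩ := Run.inv h1
    have l1 := c.len.1
    have l2 := c.len.2
    rw [Gen.inn_put] at l1
    rw [Gen.out_put] at l2
    rw [List.append_assoc p'] at e3
    obtain ⟨z, rfl, rfl⟩ := cut e3.symm (by simp; omega)
    have m := Reid.comm g' h' i k
    rw [a2, a3, ← b1, Gen.put_pos, ← a1, Gen.put_pos, a1] at m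
    refine ⟨[g', h'.put (i + g.out + k)], by simp [e1, b4], ?_, .inr m, fun _ c hc => .inl ?_⟩
    · have := c.run p (z ++ s1 ++ q') (by simpa using c'.run (p ++ t0 ++ z) q' (by simpa using h2))
      rw [Gen.put_put, ← ep, Gen.put_pos, show g'.pos + (t0.length + z.length) = i + g.out + k by
        simp at ep' ⊢; omega] at this
      simpa using this
    · rw [has_swap _ _ _ h'.pos, Gen.put_put, Gen.put_pos]
      exact hc
  case inl.one i b =>
    exact lift_small (k := 1) (i := i) [.L 1 (), .X 0, .R 1] [] (by decide)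
      (all1 (by decide)) (by omega) e hr
  case inr.one i b =>
    exact lift_small (k := 1) (i := i) [] [.L 1 (), .X 0, .R 1] trivial
      (all1 (by decide)) (by omega) e hr
  case inl.one' i b =>
    exact lift_small (k := 1) (i := i) [.L 0 (), .X 1, .R 0] [] (by decide)
      (all1 (by decide)) (by omega) e hr
  case inr.one' i b =>
    exact lift_small (k := 1) (i := i) [] [.L 0 (), .X 1, .R 0] trivial
      (all1 (by decide)) (by omega) e hr
  case inl.twoL i b =>
    exact lift_small (k := 1) (i := i) [.L 0 (), .X 1, .X 0] [.L 1 ()] (by decide)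
      (all1 (by decide)) (by omega) e hr
  case inr.twoL i b =>
    exact lift_small (k := 1) (i := i) [.L 1 ()] [.L 0 (), .X 1, .X 0] (by decide)
      (all1 (by decide)) (by omega) e hr
  case inl.twoL' i b =>
    exact lift_small (k := 1) (i := i) [.L 1 (), .X 0, .X 1] [.L 0 ()] (by decide)
      (all1 (by decide)) (by omega) e hr
  case inr.twoL' i b =>
    exact lift_small (k := 1) (i := i) [.L 0 ()] [.L 1 (), .X 0, .X 1] (by decide)
      (all1 (by decide)) (by omega) e hr
  case inl.twoR i =>
    exact lift_small (k := 3) (i := i) [.X 0, .X 1, .R 0] [.R 1] (by decide)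
      (all3 (by decide)) (by omega) e hr
  case inr.twoR i =>
    exact lift_small (k := 3) (i := i) [.R 1] [.X 0, .X 1, .R 0] (by decide)
      (all3 (by decide)) (by omega) e hr
  case inl.twoR' i =>
    exact lift_small (k := 3) (i := i) [.X 1, .X 0, .R 1] [.R 0] (by decide)
      (all3 (by decide)) (by omega) e hr
  case inr.twoR' i =>
    exact lift_small (k := 3) (i := i) [.R 0] [.X 1, .X 0, .R 1] (by decide)
      (all3 (by decide)) (by omega) e hr
  case inl.three i =>
    exact lift_small (k := 3) (i := i) [.X 0, .X 1, .X 0] [.X 1, .X 0, .X 1] (by decide)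
      (all3 (by decide)) (by omega) e hr
  case inr.three i =>
    exact lift_small (k := 3) (i := i) [.X 1, .X 0, .X 1] [.X 0, .X 1, .X 0] (by decide)
      (all3 (by decide)) (by omega) e hr

theorem has_append (c : Bool) (u v : List (Gen Bool)) : has c (u ++ v) = (has c u || has c v) :=
  List.any_append

theorem Run.has {s t : List Bool} {w : List (Gen Bool)} (h : Run id s w t) {c : Bool} (hc : c ∈ t) :
    c ∈ s ∨ has c w = true := by
  induction h with
  | nil s => exact .inl hc
  | L p q b w t _ ih =>
    rcases ih hc with h | h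
    · by_cases e : c = b
      · exact .inr (has_iff.2 ⟨p.length, by simp [e]⟩)
      · exact .inl (by simpa [e] using h)
    · exact .inr (by rw [← List.singleton_append, has_append, h, Bool.or_true])
  | R p q b w t _ ih =>
    refine (ih hc).imp (fun h => ?_) fun h => by rw [← List.singleton_append, has_append, h, Bool.or_true]
    simp only [List.mem_append, List.mem_cons] at h ⊢
    tauto
  | X p q a b w t _ ih =>
    refine (ih hc).imp (fun h => ?_) fun h => by rw [← List.singleton_append, has_append, h, Bool.or_true]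
    simp only [List.mem_append, List.mem_cons] at h ⊢
    tauto

theorem Run.len_erase {s t : List Bool} {w : List (Gen Bool)} {ng : Bool → Bool} (h : Run ng s w t) :
    Run id (s.map fun _ => ()) (w.map Gen.erase) (t.map fun _ => ()) := by
  induction h with
  | nil s => exact .nil _
  | L p q b w t _ ih => simpa [Gen.erase] using Run.L (neg := id) (p.map fun _ => ()) (q.map fun _ => ()) () _ _ (by simpa using ih)
  | R p q b w t _ ih => simpa [Gen.erase] using Run.R (neg := id) (p.map fun _ => ()) (q.map fun _ => ()) () _ _ (by simpa using ih)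
  | X p q a b w t _ ih => simpa [Gen.erase] using Run.X (neg := id) (p.map fun _ => ()) (q.map fun _ => ()) () () _ _ (by simpa using ih)

/-- The front has a colouring, constant along components, that uses both colours. -/
def NC (v : List (Gen Unit)) : Prop :=
  ∃ w : List (Gen Bool), w.map Gen.erase = v ∧ Run id [] w [] ∧ ∀ c, has c w = true

theorem Eqv.nc {u v : List (Gen Unit)} (h : Eqv id [] [] u v) (hu : NC u) : NC v := by
  induction h with
  | refl _ => exact hu
  | move a b l r _ m hr ih =>
    obtain ⟨w, e, hw, hc⟩ := ih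
    obtain ⟨w1, b', rfl, e1, rfl⟩ := List.map_eq_append_iff.1 e
    obtain ⟨a', l', rfl, rfl, rfl⟩ := List.map_eq_append_iff.1 e1
    obtain ⟨t, h1, h3⟩ := hw.split
    obtain ⟨s, h1, h2⟩ := h1.split
    obtain ⟨t', g1, -⟩ := hr.split
    obtain ⟨s', g1, g2⟩ := g1.split
    obtain rfl := Run.det g1 h1.len_erase
    obtain ⟨r', rfl, k1, -, k2⟩ := lift_move (o := false) m rfl h2 (by simpa using g2.fit)
    refine ⟨a' ++ r' ++ b', by simp, (h1.append k1).append h3, fun c => ?_⟩
    have := hc c
    simp only [has_append, Bool.or_eq_true] at this ⊢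
    rcases this with (h | h) | h
    · exact .inl (.inl h)
    · rcases k2 rfl c h with h | h
      · exact .inl (.inr h)
      · exact .inl (.inl ((h1.has h).resolve_left (by simp)))
    · exact .inr h

end Pool.Agent.Lib.MP_b4fd03_gt
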