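import Pool.Agent.Lib.MP_b4fd03_gt.Slide

/-!
The arcs between the feet of the handles, and the induction on the number of handles.
-/

namespace Pool.Agent.Lib.MP_b4fd03_gt

variable {κ : Type}

theorem count_rel {x y : ℕ} (h : x ≠ y) (l : List ℕ) (z : ℕ) :
    (l.map fun a => if a = y then x else a).count z =
      if z = y then 0 else l.count z + if z = x then l.count y else 0 := by
  induction l with
  | nil => simp
  | cons a l ih =>
    simp only [List.map_cons, List.count_cons, ih, beq_iff_eq]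
    split_ifs <;> omega

theorem count_lab {x y : ℕ} (h : x ≠ y) (l : List (Bool × ℕ)) (b : Bool) (z : ℕ) :
    (lab (fun a => if a = y then x else a) l).count (b, z) =
      if z = y then 0 else l.count (b, z) + if z = x then l.count (b, y) else 0 := by
  induction l with
  | nil => simp
  | cons a l ih =>
    obtain ⟨c, a⟩ := a
    simp only [lab_cons, List.count_cons, ih, beq_iff_eq, Prod.mk.injEq]
    by_cases e : c = b <;> simp only [e, true_and, false_and, if_false] <;>
      split_ifs <;> omega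

theorem fresh (O : List ℕ) (s : List (Bool × ℕ)) : ∃ x, ∀ y, x ≤ y →
    O.count y = 0 ∧ ∀ b, s.count (b, y) = 0 := by
  refine ⟨(O ++ s.map Prod.snd).sum + 1, fun y hy => ?_⟩
  have : y ∉ O ++ s.map Prod.snd := fun h => by
    have := List.single_le_sum (fun _ _ => Nat.zero_le _) y h
    omega
  rw [List.mem_append, not_or] at this
  exact ⟨List.count_eq_zero.2 this.1, fun b => List.count_eq_zero.2 fun h =>
    this.2 (List.mem_map.2 ⟨_, h, rfl⟩)⟩

/-- Every label has at most one start, and as many ends. -/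
def Bal (s : List (Bool × ℕ)) (I O : List ℕ) : Prop := ∀ z,
  O.count z + s.count (true, z) = I.count z + s.count (false, z) ∧ O.count z + s.count (true, z) ≤ 1

theorem dir_split {s : List (Bool × ℕ)} {p z q : List (Bool × κ)} (e : dir s = dir (p ++ z ++ q)) :
    ∃ p' z' q', s = p' ++ z' ++ q' ∧ dir p' = dir p ∧ dir z' = dir z ∧ dir q' = dir q := by
  rw [dir_append, dir_append] at e
  obtain ⟨a, q', rfl, e1, e2⟩ := List.map_eq_append_iff.1 e
  obtain ⟨p', z', rfl, e3, e4⟩ := List.map_eq_append_iff.1 e1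
  exact ⟨p', z', q', rfl, e3, e4, e2⟩

theorem dir_two {z : List (Bool × ℕ)} {a b : Bool} (e : dir z = [a, b]) :
    ∃ x y, z = [(a, x), (b, y)] := by
  rcases z with _ | ⟨⟨a', x⟩, _ | ⟨⟨b', y⟩, _ | _⟩⟩ <;> simp_all

theorem RM.label {f : κ → ℕ} {s t : List (Bool × κ)} {w : Wd} {I O : List κ} {n : ℕ}
    (h : RM f s w t I O n) (ht : t = []) : ∃ s' I' O' m, dir s' = dir s ∧
      RM (fun _ : ℕ => 0) s' w [] I' O' m ∧ Bal s' I' O' := by
  induction h with
  | nil s => exact ⟨[], [], [], 0, by rw [ht]; rfl, .nil _, fun z => by simp⟩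
  | @cons p q s0 t0 t k w I O I' O' n n' c _ ih =>
    obtain ⟨s', J, P, m, e, h, B⟩ := ih ht
    obtain ⟨p', z, q', rfl, e1, e2, e3⟩ := dir_split e
    have l : p.length = p'.length := by rw [← dir_length, ← e1, dir_length]
    obtain ⟨x, hx⟩ := fresh P (p' ++ z ++ q')
    rw [l]
    cases c with
    | X a b =>
      obtain ⟨x, y, rfl⟩ := dir_two e2
      refine ⟨_, _, _, _, by simp [e1, e3], .cons p' q' (.X (a.1, y) (b.1, x)) h, fun z => ?_⟩
      have := B z
      simp only [List.count_append, List.count_cons, List.count_nil] at this ⊢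
      omega
    | R b y =>
      obtain rfl : z = [] := List.map_eq_nil_iff.1 e2
      refine ⟨_, _, _, _, by simp [e1, e3], .cons p' q' (.R b x) h, fun z => ?_⟩
      have := B z
      have h1 := hx z
      have h2 := fun a => (h1 a).2 true
      cases b <;>
        simp only [List.count_append, List.count_cons, List.count_nil, beq_iff_eq, Prod.mk.injEq,
          true_and, Bool.true_eq_false, Bool.false_eq_true, false_and, if_false, Bool.not_true,
          Bool.not_false] at this h2 ⊢ <;> split_ifs <;> omega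
    | H =>
      obtain ⟨x₃, x₄, rfl⟩ := dir_two e2
      refine ⟨_, _, _, _, by simp [e1, e3], .cons p' q' (.H x (x + 1) x₃ x₄) h, fun z => ?_⟩
      have := B z
      have h1 := hx z
      have h2 := fun a => (h1 a).2 true
      simp only [List.count_append, List.count_cons, List.count_nil, beq_iff_eq, Prod.mk.injEq,
        true_and, Bool.true_eq_false, Bool.false_eq_true, false_and, if_false] at this h2 ⊢
      split_ifs at this h2 ⊢ <;> omega
    | L b y =>
      obtain ⟨x, y, rfl⟩ := dir_two e2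
      by_cases e0 : x = y
      · subst e0
        refine ⟨_, _, _, _, by simp [e1, e3], .cons p' q' (.L b x) h, fun z => ?_⟩
        have := B z
        cases b <;>
          simp only [List.count_append, List.count_cons, List.count_nil, beq_iff_eq, Prod.mk.injEq,
            true_and, Bool.true_eq_false, Bool.false_eq_true, false_and, if_false, Bool.not_true,
            Bool.not_false] at this ⊢ <;> split_ifs at this <;> omega
      · obtain ⟨m', h'⟩ := h.map (fun a => if a = y then x else a) fun _ => 0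
        have := RM.cons (lab _ p') (lab _ q') (.L b x) (by simpa [e0] using h')
        rw [lab_length] at this
        refine ⟨_, _, _, _, by simp [e1, e3], this, fun z => ?_⟩
        have a1 := B z
        have a2 := B x
        have a3 := B y
        have e' : ¬y = x := fun h => e0 h.symm
        cases b <;>
          simp only [List.count_append, List.count_cons, List.count_nil, beq_iff_eq, Prod.mk.injEq,
            true_and, Bool.true_eq_false, Bool.false_eq_true, false_and, if_false, Bool.not_true,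
            Bool.not_false, count_rel e0, count_lab e0, if_true, e0, e'] at a1 a2 a3 ⊢ <;>
          split_ifs at a1 ⊢ <;> subst_vars <;> omega

theorem RM.colour {f : Bool → ℕ} {s t : BB} {w : Wd} {I O : List Bool} {n : ℕ}
    (h : RM f s w t I O n) (hI : ∀ x ∈ I, x = false) (hO : ∀ x ∈ O, x = false) :
    ∃ w' : List (Gen Bool), w'.map Gen.erase = post w ∧
      Run id (s.map Prod.snd) w' (t.map Prod.snd) ∧
      (cnt w ≠ 0 → false ∈ s.map Prod.snd ∨ has false w' = true) := by
  induction h with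
  | nil s => exact ⟨[], rfl, .nil _, fun h => absurd rfl h⟩
  | @cons p q s0 t0 t k w I O I' O' n n' c _ ih =>
    obtain ⟨w', e, h, hc⟩ := ih (fun x hx => hI x (by simp [hx])) fun x hx => hO x (by simp [hx])
    have key : ∀ g : Gen Bool, Cor id (s0.map Prod.snd) g (t0.map Prod.snd) →
        [(g.put p.length).erase] = post1 (k, p.length) → isH (k, p.length) = false →
        ∃ w' : List (Gen Bool), w'.map Gen.erase = post ((k, p.length) :: w) ∧
          Run id ((p ++ s0 ++ q).map Prod.snd) w' (t.map Prod.snd) ∧ (cnt ((k, p.length) :: w) ≠ 0 →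
            false ∈ (p ++ s0 ++ q).map Prod.snd ∨ has false w' = true) := fun g cg eg hk => by
      have r1 := cg.run (p.map Prod.snd) (q.map Prod.snd) (.nil _)
      rw [List.length_map, ← List.map_append, ← List.map_append, ← List.map_append,
        ← List.map_append] at r1
      refine ⟨_, ?_, r1.append h, fun hn => ?_⟩
      · rw [List.map_append, e]
        exact congrArg (· ++ post w) eg
      · rw [has_append, Bool.or_eq_true]
        rcases hc (by simpa [cnt, hk] using hn) with h1 | h1
        · exact (r1.has h1).imp_right .inl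
        · exact .inr (.inr h1)
    cases c with
    | L b x => exact key _ (.L x) rfl rfl
    | R b x => exact key _ (.R x) rfl rfl
    | X a b => exact key _ (.X _ _) rfl rfl
    | H x₁ x₂ x₃ x₄ =>
      obtain rfl := hI x₁ (by simp)
      obtain rfl := hI x₃ (by simp)
      obtain rfl := hO x₂ (by simp)
      obtain rfl := hO x₄ (by simp)
      exact ⟨w', e, by simpa using h, fun _ => .inl (by simp)⟩

theorem cnt_H (c : Bool) (i : ℕ) (C : Wd) : cnt ((K.H c, i) :: C) = cnt C + 1 :=
  List.countP_cons_of_pos rfl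

theorem exists_H {W : Wd} (h : cnt W ≠ 0) : ∃ A c i C, W = A ++ (K.H c, i) :: C := by
  obtain ⟨⟨k, i⟩, he, h1⟩ := List.countP_pos_iff.1 (Nat.pos_of_ne_zero h)
  obtain ⟨A, C, rfl⟩ := List.append_of_mem he
  cases k <;> first | exact ⟨A, _, i, C, rfl⟩ | simp [isH] at h1

theorem goodR {A C : Wd} {m1 m2 : ℕ} (p q : BB)
    (h1 : RW [] A (p ++ [(true, false), (false, false)] ++ q) m1)
    (h3 : RW (p ++ [(false, false), (true, true)] ++ q) C [] m2) :
    Good (A ++ (K.H false, p.length) :: C) := by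
  have h0 : RW [(true, false), (false, false)] [(.L false, 2), (.X, 1), (.X, 0)]
      ([(false, false)] ++ TR) 0 := .of_run rfl
  exact Good.loc startR p q h1 h3 (by simp) (by simp) ((proc _).1 C _ (p ++ [(false, false)]) q _ _
    ((h1.append (h0.frame p q)).cast rfl rfl (by simp)) (h3.cast (by simp) rfl rfl) rfl)
    (by simp [shE]) (by simp [shE, BR])

theorem goodL {A C : Wd} {m1 m2 : ℕ} (p q : BB)
    (h1 : RW [] A (p ++ [(true, false), (false, true)] ++ q) m1)
    (h3 : RW (p ++ [(false, false), (true, false)] ++ q) C [] m2) :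
    Good (A ++ (K.H false, p.length) :: C) := by
  have h0 : RW ([(true, false)] ++ TL) [(.X, 0), (.X, 1), (.R, 2)]
      [(false, false), (true, false)] 0 := .of_run rfl
  exact Good.loc startL p q h1 h3 (by simp) (by simp) ((proc _).2 A _ (p ++ [(true, false)]) q _ _
    (h1.cast rfl rfl (by simp)) (((h0.frame p q).append h3).cast (by simp) rfl rfl) rfl)
    (by simp [shE]) (by simp [shE, BL])

theorem good {W : Wd} {n : ℕ} (h : RW [] W [] n) (h2 : 2 ≤ cnt W) (hk : ¬NC (post W)) : Good W := by
  obtain ⟨A, c, i, C, rfl⟩ := exists_H (W := W) (by omega)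
  obtain ⟨_, _, h0⟩ := h
  obtain ⟨s, I, O, m, e, h, B⟩ := h0.label rfl
  obtain rfl : s = [] := List.map_eq_nil_iff.1 e
  obtain ⟨t, I1, O1, I2, O2, n1, n2, hA, h', rfl, rfl, rfl⟩ := h.split
  obtain ⟨p, q, s0, t0, I3, O3, I4, O4, n3, n4, c, hC, rfl, rfl, rfl, rfl, rfl⟩ := h'.inv
  cases c with | H x₁ x₂ x₃ x₄ => ?_
  have B' := fun z => B z
  simp only [List.count_append, List.count_cons, List.count_nil, beq_iff_eq] at B'
  have e24 : x₂ ≠ x₄ := fun e => by have := (B' x₂).2; simp [e] at this; omega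
  have mp := fun φ : ℕ → Bool => And.intro (hA.map φ Bool.toNat) (hC.map φ Bool.toNat)
  by_cases c4 : x₁ ≠ x₄ ∧ x₃ ≠ x₄
  · obtain ⟨⟨m1, h1⟩, m2, h3⟩ := mp (· = x₄)
    simpa using goodR (lab (· = x₄) p) (lab (· = x₄) q) ⟨_, _, by simpa [c4.1, e24] using h1⟩
      ⟨_, _, by simpa [c4.2] using h3⟩
  by_cases c2 : x₁ ≠ x₂ ∧ x₃ ≠ x₂
  · obtain ⟨⟨m1, h1⟩, m2, h3⟩ := mp (· = x₂)
    simpa using goodL (lab (· = x₂) p) (lab (· = x₂) q) ⟨_, _, by simpa [c2.1] using h1⟩
      ⟨_, _, by simpa [c2.2, e24.symm] using h3⟩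
  exfalso
  have a2 := B' x₂
  have a4 := B' x₄
  have e13 : x₁ ≠ x₃ := fun e => by
    have := B' x₁
    simp [e] at this
    omega
  have k1 : x₁ = x₂ ∨ x₁ = x₄ := by omega
  have k3 : x₃ = x₂ ∨ x₃ = x₄ := by omega
  have z : ∀ l : List ℕ, l.count x₂ = 0 → l.count x₄ = 0 →
      ∀ x ∈ l.map fun x => decide (x = x₂ ∨ x = x₄), x = false := fun l a b x hx => by
    obtain ⟨y, hy, rfl⟩ := List.mem_map.1 hx
    rw [List.count_eq_zero] at a b
    exact decide_eq_false (by rintro (rfl | rfl) <;> contradiction)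
  obtain ⟨⟨m1, h1⟩, m2, h3⟩ := mp fun x => decide (x = x₂ ∨ x = x₄)
  have a : (I1.count x₂ = 0 ∧ I1.count x₄ = 0 ∧ O1.count x₂ = 0 ∧ O1.count x₄ = 0) ∧
      I4.count x₂ = 0 ∧ I4.count x₄ = 0 ∧ O4.count x₂ = 0 ∧ O4.count x₄ = 0 := by
    split_ifs at a2 a4 <;> omega
  obtain ⟨w1, e1, r1, c1⟩ := h1.colour (z _ a.1.1 a.1.2.1) (z _ a.1.2.2.1 a.1.2.2.2)
  obtain ⟨w3, e3, r3, c3⟩ := h3.colour (z _ a.2.1 a.2.2.1) (z _ a.2.2.2.1 a.2.2.2.2)
  simp only [lab_append, lab_cons, lab_nil, List.map_append, List.map_cons, List.map_nil, k1, k3,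
    true_or, or_true, decide_true] at r1 r3 c1 c3
  refine hk ⟨w1 ++ w3, by rw [List.map_append, e1, e3, post_append]; rfl, r1.append r3, fun c => ?_⟩
  rw [has_append, Bool.or_eq_true]
  cases c
  · by_cases hA : cnt A = 0
    · rcases c3 (by rw [cnt_append, cnt_H] at h2; omega) with h | h
      · exact .inl ((r1.has h).resolve_left (by simp))
      · exact .inr h
    · exact .inl ((c1 hA).resolve_left (by simp))
  · exact .inl ((r1.has (by simp)).resolve_left (by simp))

theorem post_eq {W : Wd} (h : cnt W = 0) : (pre W).map Gen.erase = post W := by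
  induction W with
  | nil => rfl
  | cons e W ih =>
    change List.map _ (pre1 e ++ pre W) = post1 e ++ post W
    rcases e with ⟨_ | _ | _ | _, i⟩ <;> simp [cnt, isH] at h ih <;>
      rw [List.map_append, ih h] <;> rfl

theorem exec_nil {W : Wd} (h : cnt W = 0) (p q : List (Gen Unit)) : exec p q W = [] := by
  induction W generalizing p with
  | nil => rfl
  | cons e W ih =>
    rcases e with ⟨_ | _ | _ | _, i⟩ <;> simp [cnt, isH] at h ih <;> exact ih h _

theorem Rel.count {n : ℕ} {s t : List Bool} {u v : Wd} (h : Rel n s t u v) : cnt u = cnt v + n :=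
  h.choose_spec.choose_spec.c

theorem Rel.nc {n : ℕ} {u v : Wd} (h : Rel n [] [] u v) (hv : NC (post v)) : NC (post u) :=
  (h.choose_spec.choose_spec.b.eqv rfl).nc hv

theorem RM.ends {f : κ → ℕ} {s t : List (Bool × κ)} {w : Wd} {I O : List κ} {n : ℕ}
    (h : RM f s w t I O n) (hc : cnt w = 0) : I = [] ∧ O = [] := by
  induction h with
  | nil s => exact ⟨rfl, rfl⟩
  | cons p q c _ ih => cases c <;> simp [cnt, isH] at hc ih ⊢ <;> exact ih hc

/-- Reverse the flagged strands. -/
def xr (s : BB) : List Bool := s.map fun a => xor a.1 a.2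

theorem RM.flip {f : Bool → ℕ} {s t : BB} {w : Wd} {I O : List Bool} {n : ℕ}
    (h : RM f s w t I O n) (hc : cnt w = 0) :
    ∃ y : List (Gen Bool), y.map Gen.erase = post w ∧ Run not (xr s) y (xr t) := by
  induction h with
  | nil s => exact ⟨[], rfl, .nil _⟩
  | @cons p q s0 t0 t k w I O I' O' n n' c _ ih =>
    have hc' : cnt [(k, p.length)] + cnt w = 0 := (cnt_append [_] w).symm.trans hc
    obtain ⟨y, e, h⟩ := ih (by omega)
    have key : ∀ g : Gen Bool, Cor not (xr s0) g (xr t0) →
        [(g.put p.length).erase] = post1 (k, p.length) → ∃ y : List (Gen Bool),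
          y.map Gen.erase = post ((k, p.length) :: w) ∧ Run not (xr (p ++ s0 ++ q)) y (xr t) :=
      fun g cg eg => ⟨g.put p.length :: y, by
        rw [List.map_cons, e]; exact congrArg (· ++ post w) eg, by
        simpa [xr] using cg.run (xr p) (xr q) (by simpa [xr] using h)⟩
    cases c with
    | L b x => exact key (.L 0 (xor b x)) (by cases b <;> cases x <;> exact .L _) rfl
    | R b x => exact key (.R 0) (by cases b <;> cases x <;> exact .R _) rfl
    | X a b => exact key _ (.X _ _) rfl
    | H => simp [cnt, isH] at hc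

theorem orient1 {A C : Wd} {c : Bool} {i n : ℕ} (h : RW [] (A ++ (.H c, i) :: C) [] n)
    (hA : cnt A = 0) (hC : cnt C = 0) : ∃ y : List (Gen Bool),
      y.map Gen.erase = post (A ++ (.H c, i) :: C) ∧ Run not [] y [] := by
  obtain ⟨_, _, h0⟩ := h
  obtain ⟨s, I, O, m, e, h, B⟩ := h0.label rfl
  obtain rfl : s = [] := List.map_eq_nil_iff.1 e
  obtain ⟨t, I1, O1, I2, O2, n1, n2, h1, h', rfl, rfl, rfl⟩ := h.split
  obtain ⟨p, q, s0, t0, I3, O3, I4, O4, n3, n4, c, h3, rfl, rfl, rfl, rfl, rfl⟩ := h'.inv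
  cases c with | H x₁ x₂ x₃ x₄ => ?_
  obtain ⟨rfl, rfl⟩ := h1.ends hA
  obtain ⟨rfl, rfl⟩ := h3.ends hC
  have a2 := B x₂
  have a4 := B x₄
  simp only [List.count_append, List.count_cons, List.count_nil, beq_iff_eq] at a2 a4
  obtain ⟨_, k1⟩ := h1.map (fun x => decide (x = x₄)) Bool.toNat
  obtain ⟨_, k3⟩ := h3.map (fun x => decide (x = x₄)) Bool.toNat
  obtain ⟨y1, e1, r1⟩ := k1.flip hA
  obtain ⟨y3, e3, r3⟩ := k3.flip hC
  refine ⟨y1 ++ y3, by rw [List.map_append, e1, e3, post_append]; rfl, r1.append ?_⟩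
  have : x₂ ≠ x₄ ∧ (x₁ = x₄ ↔ x₃ ≠ x₄) := by split_ifs at a2 a4 <;> omega
  refine (?_ : xr _ = xr _) ▸ r3
  by_cases e0 : x₃ = x₄ <;> simp [xr, this.1, this.2, e0]

theorem single (m : ℕ) : ∀ {W : Wd} {n : ℕ}, RW [] W [] n → cnt W = m + 1 → ¬NC (post W) →
    ∃ (A C : Wd) (s t : List Bool) (y : List (Gen Bool)), cnt A = 0 ∧ cnt C = 0 ∧
      Run not [] (pre A) (s ++ true :: t) ∧ Rel m [] [] W (A ++ (.H false, s.length) :: C) ∧
      y.map Gen.erase = post (A ++ (.H false, s.length) :: C) ∧ Run not [] y [] := by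
  induction m with
  | zero =>
    intro W n h hc _
    obtain ⟨A, c, i, C, rfl⟩ := exists_H (W := W) (by omega)
    rw [cnt_append, cnt_H] at hc
    obtain ⟨y, hy⟩ := orient1 h (by omega) (by omega)
    have hv := h.val
    obtain ⟨_, _, h⟩ := h
    obtain ⟨t, I1, O1, I2, O2, n1, n2, hA, h, -, -, -⟩ := h.split
    obtain ⟨p, q, s0, t0, I3, O3, I4, O4, n3, n4, c, -, rfl, rfl, -⟩ := h.inv
    cases c
    exact ⟨A, C, dir p, false :: dir q, y, by omega, by omega, by simpa [Val] using hA.val,
      by simpa using Rel.refl hv, by simpa using hy⟩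
  | succ m ih =>
    intro W n h hc hk
    obtain ⟨V, n', a, b⟩ := good h (by omega) hk
    obtain ⟨A, C, s, t, y, e1, e2, e3, e4, e5⟩ :=
      ih a (by have := b.count; omega) fun h => hk (b.nc h)
    exact ⟨A, C, s, t, y, e1, e2, e3, b.trans e4, e5⟩

/-- The coherent handles are attached first. -/
theorem absorb (W : Wd) : ∀ s : List Bool, Val s W [] →
    (∀ A C x y, W = A ++ (.H true, x.length) :: C → ¬Run not s (pre A) (x ++ false :: y)) →
    ∃ V n m, RW (s.map (·, false)) V [] m ∧ Rel n s [] W V ∧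
      ((∃ A C x y, W = A ++ (.H false, x.length) :: C ∧ Run not s (pre A) (x ++ true :: y)) →
        cnt V ≠ 0) := by
  induction W with
  | nil =>
    intro s h _
    obtain rfl := Run.nil_inv h
    exact ⟨[], 0, 0, ⟨_, _, .nil _⟩, .refl h, fun ⟨A, C, x, y, e, _⟩ => by simp at e⟩
  | cons e W ih =>
    intro s h h1
    obtain ⟨r, he, hW⟩ := Val.split (u := [e]) h
    obtain ⟨V, n, m, a, b, c⟩ := ih r hW fun A C x y e1 e2 =>
      h1 (e :: A) C x y (by rw [e1]; rfl) (Val.append he e2)
    have c' : (∃ A C x y, e :: W = A ++ (.H false, x.length) :: C ∧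
        Run not s (pre A) (x ++ true :: y)) → cnt V ≠ 0 ∨
        ∃ x y, e = (.H false, x.length) ∧ s = x ++ true :: y := by
      rintro ⟨_ | ⟨f, A⟩, C, x, y, e1, e2⟩
      · exact .inr ⟨x, y, (List.cons.inj e1).1, e2.nil_inv⟩
      · obtain ⟨rfl, rfl⟩ := List.cons.inj e1
        obtain ⟨r', h2, h3⟩ := Val.split (u := [e]) e2
        obtain rfl := Run.det he h2
        exact .inl (c ⟨A, C, x, y, rfl, h3⟩)
    have b' : Rel n s [] (e :: W) (e :: V) := by simpa using b.ctx he (.nil _)
    have key : ∀ {s0 t0 : BB} {k I O n0} (_ : Core Bool.toNat s0 k t0 I O n0) (p q : List Bool),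
        e = (k, p.length) → s.map (·, false) = p.map (·, false) ++ s0 ++ q.map (·, false) →
        r.map (·, false) = p.map (·, false) ++ t0 ++ q.map (·, false) →
        ∃ m, RW (s.map (·, false)) (e :: V) [] m := fun c0 p q e1 e2 e3 =>
      ⟨_, RW.append (u := [e]) ((RW.one c0 _ _).cast e2.symm (by simp [e1]) e3.symm) a⟩
    rcases letter e with ⟨g, rfl⟩ | ⟨d, i, rfl⟩
    · obtain ⟨p, q, s0, t0, c0, rfl, e1, h2⟩ := (val_emb.1 he).inv
      obtain rfl := h2.nil_inv
      obtain ⟨m', a'⟩ : ∃ m, RW ((p ++ s0 ++ q).map (·, false)) (emb g :: V) [] m := by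
        cases g <;> cases c0
        · exact key (.L _ false) p q (Prod.ext rfl e1) (by simp) (by simp)
        · rename_i d
          exact key (.R d false) p q (Prod.ext rfl e1) (by simp) (by simp)
        · rename_i d d'
          exact key (.X (d, false) (d', false)) p q (Prod.ext rfl e1) (by simp) (by simp)
      refine ⟨_, n, m', a', b', fun h => ?_⟩
      rcases c' h with h | ⟨x, y, h, -⟩
      · have : cnt (emb g :: V) = _ := cnt_append [emb g] V
        omega
      · cases g <;> simp [emb] at h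
    · obtain ⟨x, y, d', rfl, rfl, rfl⟩ := H_inv he
      by_cases e1 : d' = d
      · subst e1
        have k := ((Rel.absorb d').frame x y).ctx (.nil _) hW
        refine ⟨V, _, m, a, Rel.trans (by simpa [shE] using k) b, fun h => (c' h).resolve_right ?_⟩
        rintro ⟨x', y', e1, e2⟩
        obtain ⟨e3, e4⟩ := Prod.mk.inj e1
        obtain rfl := K.H.inj e3
        rw [List.append_assoc] at e2
        have := (List.append_inj e2 e4).2
        simp at this
      · cases d <;> cases d' <;> simp at e1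
        · obtain ⟨m', a'⟩ := key (.H false false false false) x y rfl (by simp) (by simp)
          exact ⟨_, n, m', a', b', fun _ => by rw [cnt_H]; omega⟩
        · exact absurd (by simpa [pre] using Run.nil _) (h1 [] W x (true :: y) rfl)

theorem Mov.lift {n : ℕ} {u v : List (Gen Unit)} {M : List (Step Unit)} (h : Mov id [] [] n u M v)
    (e : n = 0) {y : List (Gen Bool)} (hy : y.map Gen.erase = u) (r : Run not [] y []) :
    ∃ N z, Mov not [] [] 0 y N z ∧ N.map Step.erase = M ∧ z.map Gen.erase = v := by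
  induction h generalizing y with
  | nil u _ => exact ⟨[], y, .nil _ r, rfl, hy⟩
  | iso n p l r' q v M _ m d ih =>
    obtain ⟨w1, b', rfl, e1, rfl⟩ := List.map_eq_append_iff.1 hy
    obtain ⟨a', l', rfl, rfl, rfl⟩ := List.map_eq_append_iff.1 e1
    obtain ⟨t, h1, h3⟩ := r.split
    obtain ⟨s, h1, h2⟩ := h1.split
    obtain ⟨t', g1, -⟩ := d.left.split
    obtain ⟨s', g1, g2⟩ := g1.split
    obtain rfl := Run.det g1 h1.len_erase
    obtain ⟨r'', rfl, k1, k2, -⟩ := lift_move (o := true) m rfl h2 (by simpa using g2.fit)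
    obtain ⟨N, z, k3, rfl, rfl⟩ := ih e (y := a' ++ r'' ++ b') (by simp) ((h1.append k1).append h3)
    exact ⟨_, z, .iso 0 a' l' r'' b' z N r k2 k3, rfl, rfl⟩
  | handle => simp at e

/-- The movie of the word has a form with one incoherent handle between oriented movies. -/
def Fin1 (c : Bool) (W : Wd) : Prop :=
  ∃ (n m : ℕ) (M₁ M₂ : List (Step Bool)) (p q y z : List (Gen Bool)) (s t : List Bool),
    Mov not [] [] n (W.flatMap pre1) M₁ (p ++ [.R s.length, .L s.length c] ++ q) ∧
    Run not [] p (s ++ (!c) :: t) ∧ y.map Gen.erase = (p ++ q).map Gen.erase ∧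
    Mov not [] [] m y M₂ z ∧
    Same [] [] ((W.flatMap pre1).map Gen.erase) (W.flatMap post1) (exec [] [] W)
      (M₁.map Step.erase ++ ⟨p.map Gen.erase, [.R s.length, .L s.length ()], [],
        q.map Gen.erase⟩ :: M₂.map Step.erase) ∧ z.map Gen.erase = W.flatMap post1

theorem knot {W : Wd} (hW : Val [] W [])
    (h1 : ∀ A C s t, W = A ++ (.H true, s.length) :: C → ¬Run not [] (pre A) (s ++ false :: t))
    (h2 : ∃ A C s t, W = A ++ (.H false, s.length) :: C ∧ Run not [] (pre A) (s ++ true :: t))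
    (hk : ¬NC (post W)) : Fin1 false W := by
  obtain ⟨V, n, m, a, b, c⟩ := absorb W [] hW h1
  obtain ⟨k, hc⟩ := Nat.exists_eq_add_one.2 (Nat.pos_of_ne_zero (c h2))
  obtain ⟨A, C, s, t, y, e1, e2, e3, e4, e5, e6⟩ := single k a hc fun h => hk (b.nc h)
  obtain ⟨φ, ψ, -, k1, k2, k3⟩ := b.trans e4
  obtain ⟨N, z, k4, rfl, k5⟩ := k2.lift rfl e5 e6
  refine ⟨k + n, 0, φ, N, pre A, pre C, y, z, s, t, k1.cast rfl rfl (by simp [pre, pre1]), e3, ?_,
    k4, k3.cast rfl ?_, k5⟩
  · rw [e5, List.map_append, post_eq e1, post_eq e2, post_append]; rfl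
  · rw [ex, exec_append, exec_nil e1, post_eq e1]
    simp [exec, exec_nil e2, pre]

end Pool.Agent.Lib.MP_b4fd03_gt
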