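import Pool.Agent.Lib.MP_b4fd03_gt.Check

/-!
Isotopy of tangle words as a symmetric relation: contexts, extra strands, interchange, colourings.
-/

namespace Pool.Agent.Lib.MP_b4fd03_gt

variable {α : Type} {neg : α → α}

/-- A cusp or crossing without further strands. -/
inductive Cor (neg : α → α) : List α → Gen α → List α → Prop
  | L (b : α) : Cor neg [] (.L 0 b) [b, neg b]
  | R (b : α) : Cor neg [b, neg b] (.R 0) []
  | X (a b : α) : Cor neg [a, b] (.X 0) [b, a]

theorem Cor.len {s t : List α} {g : Gen α} (h : Cor neg s g t) :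
    s.length = g.inn ∧ t.length = g.out := by cases h <;> exact ⟨rfl, rfl⟩

theorem Cor.run {s t r : List α} {g : Gen α} {w : List (Gen α)} (h : Cor neg s g t) (p q : List α)
    (hw : Run neg (p ++ t ++ q) w r) : Run neg (p ++ s ++ q) (g.put p.length :: w) r := by
  cases h with
  | L b => simpa [Gen.put] using Run.L p q b w r (by simpa using hw)
  | R b => simpa [Gen.put] using Run.R p q b w r (by simpa using hw)
  | X a b => simpa [Gen.put] using Run.X p q a b w r (by simpa using hw)

theorem Run.inv {s r : List α} {g : Gen α} {w : List (Gen α)} (h : Run neg s (g :: w) r) :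
    ∃ p q s0 t0, Cor neg s0 (g.put 0) t0 ∧ s = p ++ s0 ++ q ∧ g.pos = p.length ∧
      Run neg (p ++ t0 ++ q) w r := by
  cases h with
  | L p q b _ _ h => exact ⟨p, q, _, _, .L b, by simp, rfl, by simpa using h⟩
  | R p q b _ _ h => exact ⟨p, q, _, _, .R b, by simp, rfl, by simpa using h⟩
  | X p q a b _ _ h => exact ⟨p, q, _, _, .X a b, by simp, rfl, by simpa using h⟩

theorem Run.nil_inv {s r : List α} (h : Run neg s [] r) : s = r := by cases h; rfl

@[simp] theorem Gen.put_put (g : Gen α) (i j : ℕ) : (g.put i).put j = g.put j := by cases g <;> rfl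
@[simp] theorem Gen.pos_put (g : Gen α) (i : ℕ) : (g.put i).pos = i := by cases g <;> rfl
@[simp] theorem Gen.inn_put (g : Gen α) (i : ℕ) : (g.put i).inn = g.inn := by cases g <;> rfl
@[simp] theorem Gen.out_put (g : Gen α) (i : ℕ) : (g.put i).out = g.out := by cases g <;> rfl

theorem Run.split {s r : List α} {u v : List (Gen α)} (h : Run neg s (u ++ v) r) :
    ∃ t, Run neg s u t ∧ Run neg t v r := by
  induction u generalizing s with
  | nil => exact ⟨s, .nil s, h⟩
  | cons g u ih =>
    obtain ⟨p, q, s0, t0, c, rfl, e, h'⟩ := Run.inv h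
    obtain ⟨t, h1, h2⟩ := ih h'
    refine ⟨t, ?_, h2⟩
    have := c.run p q h1
    rwa [Gen.put_put, ← e, Gen.put_pos] at this

theorem Run.det {s t t' : List α} {u : List (Gen α)} (h : Run neg s u t) (h' : Run neg s u t') :
    t = t' := by
  induction u generalizing s with
  | nil => exact h.nil_inv.symm.trans h'.nil_inv
  | cons g u ih =>
    obtain ⟨p, q, s0, t0, c, rfl, e, h1⟩ := Run.inv h
    obtain ⟨p', q', s0', t0', c', e1, e', h2⟩ := Run.inv h'
    rw [List.append_assoc, List.append_assoc] at e1
    obtain ⟨rfl, e2⟩ := List.append_inj e1 (e.symm.trans e')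
    obtain ⟨rfl, rfl⟩ := List.append_inj e2 (c.len.1.trans c'.len.1.symm)
    obtain rfl : t0 = t0' := by
      cases g <;> cases c <;> cases c' <;> rfl
    exact ih h1 h2

/-- The column below `n` further strands. -/
def sh (n : ℕ) (g : Gen α) : Gen α := g.put (n + g.pos)

theorem sh_zero (g : Gen α) : sh 0 g = g := by rw [sh, Nat.zero_add, Gen.put_pos]

theorem Run.frame {s t : List α} {w : List (Gen α)} (h : Run neg s w t) (x y : List α) :
    Run neg (x ++ s ++ y) (w.map (sh x.length)) (x ++ t ++ y) := by
  induction h with
  | nil s => exact .nil _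
  | L p q b w t _ ih =>
    simpa [sh, Gen.put, Gen.pos] using Run.L (x ++ p) (q ++ y) b _ _ (by simpa using ih)
  | R p q b w t _ ih =>
    simpa [sh, Gen.put, Gen.pos] using Run.R (x ++ p) (q ++ y) b _ _ (by simpa using ih)
  | X p q a b w t _ ih =>
    simpa [sh, Gen.put, Gen.pos] using Run.X (x ++ p) (q ++ y) a b _ _ (by simpa using ih)

theorem Run.up {s t : List α} {w : List (Gen α)} (h : Run neg s w t) (y : List α) :
    Run neg (s ++ y) w (t ++ y) := by
  simpa [funext (sh_zero (α := α))] using h.frame [] y

theorem Run.dn {s t : List α} {w : List (Gen α)} (h : Run neg s w t) (x : List α) :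
    Run neg (x ++ s) (w.map (sh x.length)) (x ++ t) := by
  simpa using h.frame x []

theorem Reid.sh {l r : List (Gen α)} (h : Reid l r) (n : ℕ) :
    Reid (l.map (sh n)) (r.map (sh n)) := by
  cases h with
  | comm g h i k =>
    simpa [MP_b4fd03_gt.sh, Nat.add_assoc] using Reid.comm g h (n + i) k
  | one i b => exact .one (n + i) b
  | one' i b => exact .one' (n + i) b
  | twoL i b => exact .twoL (n + i) b
  | twoL' i b => exact .twoL' (n + i) b
  | twoR i => exact .twoR (n + i)
  | twoR' i => exact .twoR' (n + i)
  | three i => exact .three (n + i)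

/-- Isotopy of tangle words with the ends `s` and `t`. -/
inductive Eqv (neg : α → α) (s t : List α) : List (Gen α) → List (Gen α) → Prop
  | refl (u : List (Gen α)) : Run neg s u t → Eqv neg s t u u
  | move (u a b l r : List (Gen α)) : Eqv neg s t u (a ++ l ++ b) → Reid l r ∨ Reid r l →
      Run neg s (a ++ r ++ b) t → Eqv neg s t u (a ++ r ++ b)

namespace Eqv

variable {s t : List α} {u v x : List (Gen α)}

theorem left (h : Eqv neg s t u v) : Run neg s u t := by
  induction h with
  | refl h => exact h
  | move a b l r _ _ _ ih => exact ih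

theorem right (h : Eqv neg s t u v) : Run neg s v t := by
  cases h with
  | refl h => exact h
  | move a b l r _ _ h => exact h

theorem trans (h : Eqv neg s t u v) (h' : Eqv neg s t v x) : Eqv neg s t u x := by
  induction h' with
  | refl _ => exact h
  | move a b l r _ m hr ih => exact .move _ a b l r ih m hr

theorem symm (h : Eqv neg s t u v) : Eqv neg s t v u := by
  induction h with
  | refl h => exact .refl _ h
  | move a b l r e m hr ih =>
    exact (Eqv.move _ a b r l (.refl _ hr) m.symm e.right).trans ih

theorem ctx {s0 t0 : List α} {p q : List (Gen α)} (h : Eqv neg s t u v) (hp : Run neg s0 p s)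
    (hq : Run neg t q t0) : Eqv neg s0 t0 (p ++ u ++ q) (p ++ v ++ q) := by
  induction h with
  | refl h => exact .refl _ ((hp.append h).append hq)
  | move a b l r _ m hr ih =>
    have := Eqv.move _ (p ++ a) (b ++ q) l r (by simpa using ih) m
      (by simpa using (hp.append hr).append hq)
    simpa using this

theorem frame (h : Eqv neg s t u v) (x y : List α) :
    Eqv neg (x ++ s ++ y) (x ++ t ++ y) (u.map (sh x.length)) (v.map (sh x.length)) := by
  induction h with
  | refl h => exact .refl _ (h.frame x y)
  | move a b l r _ m hr ih =>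
    have := Eqv.move _ (a.map (sh x.length)) (b.map (sh x.length)) _ _ (by simpa using ih)
      (m.imp (·.sh x.length) (·.sh x.length)) (by simpa using hr.frame x y)
    simpa using this

theorem cob {n : ℕ} {w : List (Gen α)} (h : Eqv neg [] [] u v) (c : Cob neg n w u) :
    Cob neg n w v := by
  induction h with
  | refl _ => exact c
  | move a b l r _ m hr ih => exact .move n w a b l r ih m hr

theorem of_chk [DecidableEq α] (ms : List (ℕ × ℕ × List (Gen α)))
    (h : chk neg s t u ms v = true) : Eqv neg s t u v := by
  induction ms generalizing u with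
  | nil =>
    simp only [chk, Bool.and_eq_true, decide_eq_true_eq] at h
    rw [← eq_of_eqw h.2]
    exact .refl _ (.of_run h.1)
  | cons m ms ih =>
    simp only [chk, Bool.and_eq_true, decide_eq_true_eq] at h
    have h2 := ih h.2
    have e : u.take m.1 ++ (u.drop m.1).take m.2.1 ++ (u.drop m.1).drop m.2.1 = u := by
      rw [List.append_assoc, List.take_append_drop, List.take_append_drop]
    have h1 := Eqv.move (neg := neg) (s := s) (t := t) u (u.take m.1) ((u.drop m.1).drop m.2.1) _ _
      (e.symm ▸ .refl _ (Run.of_run h.1.1)) (reid_of_ok h.1.2) h2.left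
    exact h1.trans h2

theorem inter1 {s' t' : List α} {g : Gen α} (hg : Run neg s [g] t) (hv : Run neg s' v t') :
    Eqv neg (s ++ s') (t ++ t') (g :: v.map (sh t.length)) (v.map (sh s.length) ++ [g]) := by
  induction v generalizing s' with
  | nil =>
    obtain rfl := hv.nil_inv
    exact .refl _ (hg.up _)
  | cons h v ih =>
    obtain ⟨r, h1, h2⟩ := Run.split (u := [h]) hv
    have a := (ih h2).ctx (h1.dn s) (.nil _)
    refine Eqv.trans ?_ (by simpa using a)
    obtain ⟨p, q, s0, t0, c, e1, e, h3⟩ := Run.inv hg
    have e2 := h3.nil_inv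
    have l1 := c.len.1
    have l2 := c.len.2
    rw [Gen.inn_put] at l1
    rw [Gen.out_put] at l2
    have m := Reid.comm g h g.pos (q.length + h.pos)
    rw [Gen.put_pos, show g.pos + g.out + (q.length + h.pos) = t.length + h.pos by
      simp [← e2, e, l2]; omega, show g.pos + g.inn + (q.length + h.pos) = s.length + h.pos by
      simp [e1, e, l1]; omega] at m
    have b := Eqv.move (neg := neg) (s := s ++ s') (t := t ++ t') _ [] (v.map (sh t.length)) _ _
      (.refl _ (by simpa [sh] using (hg.up s').append (hv.dn t))) (.inl m)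
      (by simpa [sh] using a.left)
    simpa [sh] using b

/-- Two tangles, one above the other, commute. -/
theorem inter {s' t' : List α} (hu : Run neg s u t) (hv : Run neg s' v t') :
    Eqv neg (s ++ s') (t ++ t') (u ++ v.map (sh t.length)) (v.map (sh s.length) ++ u) := by
  induction u generalizing s with
  | nil =>
    obtain rfl := hu.nil_inv
    simpa using Eqv.refl _ (hv.dn s)
  | cons g u ih =>
    obtain ⟨r, h1, h2⟩ := Run.split (u := [g]) hu
    have a := (ih h2).ctx (h1.up s') (.nil _)
    have b := (inter1 h1 hv).ctx (.nil _) (h2.up t')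
    simpa using Eqv.trans (by simpa using a) (by simpa using b)

end Eqv

end Pool.Agent.Lib.MP_b4fd03_gt
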