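import Pool.Agent.Lib.MP_b4fd03_gt.Base

/-!
Words with handle letters and the relation between the movies of two such words.
-/

namespace Pool.Agent.Lib.MP_b4fd03_gt

abbrev Wd := List (K × ℕ)

def isH : K × ℕ → Bool
  | (.H _, _) => true
  | _ => false

def pre (w : Wd) : List (Gen Bool) := w.flatMap pre1
def post (w : Wd) : List (Gen Unit) := w.flatMap post1
def cnt (w : Wd) : ℕ := w.countP isH
def shE (n : ℕ) (w : Wd) : Wd := w.map fun e => (e.1, n + e.2)
def epre (w : Wd) : List (Gen Unit) := (pre w).map Gen.erase
def ex (w : Wd) : List (Step Unit) := exec [] [] w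

theorem pre_append (u v : Wd) : pre (u ++ v) = pre u ++ pre v := List.flatMap_append
theorem post_append (u v : Wd) : post (u ++ v) = post u ++ post v := List.flatMap_append
theorem cnt_append (u v : Wd) : cnt (u ++ v) = cnt u + cnt v := List.countP_append
theorem epre_append (u v : Wd) : epre (u ++ v) = epre u ++ epre v := by
  rw [epre, pre_append, List.map_append]; rfl

theorem pre_sh (n : ℕ) (w : Wd) : pre (shE n w) = (pre w).map (sh n) := by
  induction w with
  | nil => rfl
  | cons e w ih =>
    change pre1 _ ++ pre (shE n w) = List.map _ (pre1 e ++ pre w)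
    rw [ih, List.map_append]
    rcases e with ⟨_ | _ | _ | _, i⟩ <;> rfl

theorem post_sh (n : ℕ) (w : Wd) : post (shE n w) = (post w).map (sh n) := by
  induction w with
  | nil => rfl
  | cons e w ih =>
    change post1 _ ++ post (shE n w) = List.map _ (post1 e ++ post w)
    rw [ih, List.map_append]
    rcases e with ⟨_ | _ | _ | _, i⟩ <;> rfl

theorem cnt_sh (n : ℕ) (w : Wd) : cnt (shE n w) = cnt w := by
  simp only [cnt, shE, List.countP_map]
  congr with ⟨_ | _ | _ | _, i⟩ <;> rfl

theorem map_erase_sh (n : ℕ) (w : List (Gen Bool)) :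
    (w.map (sh n)).map Gen.erase = (w.map Gen.erase).map (sh n) := by
  rw [List.map_map, List.map_map]
  exact List.map_congr_left fun g _ => erase_sh n g

theorem epre_sh (n : ℕ) (w : Wd) : epre (shE n w) = (epre w).map (sh n) := by
  rw [epre, pre_sh, map_erase_sh]; rfl

theorem exec_lc (a p q : List (Gen Unit)) (w : Wd) :
    exec (a ++ p) q w = (exec p q w).map (Step.lc a) := by
  induction w generalizing p with
  | nil => rfl
  | cons e w ih => rcases e with ⟨_ | _ | _ | _, i⟩ <;> simp [exec, ← ih, Step.lc]

theorem exec_rc (a p q : List (Gen Unit)) (w : Wd) :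
    exec p (q ++ a) w = (exec p q w).map (Step.rc a) := by
  induction w generalizing p with
  | nil => rfl
  | cons e w ih => rcases e with ⟨_ | _ | _ | _, i⟩ <;> simp [exec, ← ih, Step.rc]

theorem exec_append (p q : List (Gen Unit)) (u v : Wd) :
    exec p q (u ++ v) = exec p (epre v ++ q) u ++ exec (p ++ post u) q v := by
  induction u generalizing p with
  | nil => simp [exec, post]
  | cons e w ih =>
    rcases e with ⟨_ | _ | _ | _, i⟩ <;> simp [exec, ih, post, post1, epre, pre]

theorem ex_append (u v : Wd) :
    ex (u ++ v) = (ex u).map (Step.rc (epre v)) ++ (ex v).map (Step.lc (post u)) := by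
  rw [ex, ex, ex, exec_append, ← exec_rc, ← exec_lc]
  simp

theorem exec_sh (n : ℕ) (p q : List (Gen Unit)) (w : Wd) :
    exec (p.map (sh n)) (q.map (sh n)) (shE n w) = (exec p q w).map (Step.sh n) := by
  induction w generalizing p with
  | nil => rfl
  | cons e w ih =>
    have := epre_sh n w
    simp only [epre, pre, shE] at this
    simp only [shE] at ih ⊢
    rcases e with ⟨_ | _ | _ | _, i⟩ <;>
      simp [exec, ← ih, Step.sh, post1, sh_L, sh_R, sh_X, -List.map_map, this]

theorem ex_sh (n : ℕ) (w : Wd) : ex (shE n w) = (ex w).map (Step.sh n) := exec_sh n [] [] w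

/-- The word is an oriented tangle before the handles. -/
def Val (s : List Bool) (w : Wd) (t : List Bool) : Prop := Run not s (pre w) t

theorem H_inv {α : Type} {neg : α → α} {s r : List α} {i : ℕ} {b : α}
    (h : Run neg s [.R i, .L i b] r) : ∃ x y c, s = x ++ [c, neg c] ++ y ∧
      r = x ++ [b, neg b] ++ y ∧ x.length = i := by
  obtain ⟨p, q, s0, t0, c, rfl, e, h1⟩ := h.inv
  obtain ⟨p', q', s1, t1, c', e1, e', h2⟩ := h1.inv
  cases c
  cases c'
  obtain ⟨rfl, rfl⟩ := List.append_inj (by simpa using e1) (e.symm.trans e')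
  exact ⟨p, q, _, rfl, h2.nil_inv.symm, e.symm⟩

section

variable {s t r a b : List Bool} {u v w : Wd} {n m : ℕ}

theorem Val.append (h : Val a u b) (h' : Val b v r) : Val a (u ++ v) r := by
  rw [Val, pre_append]; exact Run.append h h'

theorem Val.split (h : Val a (u ++ v) r) : ∃ b, Val a u b ∧ Val b v r := by
  rw [Val, pre_append] at h; exact h.split

theorem Val.frame (h : Val s w t) (x y : List Bool) :
    Val (x ++ s ++ y) (shE x.length w) (x ++ t ++ y) := by
  rw [Val, pre_sh]; exact Run.frame h x y

theorem Val.mov (h : Val s w t) : Mov id (un s) (un t) (cnt w) (epre w) (ex w) (post w) := by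
  induction w generalizing s with
  | nil => exact .nil _ (Run.len_erase h)
  | cons e w ih =>
    obtain ⟨r, h1, h2⟩ := Val.split (u := [e]) h
    have k : Mov id (un s) (un r) (cnt [e]) (epre [e]) (ex [e]) (post [e]) := by
      have h3 := Run.len_erase h1
      rcases e with ⟨_ | _ | _ | c, i⟩
      case H =>
        obtain ⟨x, y, d, rfl, rfl, rfl⟩ := H_inv h1
        have := Mov.handle (neg := id) 0 [] [] [] (un x) (() :: un y) () []
          (by rw [un_length]; exact h3) (by simpa [un] using Run.nil _)
          (.nil _ (by simpa [un] using Run.nil _))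
        rw [un_length] at this
        exact this
      all_goals exact .nil _ h3
    have := (k.rc (ih h2).left).append ((ih h2).lc k.right)
    rwa [← epre_append, ← ex_append, ← post_append, Nat.add_comm, ← cnt_append] at this

theorem Val.post (h : Val s w t) : Run id (un s) (post w) (un t) := h.mov.right

/-- The movie of `u` is an oriented movie with `n` handles, the movie of `v` and an isotopy. -/
structure LR (n : ℕ) (s t : List Bool) (u v : Wd) (φ : List (Step Bool)) (ψ : List (Step Unit)) :
    Prop where
  c : cnt u = cnt v + n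
  a : Mov not s t n (pre u) φ (pre v)
  b : Mov id (un s) (un t) 0 (post v) ψ (post u)
  e : Same (un s) (un t) (epre u) (post u) (ex u) (φ.map Step.erase ++ ex v ++ ψ)

variable {φ φ' : List (Step Bool)} {ψ ψ' : List (Step Unit)}

theorem LR.refl (h : Val s u t) : LR 0 s t u u [] [] :=
  ⟨rfl, .nil _ h, .nil _ h.post, by simpa using Same.refl _ h.mov⟩

theorem LR.trans (h : LR n s t u v φ ψ) (h' : LR m s t v w φ' ψ') :
    LR (m + n) s t u w (φ ++ φ') (ψ' ++ ψ) :=
  ⟨by rw [h.c, h'.c, Nat.add_assoc], h.a.append h'.a, h'.b.append h.b,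
    h.e.trans (((h'.e.pre h.a.erase).post h.b).cast rfl (by simp))⟩

theorem erase_rev (φ : List (Step Bool)) :
    ((φ.map Step.rev).reverse).map Step.erase = ((φ.map Step.erase).map Step.rev).reverse := by
  simp only [List.map_reverse, List.map_map]; rfl

theorem rev_rev {α : Type} (φ : List (Step α)) :
    (((φ.map Step.rev).reverse).map Step.rev).reverse = φ := by
  simp only [List.map_reverse, List.map_map, List.reverse_reverse]
  exact List.map_id φ

theorem LR.symm (h : LR 0 s t u v φ ψ) :
    LR 0 s t v u (φ.map Step.rev).reverse (ψ.map Step.rev).reverse := by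
  refine ⟨h.c.symm, h.a.rev rfl, h.b.rev rfl, ?_⟩
  have a := h.a.erase.rev rfl
  have v0 := Val.mov h.a.right
  have c1 := (Same.cancel a rfl).post v0
  have c2 := (Same.cancel h.b rfl).pre v0
  rw [rev_rev] at c1
  rw [erase_rev]
  exact (((((h.e.pre a).post (h.b.rev rfl)).trans ((c1.post (h.b.append (h.b.rev rfl))).cast
    (by simp) rfl)).trans c2).cast rfl (by simp)).symm

theorem LR.lc (h : LR n s t u v φ ψ) (hA : Val a w s) :
    LR n a t (w ++ u) (w ++ v) (φ.map (Step.lc (pre w))) (ψ.map (Step.lc (post w))) := by
  refine ⟨by rw [cnt_append, cnt_append, h.c, Nat.add_assoc], ?_, ?_, ?_⟩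
  · rw [pre_append, pre_append]; exact h.a.lc hA
  · rw [post_append, post_append]; exact h.b.lc hA.post
  · rw [epre_append, post_append, ex_append, ex_append]
    have h1 := (h.e.lc hA.post).pre (hA.mov.rc h.a.erase.left)
    have h2 := (Same.inter hA.mov h.a.erase).post
      (((Val.mov h.a.right).append h.b).lc hA.post)
    refine (h1.trans (h2.cast (by simp [epre]) rfl)).cast rfl ?_
    simp [Function.comp_def, Step.lc, Step.erase, epre]

theorem LR.rc (h : LR n s t u v φ ψ) (hC : Val t w b) :
    LR n s b (u ++ w) (v ++ w) (φ.map (Step.rc (pre w))) (ψ.map (Step.rc (post w))) := by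
  refine ⟨by rw [cnt_append, cnt_append, h.c]; omega, ?_, ?_, ?_⟩
  · rw [pre_append, pre_append]; exact h.a.rc hC
  · rw [post_append, post_append]; exact h.b.rc hC.post
  · rw [epre_append, post_append, ex_append, ex_append]
    have h1 := (h.e.rc hC.mov.left).post (hC.mov.lc h.b.right)
    have h2 := (Same.inter h.b hC.mov).pre
      ((h.a.erase.append (Val.mov h.a.right)).rc hC.mov.left)
    refine (h1.trans (h2.cast (by simp) rfl)).cast rfl ?_
    simp [Function.comp_def, Step.rc, Step.erase, epre]

theorem LR.frame (h : LR n s t u v φ ψ) (x y : List Bool) :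
    LR n (x ++ s ++ y) (x ++ t ++ y) (shE x.length u) (shE x.length v)
      (φ.map (Step.sh x.length)) (ψ.map (Step.sh x.length)) := by
  refine ⟨by rw [cnt_sh, cnt_sh, h.c], ?_, ?_, ?_⟩
  · rw [pre_sh, pre_sh]; exact h.a.frame x y
  · rw [post_sh, post_sh, un_append, un_append, un_append, un_append, ← un_length x]
    exact h.b.frame _ _
  · rw [epre_sh, post_sh, ex_sh, ex_sh, un_append, un_append, un_append, un_append, ← un_length x]
    refine (h.e.frame _ _).cast rfl ?_
    simp [Function.comp_def, Step.sh, Step.erase, erase_sh]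

end

end Pool.Agent.Lib.MP_b4fd03_gt
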