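import Pool.Agent.Lib.MP_b4fd03_gt.Link

/-!
Reversal of the orientation, and the theorem for both sides.
-/

namespace Pool.Agent.Lib.MP_b4fd03_gt

def Gen.flip : Gen Bool → Gen Bool
  | .L i b => .L i (!b)
  | .R i => .R i
  | .X i => .X i

def Step.flip (σ : Step Bool) : Step Bool :=
  ⟨σ.p.map Gen.flip, σ.l.map Gen.flip, σ.r.map Gen.flip, σ.q.map Gen.flip⟩

def flipE : K × ℕ → K × ℕ
  | (.L b, i) => (.L (!b), i)
  | (.R, i) => (.R, i)
  | (.X, i) => (.X, i)
  | (.H b, i) => (.H (!b), i)

variable {s t : List Bool} {u v : List (Gen Bool)} {W : Wd} {c : Bool}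

theorem erase_flip (u : List (Gen Bool)) : (u.map Gen.flip).map Gen.erase = u.map Gen.erase := by
  rw [List.map_map]
  exact List.map_congr_left fun g _ => by cases g <;> rfl

theorem step_flip (M : List (Step Bool)) : (M.map Step.flip).map Step.erase = M.map Step.erase := by
  rw [List.map_map]
  exact List.map_congr_left fun σ _ => by simp only [Function.comp, Step.flip, Step.erase, erase_flip]

theorem flipE_flipE (W : Wd) : (W.map flipE).map flipE = W := by
  rw [List.map_map]
  exact (List.map_congr_left fun ⟨k, i⟩ _ => by cases k <;> simp [flipE]).trans (List.map_id W)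

theorem Run.flip (h : Run not s u t) : Run not (s.map not) (u.map Gen.flip) (t.map not) := by
  induction h with
  | nil s => exact .nil _
  | L p q b w t _ ih =>
    simpa [Gen.flip] using Run.L (neg := not) (p.map not) (q.map not) (!b) _ _ (by simpa using ih)
  | R p q b w t _ ih =>
    simpa [Gen.flip] using Run.R (neg := not) (p.map not) (q.map not) (!b) _ _ (by simpa using ih)
  | X p q a b w t _ ih =>
    simpa [Gen.flip] using
      Run.X (neg := not) (p.map not) (q.map not) (!a) (!b) _ _ (by simpa using ih)

theorem Reid.flip (h : Reid u v) : Reid (u.map Gen.flip) (v.map Gen.flip) := by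
  cases h with
  | comm g h i k =>
    have := Reid.comm g.flip h.flip i k
    cases g <;> cases h <;> exact this
  | one i b => exact .one i _
  | one' i b => exact .one' i _
  | twoL i b => exact .twoL i _
  | twoL' i b => exact .twoL' i _
  | twoR i => exact .twoR i
  | twoR' i => exact .twoR' i
  | three i => exact .three i

theorem Mov.flip {n : ℕ} {M : List (Step Bool)} (h : Mov not s t n u M v) :
    Mov not (s.map not) (t.map not) n (u.map Gen.flip) (M.map Step.flip) (v.map Gen.flip) := by
  induction h with
  | nil u h => exact .nil _ h.flip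
  | iso n p l r q v M c b _ ih =>
    exact (Mov.iso _ _ _ _ _ _ _ (by simpa using c.flip)
      (b.imp (·.flip) (·.flip)) (ih.cast (by simp) rfl rfl)).cast (by simp) rfl rfl
  | handle n p q v z z' b M c d _ ih =>
    exact (Mov.handle _ (p.map Gen.flip) (q.map Gen.flip) _ (z.map not) (z'.map not) (!b) _
      (by simpa [Gen.flip] using c.flip) (by simpa using d.flip)
      (ih.cast (by simp) rfl rfl)).cast (by simp [Gen.flip]) (by simp [Step.flip, Gen.flip]) rfl

theorem pre_flip (W : Wd) : (W.map flipE).flatMap pre1 = (W.flatMap pre1).map Gen.flip := by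
  induction W with
  | nil => rfl
  | cons e W ih =>
    rw [List.map_cons, List.flatMap_cons, List.flatMap_cons, ih, List.map_append]
    rcases e with ⟨_ | _ | _ | _, i⟩ <;> rfl

theorem post_flip (W : Wd) : (W.map flipE).flatMap post1 = W.flatMap post1 := by
  induction W with
  | nil => rfl
  | cons e W ih =>
    rw [List.map_cons, List.flatMap_cons, List.flatMap_cons, ih]
    rcases e with ⟨_ | _ | _ | _, i⟩ <;> rfl

theorem exec_flip (p q : List (Gen Unit)) (W : Wd) : exec p q (W.map flipE) = exec p q W := by
  induction W generalizing p with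
  | nil => rfl
  | cons e W ih =>
    rcases e with ⟨_ | _ | _ | _, i⟩ <;> simp only [List.map_cons, flipE, exec, ih, post1]
    rw [pre_flip, erase_flip]

theorem Inc.flip (h : Inc c [] W) : Inc (!c) [] (W.map flipE) := by
  obtain ⟨A, C, x, y, rfl, k⟩ := h
  exact ⟨A.map flipE, C.map flipE, x.map not, y.map not, by simp [flipE],
    by simpa [pre, pre_flip] using k.flip⟩

theorem Fin1.flip (h : Fin1 c W) : Fin1 (!c) (W.map flipE) := by
  obtain ⟨n, m, M₁, M₂, p, q, y, z, s, t, k1, k2, k3, k4, k5, k6⟩ := h
  refine ⟨n, m, M₁.map Step.flip, M₂, p.map Gen.flip, q.map Gen.flip, y, z, s.map not, t.map not,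
    k1.flip.cast (pre_flip W).symm rfl (by simp [Gen.flip]), by simpa using k2.flip,
    by rw [k3, ← List.map_append, erase_flip], k4, ?_, by rw [k6, post_flip]⟩
  rwa [pre_flip, post_flip, exec_flip, step_flip, erase_flip, erase_flip, erase_flip,
    List.length_map]

theorem one_sided (hW : Val [] W []) (h1 : ¬Inc (!c) [] W) (h2 : Inc c [] W)
    (hk : ∀ (n : ℕ) (u v : List (Gen Bool)) (M : List (Step Bool)), Mov id [] [] n u M v →
      M.map Step.erase = exec [] [] W → ∃ b, ∀ i, Gen.L i b ∉ u) : Fin1 c W := by
  have key : ∀ V : Wd, exec [] [] V = exec [] [] W → ∀ w, CR [] V w [] → ∃ c, has c w = false := by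
    intro V e w h
    obtain ⟨n, u, M, k1, k2, -, k3⟩ := h.movie
    obtain ⟨b, hb⟩ := hk n u w M k1 (k2.trans e)
    refine ⟨b, Bool.eq_false_iff.2 fun h => ?_⟩
    obtain ⟨i, hi⟩ := has_iff.1 (k3 b h)
    exact hb i hi
  cases c
  · exact links _ W rfl hW h1 h2 (key W rfl)
  · have := (links _ (W.map flipE) rfl (by simpa [Val, pre, pre_flip] using Run.flip hW)
      (fun h => h1 (flipE_flipE W ▸ h.flip)) h2.flip (key _ (exec_flip _ _ W))).flip
    rwa [flipE_flipE] at this

end Pool.Agent.Lib.MP_b4fd03_gt
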