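import Mathlib

/-!
Front diagrams of Legendrian links as words, Legendrian Reidemeister moves and one-handles.
-/

namespace Pool.Agent.Lib.MP_b4fd03_gt

/-- A column of a front diagram. Strands are numbered from the top, starting with `0`.
`L i b`: a left cusp creating the strands `i, i + 1`, the upper one with the label `b`;
`R i`: a right cusp joining the strands `i, i + 1`; `X i`: a crossing of the strands `i, i + 1`. -/
inductive Gen (α : Type) : Type
  | L (i : ℕ) (b : α) : Gen α
  | R (i : ℕ) : Gen α
  | X (i : ℕ) : Gen α

variable {α : Type}

/-- The same column at the height `i`. -/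
def Gen.put : Gen α → ℕ → Gen α
  | .L _ b, i => .L i b
  | .R _, i => .R i
  | .X _, i => .X i

/-- The number of strands entering the cusp or crossing from the left. -/
def Gen.inn : Gen α → ℕ
  | .L _ _ => 0
  | .R _ => 2
  | .X _ => 2

/-- The number of strands leaving the cusp or crossing to the right. -/
def Gen.out : Gen α → ℕ
  | .L _ _ => 2
  | .R _ => 0
  | .X _ => 2

/-- Forget the direction. -/
def Gen.erase : Gen Bool → Gen Unit
  | .L i _ => .L i ()
  | .R i => .R i
  | .X i => .X i

/-- `Run neg s w t`: the word `w` is a tangle diagram whose left and right ends carry the labels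
`s` and `t`; the two branches of a cusp carry labels `b` and `neg b`. For `Bool` and `not` the
labels are directions (oriented fronts), for `Unit` and `id` there is no condition. -/
inductive Run (neg : α → α) : List α → List (Gen α) → List α → Prop
  | nil (s : List α) : Run neg s [] s
  | L (p q : List α) (b : α) (w : List (Gen α)) (t : List α) :
      Run neg (p ++ b :: neg b :: q) w t → Run neg (p ++ q) (.L p.length b :: w) t
  | R (p q : List α) (b : α) (w : List (Gen α)) (t : List α) :
      Run neg (p ++ q) w t → Run neg (p ++ b :: neg b :: q) (.R p.length :: w) t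
  | X (p q : List α) (a b : α) (w : List (Gen α)) (t : List α) :
      Run neg (p ++ b :: a :: q) w t → Run neg (p ++ a :: b :: q) (.X p.length :: w) t

/-- Planar isotopy and the Legendrian Reidemeister moves. -/
inductive Reid : List (Gen α) → List (Gen α) → Prop
  | comm (g h : Gen α) (i k : ℕ) :
      Reid [g.put i, h.put (i + g.out + k)] [h.put (i + g.inn + k), g.put i]
  | one (i : ℕ) (b : α) : Reid [.L (i + 1) b, .X i, .R (i + 1)] []
  | one' (i : ℕ) (b : α) : Reid [.L i b, .X (i + 1), .R i] []
  | twoL (i : ℕ) (b : α) : Reid [.L i b, .X (i + 1), .X i] [.L (i + 1) b]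
  | twoL' (i : ℕ) (b : α) : Reid [.L (i + 1) b, .X i, .X (i + 1)] [.L i b]
  | twoR (i : ℕ) : Reid [.X i, .X (i + 1), .R i] [.R (i + 1)]
  | twoR' (i : ℕ) : Reid [.X (i + 1), .X i, .R (i + 1)] [.R i]
  | three (i : ℕ) : Reid [.X i, .X (i + 1), .X i] [.X (i + 1), .X i, .X (i + 1)]

/-- `Cob neg n u v`: the front `v` arises from the front `u` by moves of `Reid` in both directions
and exactly `n` one-handles (a right cusp and the left cusp facing it, with the same label on the
upper branches, become two strands); all words on the way are fronts with labels. -/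
inductive Cob (neg : α → α) : ℕ → List (Gen α) → List (Gen α) → Prop
  | refl (u : List (Gen α)) : Run neg [] u [] → Cob neg 0 u u
  | move (n : ℕ) (u p q l r : List (Gen α)) : Cob neg n u (p ++ l ++ q) → Reid l r ∨ Reid r l →
      Run neg [] (p ++ r ++ q) [] → Cob neg n u (p ++ r ++ q)
  | handle (n : ℕ) (u p q : List (Gen α)) (s t : List α) (b : α) :
      Cob neg n u (p ++ [.R s.length, .L s.length b] ++ q) → Run neg [] p (s ++ b :: t) →
      Run neg [] (p ++ q) [] → Cob neg (n + 1) u (p ++ q)

/-- Blocks of crossings, alternately of the two middle strands (`true`) and of the two upper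
strands (`false`), and the right cusps. -/
def blocks : Bool → List ℕ → List (Gen Unit)
  | true, [] => [.R 1, .R 0]
  | false, [] => [.R 0, .R 0]
  | true, n :: ns => List.replicate n (.X 1) ++ blocks false ns
  | false, n :: ns => List.replicate n (.X 0) ++ blocks true ns

/-- The four-plat front of the Legendrian two-bridge link with the given block lengths. -/
def twoBridge (ns : List ℕ) : List (Gen Unit) := .L 0 () :: .L 2 () :: blocks true ns

end Pool.Agent.Lib.MP_b4fd03_gt
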