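import Pool.Agent.Lib.MP_b4fd03_gt.Ends

/-!
From knots to links: handles that split a component are attached last.
-/

namespace Pool.Agent.Lib.MP_b4fd03_gt

theorem len_eq {n1 n2 : Bool → Bool} {s t s' t' : List Bool} {u u' : List (Gen Bool)}
    (h : Run n1 s u t) (h' : Run n2 s' u' t') (e : u.map Gen.erase = u'.map Gen.erase)
    (l : s.length = s'.length) : t.length = t'.length := by
  have a := h.len_erase
  have b := h'.len_erase
  rw [List.map_const', l, ← List.map_const', e] at a
  simpa using congrArg List.length (a.det b)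

theorem flux {G : Type} [AddCommGroup G] {neg : Bool → Bool} (f : Bool → Bool → G)
    (hf : ∀ b c, f b c + f (neg b) c = 0) {s t s' t' : List Bool} {u u' : List (Gen Bool)}
    (h : Run neg s u t) (h' : Run id s' u' t') (e : u.map Gen.erase = u'.map Gen.erase)
    (l : s.length = s'.length) : (List.zipWith f s s').sum = (List.zipWith f t t').sum := by
  induction u generalizing s s' u' with
  | nil =>
    obtain rfl : u' = [] := List.map_eq_nil_iff.1 e.symm
    rw [h.nil_inv, h'.nil_inv]
  | cons g u ih =>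
    obtain ⟨g', u', rfl, e1, e2⟩ := List.map_eq_cons_iff.1 e.symm
    obtain ⟨p, q, s0, t0, c, rfl, k, h1⟩ := h.inv
    obtain ⟨p', q', s0', t0', c', rfl, k', h2⟩ := h'.inv
    have lp : p.length = p'.length := by
      cases g <;> cases g' <;> simp_all [Gen.erase, Gen.pos]
    have := fun a => ih h1 h2 e2.symm a
    cases g <;> cases g' <;> simp only [Gen.erase, reduceCtorEq] at e1 <;> cases c <;> cases c' <;>
      rw [← this (by simp at l ⊢; omega)] <;>
      simp only [List.append_assoc, List.zipWith_append lp, List.cons_append, List.nil_append,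
        List.zipWith_cons_cons, List.sum_append, List.sum_cons, id] <;>
      first | abel1 | rw [← add_assoc (f _ _), hf, zero_add]

theorem site_eq {G : Type} [AddCommGroup G] {neg : Bool → Bool} (g : Bool → G)
    (hg : ∀ b, g b + g (neg b) = 0) (inj : Function.Injective g) {u1 u2 w1 w2 : List (Gen Bool)}
    {x y s t : List Bool} {d e a a' : Bool} (r1 : Run neg [] u1 (x ++ [d, neg d] ++ y))
    (r2 : Run neg (x ++ [e, neg e] ++ y) u2 []) (k1 : Run id [] w1 (s ++ a :: a' :: t))
    (k2 : Run id (s ++ a :: a' :: t) w2 []) (e1 : u1.map Gen.erase = w1.map Gen.erase)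
    (e2 : u2.map Gen.erase = w2.map Gen.erase) (l : x.length = s.length) (ha : a' ≠ a) : d = e := by
  have hf : ∀ b c, (if c = a then g b else 0) + (if c = a then g (neg b) else 0) = 0 := by
    intro b c; split_ifs <;> simp [hg]
  have h1 := flux (fun b c => if c = a then g b else 0) hf r1 k1 e1 rfl
  have h2 := flux (fun b c => if c = a then g b else 0) hf r2 k2 e2
    (by simpa using len_eq r1 k1 e1 rfl)
  simp only [List.append_assoc, List.zipWith_append l] at h1 h2
  apply inj
  simpa [ha] using h1.symm.trans h2.symm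

/-- A colouring of the front after the handles with one colour at each handle. -/
inductive CR : List Bool → Wd → List (Gen Bool) → List Bool → Prop
  | nil (s : List Bool) : CR s [] [] s
  | ord {s r t : List Bool} {W : Wd} {w : List (Gen Bool)} (g g' : Gen Bool) :
      g'.erase = g.erase → Run id s [g'] r → CR r W w t → CR s (emb g :: W) (g' :: w) t
  | H {t : List Bool} {W : Wd} {w : List (Gen Bool)} (x y : List Bool) (a b : Bool) :
      CR (x ++ [a, a] ++ y) W w t → CR (x ++ [a, a] ++ y) ((.H b, x.length) :: W) w t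

variable {s t r : List Bool} {W u v : Wd} {w w' : List (Gen Bool)} {c : Bool}

theorem post_cons (g : Gen Bool) (W : Wd) : post (emb g :: W) = g.erase :: post W := by
  cases g <;> rfl

theorem CR.run (h : CR s W w t) : Run id s w t ∧ w.map Gen.erase = post W := by
  induction h with
  | nil s => exact ⟨.nil s, rfl⟩
  | ord g g' e h _ ih => exact ⟨h.append ih.1, by rw [List.map_cons, e, ih.2, post_cons]⟩
  | H x y a b _ ih => exact ih

theorem CR.append (h : CR s u w r) (h' : CR r v w' t) : CR s (u ++ v) (w ++ w') t := by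
  induction h with
  | nil s => exact h'
  | ord g g' e h _ ih => exact .ord g g' e h (ih h')
  | H x y a b _ ih => exact .H x y a b (ih h')

theorem CR.split (h : CR s (u ++ v) w t) :
    ∃ r w1 w2, w = w1 ++ w2 ∧ CR s u w1 r ∧ CR r v w2 t := by
  induction u generalizing s w with
  | nil => exact ⟨s, [], w, rfl, .nil s, h⟩
  | cons e u ih =>
    cases h with
    | ord g g' e h h' =>
      obtain ⟨r, w1, w2, rfl, a, b⟩ := ih h'
      exact ⟨r, g' :: w1, w2, rfl, .ord g g' e h a, b⟩
    | H x y a b h' =>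
      obtain ⟨r, w1, w2, rfl, a, b⟩ := ih h'
      exact ⟨r, w1, w2, rfl, .H x y _ _ a, b⟩

theorem CR.of {s0 t0 : List Bool} (hW : Val s0 W t0) (h : Run id s w t)
    (e : w.map Gen.erase = post W) (l : s0.length = s.length) : CR s W w t ∨
      ∃ A b C w1 w2 x a a' y, W = A ++ (.H b, List.length x) :: C ∧ w1.map Gen.erase = post A ∧
        w2.map Gen.erase = post C ∧ Run id s w1 (x ++ a :: a' :: y) ∧
        Run id (x ++ a :: a' :: y) w2 t ∧ a' ≠ a := by
  induction W generalizing s s0 w with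
  | nil =>
    obtain rfl : w = [] := List.map_eq_nil_iff.1 e
    exact .inl (h.nil_inv ▸ .nil s)
  | cons f W ih =>
    obtain ⟨r0, h1, h2⟩ := Val.split (u := [f]) hW
    rcases letter f with ⟨g, rfl⟩ | ⟨b, i, rfl⟩
    · rw [post_cons] at e
      obtain ⟨g', w, rfl, e1, e2⟩ := List.map_eq_cons_iff.1 e
      obtain ⟨r, h3, h4⟩ := Run.split (u := [g']) h
      refine (ih h2 h4 e2 (len_eq (val_emb.1 h1) h3 (by simp [e1]) l)).imp (.ord g g' e1 h3) ?_
      rintro ⟨A, b, C, w1, w2, x, a, a', y, rfl, k1, k2, k3, k4⟩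
      exact ⟨emb g :: A, b, C, g' :: w1, w2, x, a, a', y, rfl,
        by rw [List.map_cons, e1, k1, post_cons], k2, h3.append k3, k4⟩
    · obtain ⟨x0, y0, d, rfl, rfl, rfl⟩ := H_inv h1
      obtain ⟨x, z, y, rfl, lx, lz⟩ := cut3 s (i := x0.length) (k := 2) (by simp at l; omega)
      obtain ⟨a, a', rfl⟩ := List.length_eq_two.1 lz
      rw [← lx]
      by_cases ha : a' = a
      · subst ha
        refine (ih h2 h e (by simpa using l)).imp (.H x y a' b) ?_
        rintro ⟨A, b', C, w1, w2, x', a, a', y, rfl, k⟩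
        exact ⟨(.H b, x.length) :: A, b', C, w1, w2, x', a, a', y, rfl, k⟩
      · exact .inr ⟨[], b, W, [], w, x, a, a', y, rfl, rfl, e, by simpa using Run.nil _,
          by simpa using h, ha⟩

theorem CR.movie (h : CR s W w t) : ∃ n u M, Mov id s t n u M w ∧ M.map Step.erase = ex W ∧
    u.map Gen.erase = epre W ∧ ∀ c, has c w = true → has c u = true := by
  induction h with
  | nil s => exact ⟨0, [], [], .nil _ (.nil s), rfl, rfl, fun _ h => h⟩
  | @ord s r t W w g g' e h _ ih =>
    obtain ⟨n, u, M, k1, k2, k3, k4⟩ := ih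
    refine ⟨n, g' :: u, _, k1.lc h, ?_, ?_, fun c => ?_⟩
    · rw [show ex (emb g :: W) = _ from ex_append ([g].map emb) W, ex_emb, post_emb, ← k2]
      simp [Function.comp_def, Step.lc, Step.erase, e]
    · rw [show epre (emb g :: W) = _ from epre_append ([g].map emb) W, epre, pre_emb, ← k3]
      simp [e]
    · rw [← List.singleton_append, has_append, ← List.singleton_append (l := u), has_append,
        Bool.or_eq_true, Bool.or_eq_true]
      exact Or.imp_right (k4 c)
  | @H t W w x y a b _ ih =>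
    obtain ⟨n, u, M, k1, k2, k3, k4⟩ := ih
    refine ⟨n + 1, _, _, Mov.handle n [] u w x (a :: y) a M ?_ (by simpa using Run.nil _) k1, ?_,
      congrArg (Gen.R _ :: Gen.L _ () :: ·) k3, fun c h => ?_⟩
    · simpa using Run.R (neg := id) x y a _ _ (.L x y a _ _ (by simpa using k1.left))
    · simp [ex, exec, Step.erase, Gen.erase, k3, epre, pre] at k2 ⊢
      exact k2
    · rw [has_append, k4 c h, Bool.or_true]

/-- The word has an incoherent handle with the label `c`. -/
def Inc (c : Bool) (s : List Bool) (W : Wd) : Prop :=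
  ∃ A C x y, W = A ++ (.H c, List.length x) :: C ∧ Run not s (pre A) (x ++ (!c) :: y)

theorem inc_append (h : Val s u r) : Inc c s (u ++ v) ↔ Inc c s u ∨ Inc c r v := by
  constructor
  · rintro ⟨A, C, x, y, e, k⟩
    rcases List.append_eq_append_iff.1 e with ⟨a, rfl, rfl⟩ | ⟨_ | ⟨g, a⟩, rfl, e1⟩
    · obtain ⟨r', h1, h2⟩ := Val.split k
      obtain rfl := Run.det h h1
      exact .inr ⟨a, C, x, y, rfl, h2⟩
    · rw [List.append_nil] at h
      obtain rfl := Run.det h k
      exact .inr ⟨[], C, x, y, e1.symm, .nil _⟩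
    · obtain ⟨rfl, rfl⟩ := List.cons.inj e1
      exact .inl ⟨A, a, x, y, rfl, k⟩
  · rintro (⟨A, C, x, y, rfl, k⟩ | ⟨A, C, x, y, rfl, k⟩)
    · exact ⟨A, C ++ v, x, y, by simp, k⟩
    · exact ⟨u ++ A, C, x, y, by simp, h.append k⟩

theorem inc_one {e : K × ℕ} (h : Inc c s [e]) : ∃ x y, e = (.H c, List.length x) ∧
    s = x ++ (!c) :: y := by
  obtain ⟨_ | ⟨g, A⟩, C, x, y, e1, k⟩ := h
  · exact ⟨x, y, (List.cons.inj e1).1, k.nil_inv⟩
  · simp at e1

theorem coh (h : Val s W t) (h1 : ∀ c, ¬Inc c s W) :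
    ∃ z : List (Gen Bool), z.map Gen.erase = post W ∧ Run not s z t := by
  induction W generalizing s with
  | nil => exact ⟨[], rfl, h⟩
  | cons e W ih =>
    obtain ⟨r, k1, k2⟩ := Val.split (u := [e]) h
    obtain ⟨z, e1, k3⟩ := ih k2 fun c a => h1 c ((inc_append k1).2 (.inr a))
    rcases letter e with ⟨g, rfl⟩ | ⟨b, i, rfl⟩
    · exact ⟨g :: z, by rw [List.map_cons, e1, post_cons], (val_emb.1 k1).append k3⟩
    · obtain ⟨x, y, d, rfl, rfl, rfl⟩ := H_inv k1
      obtain rfl | rfl : d = b ∨ d = !b := by cases d <;> cases b <;> simp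
      · exact ⟨z, e1, k3⟩
      · exact absurd ⟨[], W, x, (!!b) :: y, rfl, by simpa [pre] using Run.nil _⟩ (h1 b)

theorem mid {A C : Wd} {b : Bool} {i : ℕ}
    (e : w.map Gen.erase = post (A ++ ([(.R, i), (.L b, i)] ++ C))) : ∃ w1 w2 d,
      w = w1 ++ [.R i, .L i d] ++ w2 ∧ w1.map Gen.erase = post A ∧ w2.map Gen.erase = post C := by
  rw [post_append] at e
  obtain ⟨w1, w, rfl, e1, e2⟩ := List.map_eq_append_iff.1 e
  obtain ⟨g, w, rfl, e3, e4⟩ := List.map_eq_cons_iff.1 e2
  obtain ⟨g', w, rfl, e5, e6⟩ := List.map_eq_cons_iff.1 e4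
  cases g <;> cases g' <;> simp [Gen.erase] at e3 e5
  subst e3 e5
  exact ⟨w1, w, _, (List.append_assoc _ [_, _] _).symm, e1, e6⟩

theorem expand {A C : Wd} {b : Bool} {i : ℕ} (vA : Val [] A s) (vH : Val s [(.H b, i)] t)
    (vC : Val t C []) : Same [] [] (epre (A ++ (.H b, i) :: C)) (post (A ++ (.H b, i) :: C))
      (ex (A ++ (.H b, i) :: C)) (ex (A ++ ([(.R, i), (.L b, i)] ++ C)) ++
        [⟨post A, [.R i, .L i ()], [], post C⟩]) := by
  have g6 := ((Same.inter vH.mov vC.mov).lc vA.post).pre (vA.mov.rc (vH.append vC).mov.left)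
  rw [← post_append, ← epre_append, ← epre_append A, ← post_append] at g6
  refine g6.cast ?_ ?_
  · rw [show ex (A ++ (.H b, i) :: C) = _ from ex_append A ([_] ++ C), ex_append]
  · rw [ex_append, ex_append]
    simp [ex, exec, epre, pre, pre1, post, post1, Step.lc, Step.rc, Gen.erase]

theorem links (k : ℕ) : ∀ W : Wd, cnt W = k → Val [] W [] → ¬Inc true [] W → Inc false [] W →
    (∀ w, CR [] W w [] → ∃ c, has c w = false) → Fin1 false W := by
  induction k using Nat.strong_induction_on with | _ k ih => ?_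
  intro W hk hW h1 h2 h3
  by_cases hN : NC (post W)
  swap
  · exact knot hW (fun A C s t e a => h1 ⟨A, C, s, t, e, a⟩) h2 hN
  obtain ⟨w, e, hw, hc⟩ := hN
  obtain h | ⟨A, b, C, w1, w2, x, a, a', y, rfl, e1, e2, r1, r2, ha⟩ := CR.of hW hw e rfl
  · obtain ⟨c, h⟩ := h3 w h
    simp [hc c] at h
  obtain ⟨s, vA, v1⟩ := hW.split
  obtain ⟨t, vH, vC⟩ := Val.split (u := [_]) v1
  have vM : Val s [(.R, x.length), (.L b, x.length)] t := vH
  have sZ := @site_eq ℤ _ not (fun b => if b then 1 else -1) (by decide) (by decide)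
  have i1 : ∀ c, Inc c [] (A ++ ([(.R, x.length), (.L b, x.length)] ++ C)) ↔
      Inc c [] A ∨ Inc c t C := fun c => by
    obtain ⟨r, k1, k2⟩ := Val.split (u := [_]) (v := [_]) vM
    rw [inc_append vA, inc_append vM, show Inc c s [_, _] ↔ _ from inc_append (v := [_]) k1]
    refine or_congr_right (or_iff_right ?_)
    rintro (h | h) <;> obtain ⟨_, _, h, -⟩ := inc_one h <;> simp at h
  have i2 : ∀ c, Inc c [] (A ++ (.H b, x.length) :: C) ↔
      Inc c [] A ∨ Inc c s [(.H b, x.length)] ∨ Inc c t C := fun c => by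
    rw [inc_append vA, show Inc c s (_ :: C) ↔ _ from inc_append vH]
  obtain ⟨x0, y0, d, rfl, rfl, lx⟩ := H_inv vH
  have v2 := vA.append (vM.append vC)
  obtain ⟨n, m, M₁, M₂, p, q, y1, z, s, t, k1, k2, k3, k4, k5, k6⟩ := ih _ (by
      rw [← hk, cnt_append, cnt_append, cnt_append, cnt_H]
      exact Nat.add_lt_add_left (by simp [cnt, isH]) _) _ rfl v2
    (by rw [i1]; rw [i2] at h1; tauto)
    (by
      rw [i1]
      by_contra h
      rw [i2] at h1 h2
      obtain ⟨z1, f1, g1⟩ := coh vA (by rintro (_ | _) <;> tauto)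
      obtain ⟨z2, f2, g2⟩ := coh vC (by rintro (_ | _) <;> tauto)
      obtain rfl := sZ g1 g2 r1 r2 (f1.trans e1.symm) (f2.trans e2.symm) lx ha
      obtain ⟨x1, y1, f3, f4⟩ := inc_one (e := (.H d, x.length)) (c := false) (by tauto)
      obtain ⟨f5, f6⟩ := Prod.mk.inj f3
      obtain rfl := K.H.inj f5
      rw [List.append_assoc] at f4
      have := (List.append_inj f4 (lx.trans f6)).2
      simp at this)
    (by
      intro w h
      obtain ⟨r, u1, u, rfl, c1, h⟩ := h.split
      obtain ⟨r', u0, u2, rfl, c0, c2⟩ := h.split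
      obtain ⟨v1, v2, d', f0, f1, f2⟩ := mid (A := []) (C := []) c0.run.2
      obtain rfl := List.map_eq_nil_iff.1 f1
      obtain rfl := List.map_eq_nil_iff.1 f2
      subst f0
      obtain ⟨x1, y1, d'', rfl, rfl, l1⟩ := H_inv c0.run.1
      obtain rfl := @site_eq (ZMod 2) _ id (fun b => if b then 1 else 0) (by decide) (by decide)
        _ _ _ _ _ _ _ _ _ _ _ _ c1.run.1 c2.run.1 r1 r2 (c1.run.2.trans e1.symm)
        (c2.run.2.trans e2.symm) l1 ha
      obtain ⟨c, h⟩ := h3 _ (c1.append (l1 ▸ CR.H x1 y1 d'' b c2))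
      have := (c1.run.1.has (c := d'') (by simp)).resolve_left (by simp)
      refine ⟨c, ?_⟩
      simp only [has_append, Bool.or_eq_false_iff] at h ⊢
      refine ⟨h.1, ?_, h.2⟩
      have : d'' ≠ c := by rintro rfl; simp [this] at h
      simp [has, this])
  obtain ⟨z1, z2, d', rfl, f1, f2⟩ := mid k6
  obtain ⟨t1, g0, g3⟩ := k4.right.split
  obtain ⟨s1, g1, g2⟩ := g0.split
  obtain ⟨x1, y2, d'', rfl, rfl, l1⟩ := H_inv g2
  obtain rfl := sZ g1 g3 r1 r2 (f1.trans e1.symm) (f2.trans e2.symm) l1 ha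
  have g4 := Mov.handle 0 z1 z2 _ x1 ((!d'') :: y2) d'' [] (l1 ▸ k4.right) (by simpa using g1)
    (.nil _ (g1.append g3))
  rw [l1] at g4
  have ep : (A ++ ([(K.R, x.length), (.L b, x.length)] ++ C)).flatMap pre1 =
      (A ++ (.H b, x.length) :: C).flatMap pre1 := by simp [pre1]
  have eq : (z1 ++ z2).map Gen.erase = (A ++ (.H b, x.length) :: C).flatMap post1 := by
    rw [List.map_append, f1, f2]; exact (post_append A ((.H b, x.length) :: C)).symm
  rw [ep] at k1 k5
  refine ⟨n, _, M₁, _, p, q, y1, _, s, t, k1, k2, k3, k4.append g4,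
    (expand vA vH vC).trans ((k5.post (g4.erase.cast k6 rfl eq)).cast ?_ ?_), eq⟩
  · simp [ex, Step.erase, Gen.erase, f1, f2]
  · simp

end Pool.Agent.Lib.MP_b4fd03_gt
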