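import Pool.Agent.Lib.MP_b4fd03_gt.Ext

/-!
Elementary moves of words with handle letters, interchange, checkers.
-/

namespace Pool.Agent.Lib.MP_b4fd03_gt

/-- An ordinary column as a letter. -/
def emb : Gen Bool → K × ℕ
  | .L i b => (.L b, i)
  | .R i => (.R, i)
  | .X i => (.X, i)

theorem pre_emb (x : List (Gen Bool)) : pre (x.map emb) = x := by
  induction x with
  | nil => rfl
  | cons g x ih => cases g <;> exact congrArg (_ :: ·) ih

theorem post_emb (x : List (Gen Bool)) : post (x.map emb) = x.map Gen.erase := by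
  induction x with
  | nil => rfl
  | cons g x ih => cases g <;> exact congrArg (_ :: ·) ih

theorem cnt_emb (x : List (Gen Bool)) : cnt (x.map emb) = 0 := by
  induction x with
  | nil => rfl
  | cons g x ih => cases g <;> exact ih

theorem exec_emb (p q : List (Gen Unit)) (x : List (Gen Bool)) : exec p q (x.map emb) = [] := by
  induction x generalizing p with
  | nil => rfl
  | cons g x ih => cases g <;> exact ih _

theorem ex_emb (x : List (Gen Bool)) : ex (x.map emb) = [] := exec_emb _ _ x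

variable {s t r a b : List Bool} {u v w : Wd} {n m : ℕ}

theorem LR.reid {l r : List (Gen Bool)} (h : Reid l r ∨ Reid r l) (hl : Run not s l t)
    (hr : Run not s r t) : LR 0 s t (l.map emb) (r.map emb) [⟨[], l, r, []⟩]
      [⟨[], r.map Gen.erase, l.map Gen.erase, []⟩] := by
  have a : Mov not s t 0 l [⟨[], l, r, []⟩] r :=
    (Mov.iso 0 [] l r [] r [] (by simpa using hl) h (by simpa using Mov.nil r hr)).cast
      (by simp) rfl rfl
  refine ⟨by rw [cnt_emb, cnt_emb], by rwa [pre_emb, pre_emb], ?_, ?_⟩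
  · rw [post_emb, post_emb]
    exact a.erase.rev rfl
  · rw [epre, pre_emb, post_emb, ex_emb, ex_emb]
    exact (Same.cancel a.erase rfl).symm

theorem LR.site {x z : List (Gen Bool)} {i j : ℕ} {c : Bool}
    (h1 : Reid (x ++ [.R i]) (.R j :: z) ∨ Reid (.R j :: z) (x ++ [.R i]))
    (h2 : Reid (z ++ [.L i c]) (.L j c :: x) ∨ Reid (.L j c :: x) (z ++ [.L i c]))
    (r1 : Run not s (x ++ [.R i, .L i c]) t) (r2 : Run not s (.R j :: z ++ [.L i c]) t)
    (r3 : Run not s (.R j :: .L j c :: x) t) :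
    LR 0 s t (x.map emb ++ [(.H c, i)]) ((.H c, j) :: x.map emb)
      [⟨[], x ++ [.R i], .R j :: z, [.L i c]⟩, ⟨[.R j], z ++ [.L i c], .L j c :: x, []⟩] [] := by
  have e1 : pre (x.map emb ++ [(.H c, i)]) = x ++ [.R i, .L i c] := by
    rw [pre_append, pre_emb]; rfl
  have e2 : pre ((.H c, j) :: x.map emb) = .R j :: .L j c :: x :=
    congrArg (Gen.R j :: Gen.L j c :: ·) (pre_emb x)
  have e3 : post (x.map emb ++ [(.H c, i)]) = post ((.H c, j) :: x.map emb) := by
    rw [post_append]; exact List.append_nil _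
  have vu : Val s (x.map emb ++ [(.H c, i)]) t := by rwa [Val, e1]
  have vv : Val s ((.H c, j) :: x.map emb) t := by rwa [Val, e2]
  have a : Mov not s t 0 (pre (x.map emb ++ [(.H c, i)])) [⟨[], x ++ [.R i], .R j :: z, [.L i c]⟩,
      ⟨[.R j], z ++ [.L i c], .L j c :: x, []⟩] (pre ((.H c, j) :: x.map emb)) :=
    (Mov.iso 0 [] _ _ [.L i c] _ _ (by simpa using r1) h1
      ((Mov.iso 0 [.R j] _ _ [] _ _ (by simpa using r2) h2
        (.nil _ (by simpa using r3))).cast (by simp) rfl rfl)).cast (by simp [e1]) rfl (by simp [e2])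
  refine ⟨by rw [cnt_append, Nat.add_comm]; exact (cnt_append [_] _).symm, a,
    by rw [e3]; exact .nil _ vv.post, ?_⟩
  refine .one vu.mov (e3 ▸ (a.erase.append vv.mov).cast rfl (List.append_nil _).symm rfl) (.inr ?_)
  have := Hom.site [] [] (x.map Gen.erase) (z.map Gen.erase) i j
    (by simpa [Gen.erase] using h1.imp (·.erase) (·.erase))
    (by simpa [Gen.erase] using h2.imp (·.erase) (·.erase))
  rw [ex_append, ex_emb, post_emb]
  simpa [ex, exec, exec_emb, Step.erase, Step.lc, Gen.erase, show List.flatMap pre1 (x.map emb) = x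
    from pre_emb x] using this

theorem Reid.comm' {α : Type} {neg : α → α} {s t : List α} {g : Gen α} (hg : Run neg s [g] t)
    (h : Gen α) : Reid [g, MP_b4fd03_gt.sh t.length h] [MP_b4fd03_gt.sh s.length h, g] := by
  obtain ⟨p, q, s0, t0, c, e1, e, h3⟩ := Run.inv hg
  have e2 := h3.nil_inv
  have l1 := c.len.1
  have l2 := c.len.2
  rw [Gen.inn_put] at l1
  rw [Gen.out_put] at l2
  have m := Reid.comm g h g.pos (q.length + h.pos)
  rwa [Gen.put_pos, show g.pos + g.out + (q.length + h.pos) = t.length + h.pos by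
    simp [← e2, e, l2]; omega, show g.pos + g.inn + (q.length + h.pos) = s.length + h.pos by
    simp [e1, e, l1]; omega] at m

theorem LR.up {g : Gen Bool} {c : Bool} {k : ℕ} (hg : Run not s [g] t)
    (h : Val a [(.H c, k)] b) : ∃ φ, LR 0 (s ++ a) (t ++ b) [emb g, (.H c, t.length + k)]
      [(.H c, s.length + k), emb g] φ [] := by
  obtain ⟨a1, h1, h2⟩ := Run.split (u := [.R k]) (v := [.L k c]) h
  exact ⟨_, LR.site (x := [g]) (z := [g]) (.inl (.comm' hg (.R k))) (.inl (.comm' hg (.L k c)))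
    ((hg.up a).append (Run.dn h t)) ((h1.dn s).append ((hg.up a1).append (h2.dn t)))
    ((Run.dn h s).append (hg.up b))⟩

/-- The relation between the movies. -/
def Rel (n : ℕ) (s t : List Bool) (u v : Wd) : Prop := ∃ φ ψ, LR n s t u v φ ψ

theorem Rel.left (h : Rel n s t u v) : Val s u t := h.choose_spec.choose_spec.a.left
theorem Rel.right (h : Rel n s t u v) : Val s v t := h.choose_spec.choose_spec.a.right
theorem Rel.refl (h : Val s u t) : Rel 0 s t u u := ⟨_, _, .refl h⟩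

theorem Rel.trans (h : Rel n s t u v) (h' : Rel m s t v w) : Rel (m + n) s t u w := by
  obtain ⟨_, _, h⟩ := h
  obtain ⟨_, _, h'⟩ := h'
  exact ⟨_, _, h.trans h'⟩

theorem Rel.symm (h : Rel 0 s t u v) : Rel 0 s t v u := by
  obtain ⟨_, _, h⟩ := h
  exact ⟨_, _, h.symm⟩

theorem Rel.ctx {A C : Wd} (h : Rel n s t u v) (hA : Val a A s) (hC : Val t C b) :
    Rel n a b (A ++ u ++ C) (A ++ v ++ C) := by
  obtain ⟨_, _, h⟩ := h
  exact ⟨_, _, (h.lc hA).rc hC⟩

theorem Rel.frame (h : Rel n s t u v) (x y : List Bool) :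
    Rel n (x ++ s ++ y) (x ++ t ++ y) (shE x.length u) (shE x.length v) := by
  obtain ⟨_, _, h⟩ := h
  exact ⟨_, _, h.frame x y⟩

theorem Val.nil (s : List Bool) : Val s [] s := Run.nil s

theorem Val.up (h : Val s w t) (y : List Bool) : Val (s ++ y) w (t ++ y) := Run.up h y

theorem Val.dn (h : Val s w t) (x : List Bool) : Val (x ++ s) (shE x.length w) (x ++ t) := by
  simpa using h.frame x []

theorem H_len {c : Bool} {k : ℕ} (h : Val s [(.H c, k)] t) : s.length = t.length := by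
  obtain ⟨x, y, d, rfl, rfl, -⟩ := H_inv h
  simp

theorem Rel.HH {c d : Bool} {i k : ℕ} (h : Val s [(.H d, i)] t) (h' : Val a [(.H c, k)] b) :
    Rel 0 (s ++ a) (t ++ b) [(.H d, i), (.H c, t.length + k)] [(.H c, s.length + k), (.H d, i)] := by
  obtain ⟨s1, h1, h2⟩ := Run.split (u := [.R i]) (v := [.L i d]) h
  obtain ⟨φ, k1⟩ := LR.up h2 h'
  obtain ⟨φ', k2⟩ := LR.up h1 h'
  have k3 := (k1.lc (w := [(.R, i)]) (h1.up a)).trans (k2.rc (w := [(.L d, i)]) (h2.up b))
  have vu : Val (s ++ a) [(.H d, i), (.H c, t.length + k)] (t ++ b) := k3.a.left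
  have vv : Val (s ++ a) [(.H c, s.length + k), (.H d, i)] (t ++ b) := k3.a.right
  have e : un (s ++ a) = un (s ++ b) := by
    simp [un, List.map_const', H_len h']
  have h0 : Mov id (un (s ++ a)) (un (t ++ b)) 1 [.R i, .L i ()] [⟨[], [.R i, .L i ()], [], []⟩] [] :=
    e ▸ (h.up b).mov
  refine ⟨_, [], rfl, k3.a, .nil _ vv.post, ?_⟩
  exact (Same.one vu.mov ((Val.mov k3.a.left).append h0)
    (.inl (.far [] _ [] [] _ [] []))).trans ((k3.e.post h0).cast rfl (by
      simp [ex, exec, emb, pre1, Gen.erase]))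

theorem letter (e : K × ℕ) : (∃ g, e = emb g) ∨ ∃ c k, e = (.H c, k) := by
  rcases e with ⟨c | _ | _ | c, i⟩
  exacts [.inl ⟨.L i c, rfl⟩, .inl ⟨.R i, rfl⟩, .inl ⟨.X i, rfl⟩, .inr ⟨c, i, rfl⟩]

theorem emb_sh (n : ℕ) (g : Gen Bool) : ((emb g).1, n + (emb g).2) = emb (sh n g) := by
  cases g <;> rfl

theorem val_emb {g : Gen Bool} : Val s [emb g] t ↔ Run not s [g] t := by
  rw [Val, show [emb g] = [g].map emb from rfl, pre_emb]

theorem Rel.inter2 {e f : K × ℕ} (h : Val s [e] t) (h' : Val a [f] b) :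
    Rel 0 (s ++ a) (t ++ b) [e, (f.1, t.length + f.2)] [(f.1, s.length + f.2), e] := by
  rcases letter e with ⟨g, rfl⟩ | ⟨d, i, rfl⟩ <;> rcases letter f with ⟨g', rfl⟩ | ⟨c, k, rfl⟩
  · rw [val_emb] at h h'
    rw [emb_sh, emb_sh]
    exact ⟨_, _, LR.reid (l := [g, _]) (r := [_, g]) (.inl (.comm' h g'))
      ((h.up a).append (h'.dn t)) ((h'.dn s).append (h.up b))⟩
  · obtain ⟨_, k⟩ := LR.up (val_emb.1 h) h'
    exact ⟨_, _, k⟩
  · rw [val_emb] at h'
    obtain ⟨s1, h1, h2⟩ := Run.split (u := [.R i]) (v := [.L i d]) h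
    rw [emb_sh, emb_sh, ← H_len h]
    have k := Reid.comm' h2 g'
    have k' := (Run.up h a).append (h'.dn t)
    rw [← H_len h] at k k'
    exact Rel.symm ⟨_, _, LR.site (x := [sh s.length g']) (z := [sh s1.length g'])
      (.inr (.comm' h1 g')) (.inr k) ((h'.dn s).append (Run.up h b))
      ((h1.up a).append ((h'.dn s1).append (h2.up b))) k'⟩
  · exact .HH h h'

theorem Rel.inter1 {e : K × ℕ} (h : Val s [e] t) (hv : Val a v b) :
    Rel 0 (s ++ a) (t ++ b) (e :: shE t.length v) (shE s.length v ++ [e]) := by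
  induction v generalizing a with
  | nil =>
    obtain rfl := Run.nil_inv hv
    exact .refl (h.up _)
  | cons f v ih =>
    obtain ⟨r, h1, h2⟩ := Val.split (u := [f]) hv
    have k1 := (Rel.inter2 h h1).ctx (.nil _) (h2.dn t)
    have k2 := (ih h2).ctx (h1.dn s) (.nil _)
    simpa [shE] using Rel.trans (by simpa [shE] using k1) (by simpa [shE] using k2)

theorem Rel.inter (hu : Val s u t) (hv : Val a v b) :
    Rel 0 (s ++ a) (t ++ b) (u ++ shE t.length v) (shE s.length v ++ u) := by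
  induction u generalizing s with
  | nil =>
    obtain rfl := Run.nil_inv hu
    simpa using Rel.refl (hv.dn s)
  | cons e u ih =>
    obtain ⟨r, h1, h2⟩ := Val.split (u := [e]) hu
    have k1 := (ih h2).ctx (h1.up a) (.nil _)
    have k2 := (Rel.inter1 h1 hv).ctx (.nil _) (h2.up b)
    simpa using Rel.trans (by simpa using k1) (by simpa using k2)

/-- A coherent handle is attached first. -/
theorem Rel.absorb (c : Bool) : Rel 1 [c, !c] [c, !c] [(.H c, 0)] [] := by
  have a : Mov not [c, !c] [c, !c] 1 [.R 0, .L 0 c] [⟨[], [.R 0, .L 0 c], [], []⟩] [] :=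
    .handle 0 [] [] [] [] [!c] c [] (.R [] [] c _ _ (.L [] [] c _ _ (.nil _))) (.nil _)
      (.nil _ (.nil _))
  exact ⟨_, [], rfl, a, .nil _ (.nil _), .refl _ a.erase⟩

/-! ### concrete movies -/

section

variable {α : Type} [DecidableEq α]

def okH (neg : α → α) (s : List α) (p : List (Gen α)) : List (Gen α) → List (Gen α) → Bool
  | [.R i, .L j b], [] => decide (i = j) && (run neg s p).any fun y => decide ((y.drop i).head? = some b)
  | _, _ => false

def chkM (neg : α → α) (s t : List α) : ℕ → List (Gen α) → List (Step α) → List (Gen α) → Bool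
  | n, u, [], v => decide (n = 0) && decide (run neg s u = some t) && eqw u v
  | n, u, σ :: M, v => eqw u (σ.p ++ σ.l ++ σ.q) && decide (run neg s u = some t) &&
      if okH neg s σ.p σ.l σ.r then decide (0 < n) && chkM neg s t (n - 1) (σ.p ++ σ.q) M v
      else okMove σ.l σ.r && chkM neg s t n (σ.p ++ σ.r ++ σ.q) M v

theorem Mov.of_chk {neg : α → α} {s t : List α} {u v : List (Gen α)} {M : List (Step α)}
    (h : chkM neg s t n u M v = true) : Mov neg s t n u M v := by
  induction M generalizing u n with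
  | nil =>
    simp only [chkM, Bool.and_eq_true, decide_eq_true_eq] at h
    obtain ⟨⟨rfl, h1⟩, h2⟩ := h
    exact eq_of_eqw h2 ▸ .nil _ (.of_run h1)
  | cons σ M ih =>
    obtain ⟨p, l, r, q⟩ := σ
    simp only [chkM, Bool.and_eq_true, decide_eq_true_eq] at h
    obtain ⟨⟨h1, h2⟩, h3⟩ := h
    obtain rfl := eq_of_eqw h1
    split_ifs at h3 with c
    · simp only [Bool.and_eq_true, decide_eq_true_eq] at h3
      obtain ⟨n, rfl⟩ := Nat.exists_eq_add_one.2 h3.1
      unfold okH at c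
      split at c
      · rename_i i j b
        simp only [Bool.and_eq_true, decide_eq_true_eq, Option.any_eq_true] at c
        obtain ⟨rfl, y, hy, c⟩ := c
        obtain ⟨z, hz⟩ := List.head?_eq_some_iff.1 c
        have := Mov.handle n p q v (y.take i) z b M (by rw [take_len hz]; exact .of_run h2)
          (by rw [← hz, List.take_append_drop]; exact .of_run hy) (ih h3.2)
        rwa [take_len hz] at this
      · simp at c
    · simp only [Bool.and_eq_true] at h3
      exact .iso n p l r q v M (.of_run h2) (reid_of_ok h3.1) (ih h3.2)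

end

theorem Same.nx {s t : List Unit} {u v : List (Gen Unit)} {M N l r : List (Step Unit)}
    (h : Same s t u v M N) (k n : ℕ) (e : Hom l r ∨ Hom r l)
    (e' : N = N.take k ++ l ++ N.drop (k + l.length))
    (c : chkM id s t n u (N.take k ++ r ++ N.drop (k + l.length)) v = true) :
    Same s t u v M (N.take k ++ r ++ N.drop (k + l.length)) :=
  .step n _ l r _ (e' ▸ h) e (.of_chk c)

theorem Rel.turnR : Rel 0 [true, false, true, false] []
    [(.H false, 0), (.X, 1), (.R, 0), (.R, 0)] [(.H false, 2), (.X, 1), (.R, 2), (.R, 0)] := by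
  refine ⟨[⟨[.R 0], [.L 0 false, .X 1, .R 0], [], [.R 0]⟩, ⟨[], [.R 0, .R 0], [.R 2, .R 0], []⟩,
    ⟨[.R 2], [], [.L 2 false, .X 1, .R 2], [.R 0]⟩], [⟨[.X 1], [.R 2, .R 0], [.R 0, .R 0], []⟩],
    rfl, .of_chk (by decide), .of_chk (by decide), .symm ?_⟩
  exact (((Same.refl 1 (.of_chk (by decide))).nx 1 1 (.inr (.turnR [] [] 0)) rfl (by decide)).nx 0 1
    (.inl (.cancel _ _ _ _ (.inl (.one' 0 ())))) rfl (by decide)).nx 1 1
    (.inl (.cancel _ _ _ _ (.inl (.comm (.R 0) (.R 0) 0 0)))) rfl (by decide)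

theorem Rel.turnL : Rel 0 [] [false, true, false, true]
    [(.L false, 0), (.L true, 0), (.X, 1), (.H false, 0)]
    [(.L false, 0), (.L true, 2), (.X, 1), (.H false, 2)] := by
  refine ⟨[⟨[.L 0 false], [.L 0 true, .X 1, .R 0], [], [.L 0 false]⟩,
    ⟨[], [.L 0 false, .L 0 false], [.L 0 false, .L 2 false], []⟩,
    ⟨[.L 0 false], [], [.L 2 true, .X 1, .R 2], [.L 2 false]⟩],
    [⟨[], [.L 0 (), .L 2 ()], [.L 0 (), .L 0 ()], [.X 1]⟩],
    rfl, .of_chk (by decide), .of_chk (by decide), .symm ?_⟩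
  exact (((Same.refl 1 (.of_chk (by decide))).nx 1 1 (.inr (.turnL [] [] 0)) rfl (by decide)).nx 0 1
    (.inl (.cancel _ _ _ _ (.inl (.one' 0 ())))) rfl (by decide)).nx 1 1
    (.inl (.cancel _ _ _ _ (.inr (.comm (.L 0 ()) (.L 0 ()) 0 0)))) rfl (by decide)

theorem Rel.RH : Rel 1 [true, false, true, false] [false, true]
    [(.H false, 0), (.X, 1), (.R, 0), (.H false, 0)] [(.H false, 2), (.X, 1), (.R, 0)] := by
  refine ⟨[⟨[.R 0], [.L 0 false, .X 1, .R 0], [], [.R 0, .L 0 false]⟩,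
    ⟨[], [.R 0, .R 0], [.R 2, .R 0], [.L 0 false]⟩,
    ⟨[.R 2], [.R 0, .L 0 false], [.L 2 false, .R 0], []⟩,
    ⟨[.R 2, .L 2 false, .R 0], [], [.L 0 true, .X 1, .R 0], []⟩,
    ⟨[.R 2, .L 2 false], [.R 0, .L 0 true], [], [.X 1, .R 0]⟩], [],
    rfl, .of_chk (by decide), .of_chk (by decide), .symm ?_⟩
  exact ((((((Same.refl 2 (.of_chk (by decide))).nx 4 2
    (.inr (.far [] [.R 2, .L 2 ()] [] [] [.R 0, .L 0 ()] [] [.X 1, .R 0])) rfl (by decide)).nx 3 2
    (.inr (.far [] [.R 2, .L 2 ()] [] [.R 0] [] [.L 0 (), .X 1, .R 0] [])) rfl (by decide)).nx 1 2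
    (.inl (.site [] [] [.R 0] [.R 0] 0 2 (reid_of_ok (by decide)) (reid_of_ok (by decide)))) rfl
    (by decide)).nx 0 2
    (.inl (.far [.R 0] [.L 0 (), .X 1, .R 0] [] [] [.R 0, .L 0 ()] [] [])) rfl (by decide)).nx 1 2
    (.inl (.cancel _ _ _ _ (.inl (.one' 0 ())))) rfl (by decide)).nx 0 2
    (.inr (.far [] [.R 0, .L 0 ()] [] [.X 1, .R 0] [.R 0, .L 0 ()] [] [])) rfl (by decide)

theorem Rel.LH : Rel 1 [true, false] [false, true, false, true]
    [(.H false, 0), (.L true, 0), (.X, 1), (.H false, 0)] [(.L false, 0), (.X, 1), (.H false, 2)] := by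
  refine ⟨[⟨[.R 0, .L 0 false], [.L 0 true, .X 1, .R 0], [], [.L 0 false]⟩,
    ⟨[.R 0], [.L 0 false, .L 0 false], [.L 0 false, .L 2 false], []⟩,
    ⟨[], [.R 0, .L 0 false], [.L 0 false, .R 2], [.L 2 false]⟩,
    ⟨[], [], [.L 0 false, .X 1, .R 0], [.L 0 false, .R 2, .L 2 false]⟩,
    ⟨[.L 0 false, .X 1], [.R 0, .L 0 false], [], [.R 2, .L 2 false]⟩], [],
    rfl, .of_chk (by decide), .of_chk (by decide), .symm ?_⟩
  exact (((((((Same.refl 2 (.of_chk (by decide))).nx 4 2
    (.inl (.far [.L 0 (), .X 1] [.R 0, .L 0 ()] [] [] [.R 2, .L 2 ()] [] [])) rfl (by decide)).nx 3 2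
    (.inl (.far [] [] [.L 0 (), .X 1, .R 0] [.L 0 ()] [.R 2, .L 2 ()] [] [])) rfl (by decide)).nx 3 2
    (.inr (.site [] [] [.L 0 ()] [.L 0 ()] 2 0 (reid_of_ok (by decide)) (reid_of_ok (by decide))))
    rfl (by decide)).nx 2 2
    (.inl (.cancel _ _ _ _ (.inr (.comm (.L 0 ()) (.R 0) 0 0)))) rfl (by decide)).nx 1 2
    (.inl (.cancel _ _ _ _ (.inr (.comm (.L 0 ()) (.L 0 ()) 0 0)))) rfl (by decide)).nx 0 2
    (.inr (.far [] [.R 0, .L 0 ()] [] [] [.L 0 (), .X 1, .R 0] [] [.L 0 ()])) rfl (by decide)).nx 1 2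
    (.inl (.cancel _ _ _ _ (.inl (.one' 0 ())))) rfl (by decide)

end Pool.Agent.Lib.MP_b4fd03_gt
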