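import Pool.Agent.Lib.MP_b4fd03_gt.Check

/-!
The four-plat fronts: the slide of a cusp through all blocks and the oriented filling of the
pinched link.
-/

namespace Pool.Agent.Lib.MP_b4fd03_gt

variable {α : Type} {neg : α → α}

/-- Letters on four strands. -/
def P4 : Option ℕ → List (Gen α)
  | none => [.X 1]
  | some t => [.X 1] ++ List.replicate (t + 1) (.X 0) ++ [.X 0, .X 1]

/-- Letters on six strands. -/
def P6 : Option ℕ → List (Gen α)
  | none => [.X 3]
  | some t => [.X 3, .X 2] ++ List.replicate (t + 1) (.X 1) ++ [.X 0, .X 0, .X 1, .X 2, .X 3]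

def zz : Option ℕ → Option ℕ
  | none => none
  | some _ => some 0

def cA : Option ℕ → ℕ
  | none => 1
  | some _ => 0

def cC : Option ℕ → ℕ
  | none => 0
  | some t => t

theorem Run.rep {s : List α} {g : Gen α} (h : Run neg s [g] s) (n : ℕ) :
    Run neg s (List.replicate n g) s := by
  induction n with
  | zero => exact .nil s
  | succ n ih => exact h.append ih

theorem Run.flat {β : Type} {s : List α} {f : β → List (Gen α)} (h : ∀ x, Run neg s (f x) s)
    (w : List β) : Run neg s (w.flatMap f) s := by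
  induction w with
  | nil => exact .nil s
  | cons x w ih => rw [List.flatMap_cons]; exact (h x).append ih

/-- A word `k` slides to the right through a list of letters. -/
theorem Loc.slideR {β : Type} {s t : List α} {k : List (Gen α)} {f g : β → List (Gen α)}
    {c : β → ℕ} (hk : Run neg s k t) (hf : ∀ x, Run neg t (f x) t) (hg : ∀ x, Run neg s (g x) s)
    (h : ∀ x, Loc neg (c x) s t (k ++ f x) (g x ++ k)) (w : List β) :
    Loc neg (w.map c).sum s t (k ++ w.flatMap f) (w.flatMap g ++ k) := by
  induction w with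
  | nil => exact (Loc.refl hk).cast rfl (by simp) (by simp)
  | cons x w ih =>
    have h1 := (h x).append (Loc.refl (Run.flat hf w))
    have h2 := (Loc.refl (hg x)).append ih
    exact (h1.trans (h2.cast rfl (by simp) rfl)).cast (by simp) (by simp) (by simp)

/-- A word `k` slides to the left through a list of letters. -/
theorem Loc.slideL {β : Type} {s t : List α} {k : List (Gen α)} {f g : β → List (Gen α)}
    {c : β → ℕ} (hk : Run neg s k t) (hf : ∀ x, Run neg t (f x) t) (hg : ∀ x, Run neg s (g x) s)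
    (h : ∀ x, Loc neg (c x) s t (g x ++ k) (k ++ f x)) (w : List β) :
    Loc neg (w.map c).sum s t (w.flatMap g ++ k) (k ++ w.flatMap f) := by
  induction w with
  | nil => exact (Loc.refl hk).cast rfl (by simp) (by simp)
  | cons x w ih =>
    have h1 := (Loc.refl (hg x)).append ih
    have h2 := (h x).append (Loc.refl (Run.flat hf w))
    exact (h1.trans (h2.cast rfl (by simp) rfl)).cast (by simp; omega) (by simp) (by simp)

theorem flat_const {β γ : Type} (g : γ) (n : ℕ) (b : β) :
    (List.replicate n b).flatMap (fun _ => [g]) = List.replicate n g := by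
  induction n with
  | zero => rfl
  | succ n ih => rw [List.replicate_succ, List.flatMap_cons, ih]; rfl

theorem flat_nil {β γ : Type} (w : List β) : w.flatMap (fun _ => ([] : List γ)) = [] := by
  induction w with
  | nil => rfl
  | cons x w ih => rw [List.flatMap_cons, ih]; rfl

/-! ### the unoriented part -/

abbrev U4 : List Unit := [(), (), (), ()]
abbrev U6 : List Unit := [(), (), (), (), (), ()]

theorem u4P (x : Option ℕ) : Run id U4 (P4 x) U4 := by
  cases x with
  | none => exact .of_run (by decide)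
  | some t =>
    exact ((Run.of_run (w := [.X 1]) (t := U4) (by decide)).append
      (Run.rep (.of_run (by decide)) _)).append (.of_run (by decide))

theorem u6P (x : Option ℕ) : Run id U6 (P6 x) U6 := by
  cases x with
  | none => exact .of_run (by decide)
  | some t =>
    exact ((Run.of_run (w := [.X 3, .X 2]) (t := U6) (by decide)).append
      (Run.rep (.of_run (by decide)) _)).append (.of_run (by decide))

theorem slideBox (n : ℕ) : Loc id 0 U4 U6 ([.L 0 (), .X 1, .X 2] ++ List.replicate n (.X 1))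
    (List.replicate n (.X 0) ++ [.L 0 (), .X 1, .X 2]) := by
  have := Loc.slideR (neg := id) (s := U4) (t := U6) (k := [.L 0 (), .X 1, .X 2])
    (f := fun _ : Unit => [.X 1]) (g := fun _ => [.X 0]) (c := fun _ => 0)
    (.of_run (by decide)) (fun _ => .of_run (by decide)) (fun _ => .of_run (by decide))
    (fun _ => .of_chk [(1, 3, [.X 2, .X 1, .X 2]), (0, 2, [.X 0, .L 0 ()])] (by decide))
    (List.replicate n ())
  exact this.cast (by simp) (by rw [flat_const]) (by rw [flat_const])

theorem slide (x : Option ℕ) :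
    Loc id 0 U4 U6 ([.L 0 (), .X 1] ++ P6 x) (P4 x ++ [.L 0 (), .X 1]) := by
  cases x with
  | none => exact .of_chk [(1, 2, [.X 3, .X 1]), (0, 2, [.X 1, .L 0 ()])] (by decide)
  | some t =>
    have r1 : Run id U4 [.X 1] U4 := .of_run (by decide)
    have rt : Run id U6 [.X 0, .X 0, .X 1, .X 2, .X 3] U6 := .of_run (by decide)
    have h1 : Loc id 0 U4 U6 [.L 0 (), .X 1, .X 3, .X 2] [.X 1, .L 0 (), .X 1, .X 2] :=
      .of_chk [(1, 2, [.X 3, .X 1]), (0, 2, [.X 1, .L 0 ()])] (by decide)
    have h3 : Loc id 0 U4 U6 [.L 0 (), .X 1, .X 2, .X 0, .X 0, .X 1, .X 2, .X 3]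
        [.X 0, .X 1, .L 0 (), .X 1] :=
      .of_chk [(2, 2, [.X 0, .X 2]), (3, 2, [.X 0, .X 2]), (0, 3, [.L 1 ()]),
        (2, 3, [.X 1, .X 2, .X 1]), (0, 3, [.L 0 ()]), (2, 2, [.X 3, .X 1]),
        (0, 2, [.X 0, .L 0 ()]), (1, 2, [.X 1, .L 0 ()])] (by decide)
    have a := (h1.append (.refl (Run.rep (g := .X 1) (.of_run (by decide)) (t + 1)))).append
      (.refl rt)
    have b := ((Loc.refl r1).append (slideBox (t + 1))).append (.refl rt)
    have c := ((Loc.refl r1).append
      (.refl (Run.rep (g := .X 0) (.of_run (by decide)) (t + 1)))).append h3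
    exact ((a.trans (b.cast rfl (by simp) rfl)).trans (c.cast rfl (by simp) rfl)).cast rfl
      (by simp [P6]) (by simp [P4])

theorem toPlat (w : List (Option ℕ)) :
    Loc id 0 U4 [] ([.L 0 (), .X 1] ++ w.flatMap P6 ++ [.R 0, .R 0, .R 0])
      (w.flatMap P4 ++ [.R 0, .R 0]) := by
  have a := (Loc.slideR (c := fun _ => 0) (.of_run (by decide)) u6P u4P slide w).append
    (Loc.refl (u := [.R 0, .R 0, .R 0]) (t := []) (.of_run (by decide)))
  have h : Loc id 0 U4 [] [.L 0 (), .X 1, .R 0, .R 0, .R 0] [.R 0, .R 0] :=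
    .of_chk [(0, 3, [])] (by decide)
  have b := (Loc.refl (Run.flat u4P w)).append h
  exact (a.trans (b.cast rfl (by simp) rfl)).cast (by simp) rfl rfl

theorem flat_none (n : ℕ) :
    (List.replicate n none).flatMap (P4 (α := α)) = List.replicate n (.X 1) := by
  induction n with
  | zero => rfl
  | succ n ih => rw [List.replicate_succ, List.flatMap_cons, ih]; rfl

theorem conv : ∀ (ns : List ℕ) (s : ℕ), (∀ n ∈ ns, 2 ≤ n) → 1 ≤ s → ∃ w : List (Option ℕ),
    Loc id 0 U4 [] (w.flatMap P4 ++ [.R 0, .R 0]) (List.replicate s (.X 1) ++ blocks false ns) ∧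
    (w.map cA).sum + (w.map cC).sum + 2 * ns.length = s + ns.sum ∧ (2 ≤ s → none ∈ w) ∧
    ((Odd ns.length ∨ ∃ j, 3 ≤ ns.getD (2 * j) 0) → ∃ t, some (t + 1) ∈ w)
  | [], s, _, hs => by
    refine ⟨List.replicate s none, ?_, by simp [cA, cC], fun _ => by simp; omega, ?_⟩
    · rw [flat_none]
      exact .refl ((Run.rep (.of_run (by decide)) s).append (.of_run (by decide)))
    · rintro (h | ⟨j, h⟩) <;> simp at h
  | [m], s, h, hs => by
    obtain ⟨s, rfl⟩ := Nat.exists_eq_add_of_le' hs
    obtain ⟨m, rfl⟩ := Nat.exists_eq_add_of_le' (h m (by simp))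
    refine ⟨List.replicate s none ++ [some (m + 1)], ?_, by simp [cA, cC]; omega,
      fun _ => by simp; omega, fun _ => ⟨m, by simp⟩⟩
    have h1 : Loc id 0 U4 [] [.X 0, .X 1, .R 0, .R 0] [.R 1, .R 0] :=
      .of_chk [(0, 3, [.R 1])] (by decide)
    have a := ((Loc.refl (Run.rep (g := .X 1) (.of_run (by decide)) (s + 1))).append
      (.refl (Run.rep (g := .X 0) (.of_run (by decide)) (m + 2)))).append h1
    refine a.cast rfl ?_ (by simp [blocks])
    rw [List.flatMap_append, flat_none, List.replicate_succ' (n := s)]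
    simp [P4]
  | m :: n :: ns, s, h, hs => by
    obtain ⟨s, rfl⟩ := Nat.exists_eq_add_of_le' hs
    obtain ⟨m, rfl⟩ := Nat.exists_eq_add_of_le' (h m (by simp))
    obtain ⟨n, rfl⟩ := Nat.exists_eq_add_of_le' (h n (by simp))
    obtain ⟨w, h1, h2, -, h4⟩ := conv ns (n + 1) (fun x hx => h x (by simp [hx])) (by omega)
    refine ⟨List.replicate s none ++ some m :: w, ?_, by simp [cA, cC] at h2 ⊢; omega,
      fun _ => by simp; omega, fun hh => ?_⟩
    · have a := ((Loc.refl (Run.rep (g := .X 1) (.of_run (by decide)) s)).append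
        (.refl (u4P (some m)))).append h1
      refine a.cast rfl ?_ ?_
      · rw [List.flatMap_append, flat_none]
        simp
      · rw [blocks, blocks, List.replicate_succ' (n := s), List.replicate_succ' (n := m + 1),
          List.replicate_succ (n := n + 1)]
        simp [P4]
    · rcases hh with hh | ⟨j, hj⟩
      · obtain ⟨t, ht⟩ := h4 (.inl (by
          simp only [List.length_cons, Nat.odd_iff] at hh ⊢; omega))
        exact ⟨t, by simp [ht]⟩
      · cases j with
        | zero =>
          obtain ⟨t, rfl⟩ := Nat.exists_eq_add_of_le' (show 1 ≤ m by simp at hj; omega)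
          exact ⟨t, by simp⟩
        | succ j =>
          obtain ⟨t, ht⟩ := h4 (.inr ⟨j, by simpa [Nat.mul_succ] using hj⟩)
          exact ⟨t, by simp [ht]⟩

/-! ### the oriented part -/

abbrev S2 : List Bool := [true, false]
abbrev S4 : List Bool := [false, true, true, false]
abbrev S6 : List Bool := [false, true, false, true, true, false]
abbrev T4 : List Bool := [true, false, true, false]
abbrev T6 : List Bool := [false, true, true, false, true, false]

theorem s4P (x : Option ℕ) : Run not S4 (P4 (zz x)) S4 := by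
  cases x <;> exact .of_run (by simp only [zz]; decide)

theorem s6P (x : Option ℕ) : Run not S6 (P6 x) S6 := by
  cases x with
  | none => exact .of_run (by decide)
  | some t =>
    exact ((Run.of_run (w := [.X 3, .X 2]) (t := T6) (by decide)).append
      (Run.rep (.of_run (by decide)) _)).append (.of_run (by decide))

theorem tipR4 : Loc not 1 S4 S2 [.R 0] [.X 1, .R 0] :=
  (Loc.of_chk [(1, 0, [.L 0 false, .X 1, .R 0])] (by decide)).trans
    (Loc.handle (a := []) (b := [.X 1, .R 0]) (c := false) (.nil _)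
      (.of_run (by decide)) (.of_run (by decide)))

theorem tipR6 : Loc not 1 T6 T4 [.R 0] [.X 1, .R 0] :=
  (Loc.of_chk [(1, 0, [.L 0 false, .X 1, .R 0])] (by decide)).trans
    (Loc.handle (a := []) (b := [.X 1, .R 0]) (c := false) (.nil _)
      (.of_run (by decide)) (.of_run (by decide)))

theorem tipL4 : Loc not 1 S2 S4 [.L 0 false] [.L 0 false, .X 1] :=
  (Loc.of_chk [(0, 0, [.L 0 false, .X 1, .R 0])] (by decide)).trans
    (Loc.handle (a := [.L 0 false, .X 1]) (b := []) (c := false) (r := [true, true, false])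
      (.of_run (by decide)) (.of_run (by decide)) (.of_run (by decide)))

theorem tipL6 : Loc not 1 T4 T6 [.L 0 false] [.L 0 false, .X 1] :=
  (Loc.of_chk [(0, 0, [.L 0 false, .X 1, .R 0])] (by decide)).trans
    (Loc.handle (a := [.L 0 false, .X 1]) (b := []) (c := false)
      (r := [true, true, false, true, false])
      (.of_run (by decide)) (.of_run (by decide)) (.of_run (by decide)))

theorem tipsR (n : ℕ) : Loc not n T6 T4 [.R 0] (List.replicate n (.X 1) ++ [.R 0]) := by
  have := Loc.slideR (neg := not) (s := T6) (t := T4) (k := [.R 0])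
    (f := fun _ : Unit => []) (g := fun _ => [.X 1]) (c := fun _ => 1)
    (.of_run (by decide)) (fun _ => .nil _) (fun _ => .of_run (by decide))
    (fun _ => tipR6) (List.replicate n ())
  exact this.cast (by simp) (by simp) (by rw [flat_const])

theorem tipsL (n : ℕ) :
    Loc not n T4 T6 [.L 0 false] ([.L 0 false] ++ List.replicate n (.X 1)) := by
  have := Loc.slideL (neg := not) (s := T4) (t := T6) (k := [.L 0 false])
    (f := fun _ : Unit => [.X 1]) (g := fun _ => []) (c := fun _ => 1)
    (.of_run (by decide)) (fun _ => .of_run (by decide)) (fun _ => .nil _)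
    (fun _ => tipL6) (List.replicate n ())
  exact this.cast (by simp) (by simp) (by rw [flat_const])

theorem right4 (x : Option ℕ) : Loc not (cA x) S4 S2 ([.R 0] ++ []) (P4 (zz x) ++ [.R 0]) := by
  cases x with
  | none => exact tipR4
  | some t =>
    exact .of_chk [(0, 1, [.X 1, .X 0, .R 1]), (2, 1, [.X 0, .X 1, .R 0])]
      (by simp only [zz]; decide)

theorem left4 (x : Option ℕ) :
    Loc not (cA x) S2 S4 ([] ++ [.L 0 false]) ([.L 0 false] ++ P4 (zz x)) := by
  cases x with
  | none => exact tipL4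
  | some t =>
    exact .of_chk [(0, 1, [.L 1 false, .X 0, .X 1]), (0, 1, [.L 0 false, .X 1, .X 0])]
      (by simp only [zz]; decide)

theorem close6 (t : ℕ) : Loc not t T6 S4 [.R 0, .X 0, .X 1]
    (List.replicate (t + 1) (.X 1) ++ [.X 0, .X 0, .X 1, .X 2, .X 3, .R 0]) := by
  have a := (tipsR t).append (Loc.refl (u := [.X 0, .X 1]) (t := S4) (.of_run (by decide)))
  have h : Loc not 0 T6 S4 [.R 0, .X 0, .X 1] [.X 1, .X 0, .X 0, .X 1, .X 2, .X 3, .R 0] :=
    .of_chk [(0, 1, [.X 1, .X 0, .R 1]), (2, 1, [.X 0, .X 1, .R 0]), (4, 2, [.X 2, .R 0]),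
      (5, 2, [.X 3, .R 0])] (by decide)
  have b := (Loc.refl (Run.rep (g := .X 1) (.of_run (by decide)) t)).append h
  exact (a.trans (b.cast rfl (by simp) rfl)).cast (by simp) rfl
    (by rw [List.replicate_succ']; simp)

theorem right6 (x : Option ℕ) :
    Loc not (cC x) S6 S4 ([.R 0] ++ P4 (zz x)) (P6 x ++ [.R 0]) := by
  cases x with
  | none => exact .of_chk [(0, 2, [.X 3, .R 0])] (by decide)
  | some t =>
    have h : Loc not 0 S6 S4 [.R 0, .X 1, .X 0, .X 0, .X 1] [.X 3, .X 2, .R 0, .X 0, .X 1] :=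
      .of_chk [(0, 2, [.X 3, .R 0]), (1, 2, [.X 2, .R 0])] (by decide)
    have b := (Loc.refl (u := [.X 3, .X 2]) (s := S6) (.of_run (by decide))).append (close6 t)
    exact (h.trans b).cast (by simp [cC]) rfl (by simp [P6])

theorem left6 (x : Option ℕ) :
    Loc not (cC x) S4 S6 (P4 (zz x) ++ [.L 0 false]) ([.L 0 false] ++ P6 x) := by
  cases x with
  | none => exact .of_chk [(0, 2, [.L 0 false, .X 3])] (by decide)
  | some t =>
    have rt : Run not T6 [.X 1, .X 0, .X 0, .X 1, .X 2, .X 3] S6 := .of_run (by decide)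
    have h : Loc not 0 S4 S6 [.X 1, .X 0, .X 0, .X 1, .L 0 false]
        [.X 1, .X 0, .L 0 false, .X 1, .X 0, .X 0, .X 1, .X 2, .X 3] :=
      .of_chk [(3, 2, [.L 0 false, .X 3]), (2, 2, [.L 0 false, .X 2]),
        (2, 1, [.L 1 false, .X 0, .X 1]), (2, 1, [.L 0 false, .X 1, .X 0])] (by decide)
    have h' : Loc not 0 S4 T6 [.X 1, .X 0, .L 0 false] [.L 0 false, .X 3, .X 2] :=
      .of_chk [(1, 2, [.L 0 false, .X 2]), (0, 2, [.L 0 false, .X 3])] (by decide)
    have b := ((Loc.refl (u := [.X 1, .X 0]) (s := S4) (.of_run (by decide))).append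
      (tipsL t)).append (.refl rt)
    have c := (h'.append (.refl (Run.rep (g := .X 1) (.of_run (by decide)) t))).append (.refl rt)
    exact ((h.trans b).trans (c.cast rfl (by simp) rfl)).cast (by simp [cC]) rfl
      (by rw [P6, List.replicate_succ']; simp)

theorem mid6 (t : ℕ) : Loc not t S4 S4 (P4 (some 0))
    ([.L 0 false] ++ P6 (some (t + 1)) ++ [.R 0]) := by
  have h : Loc not 0 S4 S4 [.X 1, .X 0, .X 0, .X 1]
      [.L 0 false, .X 3, .X 2, .X 1, .R 0, .X 0, .X 1] :=
    .of_chk [(2, 0, [.L 0 false, .X 1, .R 0]), (1, 2, [.L 0 false, .X 2]),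
      (0, 2, [.L 0 false, .X 3])] (by decide)
  have b := (Loc.refl (u := [.L 0 false, .X 3, .X 2, .X 1]) (s := S4)
    (.of_run (by decide))).append (close6 t)
  exact (h.trans b).cast (by simp) rfl (by rw [P6, List.replicate_succ (n := t + 1)]; simp)

theorem stage4 (u v : List (Option ℕ)) :
    Loc not ((u.map cA).sum + (v.map cA).sum) S2 S2 []
      ([.L 0 false] ++ (u ++ none :: v).flatMap (fun x => P4 (zz x)) ++ [.R 0]) := by
  have h : Loc not 0 S2 S2 [] [.L 0 false, .X 1, .R 0] :=
    .of_chk [(0, 0, [.L 0 false, .X 1, .R 0])] (by decide)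
  have a := Loc.slideL (.of_run (by decide)) s4P (fun _ => .nil _) left4 u
  have b := Loc.slideR (.of_run (by decide)) (fun _ => .nil _) s4P right4 v
  have c := (a.append (Loc.refl (u := [.X 1]) (t := S4) (.of_run (by decide)))).append b
  rw [flat_nil, flat_nil] at c
  exact (h.trans c).cast (by simp) rfl (by simp [P4, zz])

theorem stage6 (u v : List (Option ℕ)) (t : ℕ) :
    Loc not ((u.map cC).sum + t + (v.map cC).sum) S4 S4
      ((u ++ some (t + 1) :: v).flatMap (fun x => P4 (zz x)))
      ([.L 0 false] ++ (u ++ some (t + 1) :: v).flatMap P6 ++ [.R 0]) := by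
  have h := ((Loc.refl (Run.flat s4P u)).append (mid6 t)).append (.refl (Run.flat s4P v))
  have a := Loc.slideL (.of_run (by decide)) s6P s4P left6 u
  have b := Loc.slideR (.of_run (by decide)) s4P s6P right6 v
  have c := (a.append (Loc.refl (s6P (some (t + 1))))).append b
  exact (h.trans (c.cast rfl (by simp) rfl)).cast (by omega) (by simp [zz]) (by simp)

theorem fill (w : List (Option ℕ)) (hA : none ∈ w) (hC : ∃ t, some (t + 1) ∈ w) :
    ∃ m, m + 2 = (w.map cA).sum + (w.map cC).sum ∧ Cob not m [.L 0 true, .R 0]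
      ([.L 0 false, .L 2 true, .L 0 true, .X 1] ++ [.R 0, .L 0 false] ++
        (w.flatMap P6 ++ [.R 0, .R 0, .R 0])) := by
  obtain ⟨t, ht⟩ := hC
  obtain ⟨u, v, e⟩ := List.append_of_mem hA
  obtain ⟨u', v', e'⟩ := List.append_of_mem ht
  have a := stage4 u v
  have b := stage6 u' v' t
  rw [← e] at a
  rw [← e'] at b
  have eA : (w.map cA).sum = (u.map cA).sum + (v.map cA).sum + 1 := by
    rw [e]; simp [cA]; omega
  have eC : (w.map cC).sum = (u'.map cC).sum + t + (v'.map cC).sum + 1 := by
    rw [e']; simp [cC]; omega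
  have a' := ((Loc.refl (u := [.L 0 true]) (s := []) (.of_run (by decide))).append a).append
    (Loc.refl (u := [.R 0]) (t := []) (.of_run (by decide)))
  have b' := ((Loc.refl (u := [.L 0 true, .L 0 false]) (s := []) (.of_run (by decide))).append
    b).append (Loc.refl (u := [.R 0, .R 0]) (t := []) (.of_run (by decide)))
  have h : Loc not 0 [] S6 [.L 0 true, .L 0 false, .L 0 false]
      [.L 0 false, .L 2 true, .L 0 true, .X 1, .R 0, .L 0 false] :=
    .of_chk [(2, 0, [.L 0 true, .X 1, .R 0]), (0, 2, [.L 0 false, .L 2 true])] (by decide)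
  have c := h.append (Loc.refl ((Run.flat s6P w).append
    (Run.of_run (w := [.R 0, .R 0, .R 0]) (t := []) (by decide))))
  have d := (a'.trans (b'.cast rfl (by simp) rfl)).trans (c.cast rfl (by simp) rfl)
  exact ⟨_, by omega, (d.cast rfl (by simp) (by simp)).cob⟩

theorem erase_P6 (x : Option ℕ) : (P6 x).map Gen.erase = P6 x := by
  cases x <;> simp [P6, Gen.erase]

theorem main (ns : List ℕ) (h2 : ∀ n ∈ ns, 2 ≤ n) (hk : 2 ≤ ns.length)
    (hno : Even ns.length ∨ ∃ j, 3 ≤ ns.getD (2 * j + 1) 0) :
    ∃ (m : ℕ) (p q : List (Gen Bool)) (s t : List Bool) (b : Bool),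
      m + 2 * ns.length = ns.sum ∧
      Cob not m [.L 0 true, .R 0] (p ++ [.R s.length, .L s.length b] ++ q) ∧
      Run not [] p (s ++ (!b) :: t) ∧
      Cob id 0 ((p ++ q).map Gen.erase) (twoBridge ns) := by
  obtain _ | ⟨n, ns⟩ := ns
  · simp at hk
  have hn := h2 n (by simp)
  obtain ⟨w, h1, hc, hA, hC⟩ := conv ns n (fun x hx => h2 x (by simp [hx])) (by omega)
  obtain ⟨m, hm, hf⟩ := fill w (hA hn) (hC (hno.imp
    (fun h => by simp only [List.length_cons, Nat.even_iff, Nat.odd_iff] at h ⊢; omega)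
    (fun ⟨j, hj⟩ => ⟨j, by simpa using hj⟩)))
  refine ⟨m, _, _, [], [false, false, true, true, false], false, by simp; omega, hf,
    .of_run (by decide), ?_⟩
  have a := (Loc.refl (u := [.L 0 (), .L 2 ()]) (s := []) (.of_run (by decide))).append
    ((toPlat w).trans h1)
  refine (a.cast rfl ?_ (by simp [twoBridge, blocks])).cob
  simp [Gen.erase, List.map_flatMap, erase_P6]

end Pool.Agent.Lib.MP_b4fd03_gt
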