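import Pool.Agent.Lib.MP_b4fd03_gt.Words

/-!
A foot of a handle travels along the link and slides over the next handle.
-/

namespace Pool.Agent.Lib.MP_b4fd03_gt

abbrev BB := List (Bool × Bool)

/-- Runs with flags and weight. -/
def RW (s : BB) (w : Wd) (t : BB) (n : ℕ) : Prop := ∃ I O, RM Bool.toNat s w t I O n

variable {s t r s0 t0 : BB} {k : K} {u v w : Wd} {n n' : ℕ} {I O : List Bool}

theorem RW.val (h : RW s w t n) : Val (dir s) w (dir t) := RM.val h.choose_spec.choose_spec

theorem RW.append (h : RW s u t n) (h' : RW t v r n') : RW s (u ++ v) r (n + n') := by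
  obtain ⟨_, _, h⟩ := h
  obtain ⟨_, _, h'⟩ := h'
  exact ⟨_, _, h.append h'⟩

theorem RW.frame (h : RW s w t n) (x y : BB) :
    RW (x ++ s ++ y) (shE x.length w) (x ++ t ++ y) n := by
  obtain ⟨_, _, h⟩ := h
  exact ⟨_, _, h.frame x y⟩

theorem RW.one (c : Core Bool.toNat s0 k t0 I O n) (p q : BB) :
    RW (p ++ s0 ++ q) [(k, p.length)] (p ++ t0 ++ q) n :=
  ⟨_, _, .cons p q c (.nil _)⟩

theorem RW.cast {s' t' : BB} {w' : Wd} (h : RW s w t n) (e1 : s = s') (e2 : w = w') (e3 : t = t') :
    RW s' w' t' n := by subst e1 e2 e3; exact h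

theorem RW.inv {e : K × ℕ} (h : RW s (e :: w) t n) : ∃ p q s0 t0 k I O n1 n2,
    Core Bool.toNat s0 k t0 I O n1 ∧ RW (p ++ t0 ++ q) w t n2 ∧ s = p ++ s0 ++ q ∧
      e = (k, p.length) ∧ n = n1 + n2 := by
  obtain ⟨_, _, h⟩ := h
  obtain ⟨p, q, s0, t0, I1, O1, I2, O2, n1, n2, c, h1, e1, e2, -, -, e3⟩ := h.inv
  exact ⟨p, q, s0, t0, _, _, _, _, _, c, ⟨_, _, h1⟩, e1, Prod.ext rfl e2, e3⟩

theorem RW.inv' {e : K × ℕ} (h : RW s (w ++ [e]) t n) : ∃ p q s0 t0 k I O n1 n2,
    Core Bool.toNat s0 k t0 I O n2 ∧ RW s w (p ++ s0 ++ q) n1 ∧ t = p ++ t0 ++ q ∧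
      e = (k, p.length) ∧ n = n1 + n2 := by
  obtain ⟨_, _, h⟩ := h
  obtain ⟨r, I1, O1, I2, O2, n1, n2, h1, h2, -, -, rfl⟩ := h.split
  obtain ⟨p, q, s0, t0, k, I, O, m1, m2, c, ⟨_, _, h3⟩, rfl, rfl, rfl⟩ := RW.inv ⟨_, _, h2⟩
  obtain ⟨rfl, -, -, rfl⟩ := h3.nil_inv
  exact ⟨p, q, s0, t0, k, I, O, n1, m1, c, ⟨_, _, h1⟩, rfl, rfl, rfl⟩

def stepW (s : BB) : K × ℕ → Option (BB × ℕ)
  | (.L b, i) => if i ≤ s.length then
      some (s.take i ++ [(b, false), (!b, false)] ++ s.drop i, 0) else none
  | (.R, i) => match s.drop i with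
    | a :: b :: t => if b = (!a.1, a.2) then some (s.take i ++ [] ++ t, a.2.toNat) else none
    | _ => none
  | (.X, i) => match s.drop i with
    | a :: b :: t => some (s.take i ++ [b, a] ++ t,
        a.2.toNat + b.2.toNat + 2 * (a.2.toNat * b.2.toNat))
    | _ => none
  | (.H _, _) => none

def runW : BB → Wd → Option (BB × ℕ)
  | s, [] => some (s, 0)
  | s, e :: w => (stepW s e).bind fun x => (runW x.1 w).map fun y => (y.1, x.2 + y.2)

theorem RW.of_run (h : runW s w = some (t, n)) : RW s w t n := by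
  induction w generalizing s n with
  | nil =>
    obtain ⟨rfl, rfl⟩ := Prod.mk.inj (Option.some.inj h)
    exact ⟨_, _, .nil _⟩
  | cons e w ih =>
    simp only [runW, Option.bind_eq_some_iff, Option.map_eq_some_iff, Prod.mk.injEq] at h
    obtain ⟨⟨s', m⟩, h1, ⟨t', m'⟩, h2, rfl, rfl⟩ := h
    refine RW.append (u := [e]) ?_ (ih h2)
    rcases e with ⟨b | _ | _ | _, i⟩ <;> simp only [stepW] at h1
    · split_ifs at h1 with hi
      obtain ⟨rfl, rfl⟩ := Prod.mk.inj (Option.some.inj h1)
      exact (RW.one (.L b false) (s.take i) (s.drop i)).cast (by simp) (by simp [hi]) rfl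
    · split at h1
      · rename_i a b r hd
        split_ifs at h1 with hb
        obtain ⟨rfl, rfl⟩ := Prod.mk.inj (Option.some.inj h1)
        refine (RW.one (.R a.1 a.2) (s.take i) r).cast ?_ (by rw [take_len hd]) rfl
        rw [← hb, List.append_assoc]
        exact (congrArg _ hd.symm).trans (List.take_append_drop i s)
      · simp at h1
    · split at h1
      · rename_i a b r hd
        obtain ⟨rfl, rfl⟩ := Prod.mk.inj (Option.some.inj h1)
        refine (RW.one (.X a b) (s.take i) r).cast ?_ (by rw [take_len hd]) rfl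
        rw [List.append_assoc]
        exact (congrArg _ hd.symm).trans (List.take_append_drop i s)
      · simp at h1
    · simp at h1

theorem tri {β : Type} {p q p' z q' : List β} {g : β} (e : p ++ [g] ++ q = p' ++ z ++ q') :
    (∃ r, p = p' ++ z ++ r ∧ q' = r ++ [g] ++ q) ∨ (∃ r, p' = p ++ [g] ++ r ∧ q = r ++ z ++ q') ∨
      ∃ a b, z = a ++ [g] ++ b ∧ p = p' ++ a ∧ q = b ++ q' := by
  by_cases h1 : (p' ++ z).length ≤ p.length
  · obtain ⟨r, a, b⟩ := cut (e.symm.trans (List.append_assoc _ _ _)) h1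
    exact .inl ⟨r, a, by simpa using b⟩
  by_cases h2 : (p ++ [g]).length ≤ p'.length
  · obtain ⟨r, a, b⟩ := cut (e.trans (List.append_assoc _ _ _)) h2
    exact .inr (.inl ⟨r, a, by simpa using b⟩)
  simp only [List.length_append, List.length_singleton, not_le] at h1 h2
  obtain ⟨a, rfl, e1⟩ := cut (a := p') (b := z ++ q') (c := p) (d := [g] ++ q)
    (by simpa using e.symm) (by omega)
  obtain ⟨b, rfl, e2⟩ := cut (a := a ++ [g]) (b := q) (c := z) (d := q') (by simpa using e1.symm)
    (by simp at h1 ⊢; omega)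
  exact .inr (.inr ⟨a, b, rfl, rfl, e2⟩)

/-- One handle can be made coherent and attached first. -/
def Good (W : Wd) : Prop := ∃ W' m, RW [] W' [] m ∧ Rel 1 [] [] W W'

theorem Good.of {W W' : Wd} (e : Rel 0 [] [] W W') (h : Good W') : Good W := by
  obtain ⟨V, m, a, b⟩ := h
  exact ⟨V, m, a, e.trans b⟩

theorem Good.loc {a b : List Bool} {A C W W' : Wd} (e : Rel 0 a b u v) (p q : BB)
    (hA : RW [] A s n) (hC : RW t C [] n') (es : dir s = dir p ++ a ++ dir q)
    (et : dir t = dir p ++ b ++ dir q) (h : Good W') (e1 : W = A ++ shE p.length u ++ C)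
    (e2 : W' = A ++ shE p.length v ++ C) : Good W := by
  subst e1 e2
  have := (e.frame (dir p) (dir q)).ctx (es ▸ hA.val) (et ▸ hC.val)
  rw [dir_length] at this
  exact .of this h

theorem Good.ctx {A C W W' : Wd} (e : Rel 0 (dir s) (dir t) u v) (hA : RW [] A s n)
    (hC : RW t C [] n') (h : Good W') (e1 : W = A ++ u ++ C) (e2 : W' = A ++ v ++ C) : Good W := by
  subst e1 e2
  exact .of (e.ctx hA.val hC.val) h

theorem forget (h : RW s w t n) : ∃ m, RW (lab (fun _ => false) s) w (lab (fun _ => false) t) m := by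
  obtain ⟨_, _, h⟩ := h
  obtain ⟨m, h⟩ := h.map (fun _ => false) Bool.toNat
  exact ⟨m, _, _, h⟩

theorem lab_eq (e : dir s = dir t) : lab (fun _ => false) s = lab (fun _ => false) t := by
  have : ∀ s : BB, lab (fun _ => false) s = (dir s).map (·, false) := fun s => by simp [lab, dir]
  rw [this, this, e]

/-- The slide. -/
theorem Good.fin {a b s1 t1 : BB} {A C W : Wd} {m : ℕ} (p q : BB) (hA : RW [] A s1 n)
    (hC : RW t1 C [] n') (es : dir s1 = dir (p ++ a ++ q)) (et : dir t1 = dir (p ++ b ++ q))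
    (hv : RW a v b m) (e : Rel 1 (dir a) (dir b) u v) (e1 : W = A ++ shE p.length u ++ C) :
    Good W := by
  subst e1
  obtain ⟨m1, h1⟩ := forget hA
  obtain ⟨m2, h2⟩ := forget (hv.frame p q)
  obtain ⟨m3, h3⟩ := forget hC
  rw [lab_eq es] at h1
  rw [lab_eq et] at h3
  have := (e.frame (dir p) (dir q)).ctx (a := []) (b := []) (by simpa [es] using hA.val)
    (by simpa [et] using hC.val)
  rw [dir_length] at this
  exact ⟨_, _, (h1.append h2).append h3, this⟩

def TR : BB := [(true, false), (false, false), (true, false)]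
def TL : BB := [(false, false), (true, false), (false, false)]
def BR : Wd := [(.H false, 0), (.X, 1), (.R, 0)]
def BL : Wd := [(.L true, 0), (.X, 1), (.H false, 0)]

theorem valR : Val [true, false, true] BR [true] := Run.of_run rfl
theorem valL : Val [false] BL [false, true, false] := Run.of_run rfl

theorem comm_up {a b p p' : List Bool} {B U : Wd} (hB : Val a B b) (hU : Val p U p')
    (q : List Bool) :
    Rel 0 (p ++ a ++ q) (p' ++ b ++ q) (U ++ shE p'.length B) (shE p.length B ++ U) := by
  simpa [shE] using Rel.inter hU (hB.frame [] q)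

theorem comm_dn {a b q q' : List Bool} {B V : Wd} (hB : Val a B b) (hV : Val q V q')
    (p : List Bool) : Rel 0 (p ++ a ++ q) (p ++ b ++ q')
      (shE p.length B ++ shE (p.length + b.length) V)
      (shE (p.length + a.length) V ++ shE p.length B) := by
  simpa using Rel.inter (hB.frame p []) hV

def SR (n : ℕ) : Prop := ∀ C A p q n1 n2, RW [] A (p ++ TR ++ q) n1 →
  RW (p ++ [(true, true)] ++ q) C [] n2 → n1 + n2 = n → Good (A ++ shE p.length BR ++ C)

def SL (n : ℕ) : Prop := ∀ A C p q n1 n2, RW [] A (p ++ [(false, true)] ++ q) n1 →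
  RW (p ++ TL ++ q) C [] n2 → n1 + n2 = n → Good (A ++ shE p.length BL ++ C)

theorem two {β : Type} {x y g : β} {a b : List β} (e : [x, y] = a ++ [g] ++ b) :
    (a = [] ∧ x = g ∧ b = [y]) ∨ (a = [x] ∧ y = g ∧ b = []) := by
  rcases a with _ | ⟨a1, _ | ⟨a2, a⟩⟩ <;> simp_all

theorem stepR (ih : ∀ m < n, SR m ∧ SL m) : SR n := by
  intro C
  induction C with
  | nil =>
    rintro A p q n1 n2 - ⟨_, _, h⟩ -
    simpa using h.nil_inv.1
  | cons e C ihC =>
    intro A p q n1 n2 hA hC hn
    obtain ⟨p', q', s0, t0, k, I, O, m, m', c, hC', e1, rfl, rfl⟩ := hC.inv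
    rcases tri e1 with ⟨r, rfl, rfl⟩ | ⟨r, rfl, rfl⟩ | ⟨a, b, e2, rfl, rfl⟩
    · have h1 := ihC (A ++ [(k, p'.length)]) (p' ++ t0 ++ r) q (n1 + m) m'
        (hA.append ((RW.one c p' (r ++ TR ++ q)).cast (by simp) rfl (by simp)))
        (hC'.cast (by simp) rfl rfl) (by omega)
      exact Good.ctx (by simpa [TR] using (comm_up valR (c.val' p' r) (dir q)).symm) hA hC' h1
        (by simp) (by simp)
    · have h1 := ihC (A ++ [(k, (p ++ TR ++ r).length)]) p (r ++ t0 ++ q') (n1 + m) m'
        (hA.append ((RW.one c (p ++ TR ++ r) q').cast (by simp) rfl (by simp)))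
        (hC'.cast (by simp) rfl rfl) (by omega)
      exact Good.ctx (by simpa [TR] using comm_dn valR (c.val' r q') (dir p)) hA hC' h1
        (by simp [shE]; omega) (by simp [shE, TR]; omega)
    · cases c with
      | L b x => simp at e2
      | R d x =>
        rcases two e2 with ⟨rfl, e3, rfl⟩ | ⟨rfl, e3, rfl⟩
        · obtain ⟨rfl, rfl⟩ := Prod.mk.inj e3
          have h0 : RW (TR ++ TL) [(.X, 2), (.X, 1), (.X, 3), (.R, 0), (.R, 0), (.R, 0)] [] 0 :=
            .of_run rfl
          have h1 := (ih (n1 + (0 + m')) (by simp at hn; omega)).2 A _ (p' ++ TR) q' n1 _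
            (hA.cast rfl rfl (by simp)) (((h0.frame p' q').append hC').cast (by simp) rfl rfl) rfl
          exact Good.loc RRa p' q' hA hC' (by simp [TR]) (by simp) h1 (by simp [shE, BR])
            (by simp [shE, BL, TR])
        · obtain ⟨e4, rfl⟩ := Prod.mk.inj e3
          obtain rfl : d = false := by simpa using e4
          have h0 : RW (TL ++ TR) [(.X, 2), (.X, 1), (.X, 3), (.R, 0), (.R, 0), (.R, 0)] [] 0 :=
            .of_run rfl
          have h1 := (ih (n1 + (0 + m')) (by simp at hn; omega)).2 A _ p' (TR ++ q') n1 _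
            (hA.cast rfl rfl (by simp)) (((h0.frame p' q').append hC').cast (by simp) rfl rfl) rfl
          exact Good.loc RRb p' q' hA hC' (by simp [TR]) (by simp) h1 (by simp [shE, BR])
            (by simp [shE, BL])
      | X x y =>
        rcases two e2 with ⟨rfl, rfl, rfl⟩ | ⟨rfl, rfl, rfl⟩
        · obtain ⟨d, y⟩ := y
          have h0 : RW (TR ++ [(d, y)]) [(.X, 2), (.X, 1), (.X, 0)] ([(d, y)] ++ TR)
              (3 * y.toNat) := .of_run (by cases y <;> rfl)
          have h1 := (ih (n1 + 3 * y.toNat + m') (by simp at hn; omega)).1 C _ (p' ++ [(d, y)]) q'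
            _ _ (hA.append ((h0.frame p' q').cast (by simp) rfl (by simp)))
            (hC'.cast (by simp) rfl rfl) rfl
          exact Good.loc (RXa d) p' q' hA hC' (by simp [TR]) (by simp) h1 (by simp [shE, BR])
            (by simp [shE, BR])
        · obtain ⟨d, x⟩ := x
          have h0 : RW ([(d, x)] ++ TR) [(.X, 0), (.X, 1), (.X, 2)] (TR ++ [(d, x)])
              (3 * x.toNat) := .of_run (by cases x <;> rfl)
          have h1 := (ih (n1 + 3 * x.toNat + m') (by simp at hn; omega)).1 C _ p' ([(d, x)] ++ q')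
            _ _ (hA.append ((h0.frame p' q').cast (by simp) rfl (by simp)))
            (hC'.cast (by simp) rfl rfl) rfl
          exact Good.loc (RXb d) p' q' hA hC' (by simp [TR]) (by simp) h1 (by simp [shE, BR])
            (by simp [shE, BR])
      | H x₁ x₂ x₃ x₄ =>
        rcases two e2 with ⟨rfl, -, rfl⟩ | ⟨-, e3, -⟩
        · have h0 : RW [(true, false), (false, false), (false, false), (true, false)]
              [(.X, 1), (.R, 0)] [(false, false), (true, false)] 0 := .of_run rfl
          exact Good.fin p' q' hA hC' (by simp [TR]) (by simp)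
            ((RW.one (.H false false false false) [(true, false), (false, false)] []).append h0)
            (by exact Rel.RH) (by simp [shE, BR])
        · simp at e3

theorem stepL (ih : ∀ m < n, SR m ∧ SL m) : SL n := by
  intro A
  induction A using List.reverseRecOn with
  | nil =>
    rintro C p q n1 n2 ⟨_, _, h⟩ - -
    simpa using h.nil_inv.1
  | append_singleton A e ihA =>
    intro C p q n1 n2 hA hC hn
    obtain ⟨p', q', s0, t0, k, I, O, m', m, c, hA', e1, rfl, rfl⟩ := hA.inv'
    rcases tri e1 with ⟨r, rfl, rfl⟩ | ⟨r, rfl, rfl⟩ | ⟨a, b, e2, rfl, rfl⟩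
    · have h1 := ihA ([(k, p'.length)] ++ C) (p' ++ s0 ++ r) q m' (m + n2)
        (hA'.cast rfl rfl (by simp))
        (((RW.one c p' (r ++ TL ++ q)).cast (by simp) rfl (by simp)).append hC) (by omega)
      exact Good.ctx (by simpa [TL] using comm_up valL (c.val' p' r) (dir q)) hA' hC h1
        (by simp) (by simp)
    · have h1 := ihA ([(k, (p ++ TL ++ r).length)] ++ C) p (r ++ s0 ++ q') m' (m + n2)
        (hA'.cast rfl rfl (by simp))
        (((RW.one c (p ++ TL ++ r) q').cast (by simp) rfl (by simp)).append hC) (by omega)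
      exact Good.ctx (by simpa [TL] using (comm_dn valL (c.val' r q') (dir p)).symm) hA' hC h1
        (by simp [shE]; omega) (by simp [shE, TL]; omega)
    · cases c with
      | R b x => simp at e2
      | L d x =>
        rcases two e2 with ⟨rfl, e3, rfl⟩ | ⟨rfl, e3, rfl⟩
        · obtain ⟨rfl, rfl⟩ := Prod.mk.inj e3
          have h0 : RW [] [(.L false, 0), (.L true, 0), (.L false, 0), (.X, 3), (.X, 1), (.X, 2)]
              (TL ++ TR) 0 := .of_run rfl
          have h1 := (ih (m' + 0 + n2) (by simp at hn; omega)).1 C _ (p' ++ TL) q' _ n2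
            ((hA'.append (h0.frame p' q')).cast rfl rfl (by simp)) (hC.cast (by simp) rfl rfl) rfl
          exact Good.loc LLa p' q' hA' hC (by simp) (by simp [TL]) h1 (by simp [shE, BL])
            (by simp [shE, BR, TL])
        · obtain ⟨e4, rfl⟩ := Prod.mk.inj e3
          obtain rfl : d = true := by simpa using e4
          have h0 : RW [] [(.L true, 0), (.L false, 0), (.L true, 0), (.X, 3), (.X, 1), (.X, 2)]
              (TR ++ TL) 0 := .of_run rfl
          have h1 := (ih (m' + 0 + n2) (by simp at hn; omega)).1 C _ p' (TL ++ q') _ n2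
            ((hA'.append (h0.frame p' q')).cast rfl rfl (by simp)) (hC.cast (by simp) rfl rfl) rfl
          exact Good.loc LLb p' q' hA' hC (by simp) (by simp [TL]) h1 (by simp [shE, BL])
            (by simp [shE, BR])
      | X x y =>
        rcases two e2 with ⟨rfl, rfl, rfl⟩ | ⟨rfl, rfl, rfl⟩
        · obtain ⟨d, x⟩ := x
          have h0 : RW ([(d, x)] ++ TL) [(.X, 0), (.X, 1), (.X, 2)] (TL ++ [(d, x)])
              (3 * x.toNat) := .of_run (by cases x <;> rfl)
          have h1 := (ih (m' + (3 * x.toNat + n2)) (by simp at hn; omega)).2 A _ (p' ++ [(d, x)])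
            q' _ _ (hA'.cast rfl rfl (by simp))
            (((h0.frame p' q').cast (by simp) rfl (by simp)).append hC) rfl
          exact Good.loc (LXa d) p' q' hA' hC (by simp) (by simp [TL]) h1 (by simp [shE, BL])
            (by simp [shE, BL])
        · obtain ⟨d, y⟩ := y
          have h0 : RW (TL ++ [(d, y)]) [(.X, 2), (.X, 1), (.X, 0)] ([(d, y)] ++ TL)
              (3 * y.toNat) := .of_run (by cases y <;> rfl)
          have h1 := (ih (m' + (3 * y.toNat + n2)) (by simp at hn; omega)).2 A _ p'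
            ([(d, y)] ++ q') _ _ (hA'.cast rfl rfl (by simp))
            (((h0.frame p' q').cast (by simp) rfl (by simp)).append hC) rfl
          exact Good.loc (LXb d) p' q' hA' hC (by simp) (by simp [TL]) h1 (by simp [shE, BL])
            (by simp [shE, BL])
      | H x₁ x₂ x₃ x₄ =>
        rcases two e2 with ⟨rfl, -, rfl⟩ | ⟨-, e3, -⟩
        · have h0 : RW [(true, false), (false, false)] [(.L false, 0), (.X, 1)]
              [(false, false), (true, false), (true, false), (false, false)] 0 := .of_run rfl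
          exact Good.fin p' q' hA' hC (by simp) (by simp [TL])
            (h0.append (RW.one (.H false false false false) [(false, false), (true, false)] []))
            (by exact Rel.LH) (by simp [shE, BL])
        · simp at e3

theorem proc (n : ℕ) : SR n ∧ SL n := by
  induction n using Nat.strong_induction_on with
  | _ n ih => exact ⟨stepR ih, stepL ih⟩

end Pool.Agent.Lib.MP_b4fd03_gt
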