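import Pool.Agent.Lib.MP_b4fd03_gt.Moves

/-!
The local moves that carry a foot of a handle, and labelled runs.
-/

namespace Pool.Agent.Lib.MP_b4fd03_gt

/-- Elementary moves of words with handle letters. -/
inductive Mv : Type
  | reid (l r : List (Gen Bool)) : Mv
  | site (x z : List (Gen Bool)) (i j : ℕ) : Mv
  | turn (d : Bool) (i : ℕ) : Mv

def Mv.src : Mv → Wd
  | .reid l _ => l.map emb
  | .site x _ i _ => x.map emb ++ [(.H false, i)]
  | .turn true i => shE i [(.H false, 0), (.X, 1), (.R, 0), (.R, 0)]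
  | .turn false i => shE i [(.L false, 0), (.L true, 0), (.X, 1), (.H false, 0)]

def Mv.tgt : Mv → Wd
  | .reid _ r => r.map emb
  | .site x _ _ j => (.H false, j) :: x.map emb
  | .turn true i => shE i [(.H false, 2), (.X, 1), (.R, 2), (.R, 0)]
  | .turn false i => shE i [(.L false, 0), (.L true, 2), (.X, 1), (.H false, 2)]

def Mv.ok (s t : List Bool) : Mv → Bool
  | .reid l r => okMove l r && decide (run not s l = some t) && decide (run not s r = some t)
  | .site x z i j => okMove (x ++ [.R i]) (.R j :: z) &&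
      okMove (z ++ [.L i false]) (.L j false :: x) &&
      decide (run not s (x ++ [.R i, .L i false]) = some t) &&
      decide (run not s (.R j :: z ++ [.L i false]) = some t) &&
      decide (run not s (.R j :: .L j false :: x) = some t)
  | .turn true i => decide ((s.take i).length = i) &&
      decide (s.take i ++ [true, false, true, false] ++ s.drop (i + 4) = s) &&
      decide (s.take i ++ [] ++ s.drop (i + 4) = t)
  | .turn false i => decide ((s.take i).length = i) && decide (s.take i ++ [] ++ s.drop i = s) &&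
      decide (s.take i ++ [false, true, false, true] ++ s.drop i = t)

theorem Mv.rel {s t : List Bool} {m : Mv} (h : m.ok s t = true) : Rel 0 s t m.src m.tgt := by
  rcases m with ⟨l, r⟩ | ⟨x, z, i, j⟩ | ⟨_ | _, i⟩ <;>
    simp only [Mv.ok, Bool.and_eq_true, decide_eq_true_eq] at h
  · exact ⟨_, _, .reid (reid_of_ok h.1.1) (.of_run h.1.2) (.of_run h.2)⟩
  · exact ⟨_, _, .site (reid_of_ok h.1.1.1.1) (reid_of_ok h.1.1.1.2) (.of_run h.1.1.2)
      (.of_run h.1.2) (.of_run h.2)⟩
  · have := Rel.turnL.frame (s.take i) (s.drop i)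
    rwa [h.1.1, h.1.2, h.2] at this
  · have := Rel.turnR.frame (s.take i) (s.drop (i + 4))
    rwa [h.1.1, h.1.2, h.2] at this

def code : K × ℕ → ℕ × ℕ
  | (.L false, i) => (0, i)
  | (.L true, i) => (1, i)
  | (.R, i) => (2, i)
  | (.X, i) => (3, i)
  | (.H false, i) => (4, i)
  | (.H true, i) => (5, i)

theorem code_inj : Function.Injective code := by
  rintro ⟨(_ | _) | _ | _ | (_ | _), i⟩ ⟨(_ | _) | _ | _ | (_ | _), j⟩ h <;> simp_all [code]

def chkE (s t : List Bool) : Wd → List (ℕ × Bool × Mv) → Wd → Bool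
  | u, [], v => decide (run not s (pre u) = some t) && decide (u.map code = v.map code)
  | u, (k, d, m) :: ms, v =>
    decide (u.map code = (u.take k ++ (if d then m.src else m.tgt) ++
      u.drop (k + (if d then m.src else m.tgt).length)).map code) &&
    ((run not s (pre (u.take k))).any fun s' =>
      (run not s' (pre m.src)).any fun t' => m.ok s' t' &&
        decide (run not t' (pre (u.drop (k + (if d then m.src else m.tgt).length))) = some t)) &&
    chkE s t (u.take k ++ (if d then m.tgt else m.src) ++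
      u.drop (k + (if d then m.src else m.tgt).length)) ms v

theorem Rel.of_chk {s t : List Bool} {u v : Wd} (ms : List (ℕ × Bool × Mv))
    (h : chkE s t u ms v = true) : Rel 0 s t u v := by
  induction ms generalizing u with
  | nil =>
    simp only [chkE, Bool.and_eq_true, decide_eq_true_eq] at h
    exact List.map_injective_iff.2 code_inj h.2 ▸ .refl (.of_run h.1)
  | cons m ms ih =>
    obtain ⟨k, d, m⟩ := m
    simp only [chkE, Bool.and_eq_true, decide_eq_true_eq, Option.any_eq_true] at h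
    obtain ⟨⟨e, s', h1, t', -, h2, h3⟩, h4⟩ := h
    have k1 : Rel 0 s' t' (if d then m.src else m.tgt) (if d then m.tgt else m.src) := by
      cases d
      exacts [(Mv.rel h2).symm, Mv.rel h2]
    have k2 := k1.ctx (.of_run h1 : Val s _ s') (.of_run h3 : Val t' _ t)
    rw [← List.map_injective_iff.2 code_inj e] at k2
    exact k2.trans (ih h4)

theorem startR : Rel 0 [true, false] [false, true]
    [(.H false, 0)]
    [(.L false, 2), (.X, 1), (.X, 0), (.H false, 1), (.X, 2), (.R, 1)] :=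
  .of_chk
    [(1, true, .reid [] [.L 1 false, .X 0, .R 1]), (1, true, .reid [.L 1 false] [.L 2 false, .X 1,
      .X 2]), (3, false, .reid [.X 0, .X 2] [.X 2, .X 0]), (0, false, .site [.L 2 false] [.L 0
      false] 0 0), (1, false, .site [.X 1, .X 0] [] 1 0)]
    (by decide)

theorem startL : Rel 0 [true, false] [false, true]
    [(.H false, 0)]
    [(.L true, 1), (.X, 2), (.H false, 1), (.X, 0), (.X, 1), (.R, 2)] :=
  .of_chk
    [(0, true, .reid [] [.L 1 true, .X 0, .R 1]), (2, true, .reid [.R 1] [.X 2, .X 1, .R 2]), (4,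
      true, .site [.R 2] [.R 0] 0 0), (1, false, .reid [.X 2, .X 0] [.X 0, .X 2]), (2, true, .site
      [.X 0, .X 1] [] 0 1)]
    (by decide)

theorem RXa (b : Bool) : Rel 0 [true, false, true, b] [b, true]
    [(.H false, 0), (.X, 1), (.R, 0), (.X, 0)]
    [(.X, 2), (.X, 1), (.X, 0), (.H false, 1), (.X, 2), (.R, 1)] :=
  .of_chk
    [(2, true, .reid [.R 0, .X 0] [.X 2, .R 0]), (3, true, .reid [.R 0] [.X 1, .X 0, .R 1]), (1,
      true, .reid [.X 1, .X 2, .X 1] [.X 2, .X 1, .X 2]), (3, false, .reid [.X 0, .X 2] [.X 2, .X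
      0]), (0, false, .site [.X 2] [.X 0] 0 0), (1, false, .site [.X 1, .X 0] [] 1 0)]
    (by cases b <;> decide)

theorem RXb (b : Bool) : Rel 0 [b, true, false, true] [true, b]
    [(.H false, 1), (.X, 2), (.R, 1), (.X, 0)]
    [(.X, 0), (.X, 1), (.X, 2), (.H false, 0), (.X, 1), (.R, 0)] :=
  .of_chk
    [(2, true, .reid [.R 1] [.X 0, .X 1, .R 0]), (4, true, .reid [.R 0, .X 0] [.X 2, .R 0]), (1,
      false, .reid [.X 0, .X 2] [.X 2, .X 0]), (2, false, .reid [.X 1, .X 2, .X 1] [.X 2, .X 1, .X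
      2]), (0, false, .site [.X 0, .X 1] [] 0 1), (2, false, .site [.X 2] [.X 0] 0 0)]
    (by cases b <;> decide)

theorem RRa : Rel 0 [true, false, true, false] []
    [(.H false, 0), (.X, 1), (.R, 0), (.R, 0)]
    [(.L true, 3), (.X, 4), (.H false, 3), (.X, 2), (.X, 1), (.X, 3), (.R, 0), (.R, 0), (.R, 0)] :=
  .of_chk
    [(0, true, .turn true 0), (0, true, .reid [] [.L 3 true, .X 2, .R 3]), (2, true, .reid [.R 3]
      [.X 4, .X 3, .R 4]), (4, true, .site [.R 4] [.R 2] 2 2), (1, false, .reid [.X 4, .X 2] [.X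
      2, .X 4]), (2, true, .site [.X 2, .X 3] [] 2 3), (5, false, .reid [.X 1, .R 4] [.R 4, .X
      1]), (6, false, .reid [.R 2, .R 2] [.R 4, .R 2]), (7, false, .reid [.R 0, .R 0] [.R 2, .R
      0]), (6, false, .reid [.R 0, .R 0] [.R 2, .R 0]), (4, false, .reid [.X 1, .X 3] [.X 3, .X
      1])]
    (by decide)

theorem RRb : Rel 0 [false, true, false, true] []
    [(.H false, 1), (.X, 2), (.R, 1), (.R, 0)]
    [(.L true, 0), (.X, 1), (.H false, 0), (.X, 2), (.X, 1), (.X, 3), (.R, 0), (.R, 0), (.R, 0)] :=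
  .of_chk
    [(2, true, .reid [.R 1] [.X 0, .X 1, .R 0]), (1, true, .reid [.X 2, .X 0] [.X 0, .X 2]), (4,
      true, .reid [.R 0, .R 0] [.R 2, .R 0]), (2, true, .reid [.X 2, .X 1, .R 2] [.R 1]), (2,
      false, .reid [.L 0 true, .X 1, .R 0] []), (4, false, .reid [.R 3, .R 0] [.R 0, .R 1]), (4,
      false, .reid [.X 2, .X 3, .R 2] [.R 3]), (1, false, .reid [.L 0 true, .X 2] [.X 0, .L 0
      true]), (2, false, .reid [.X 1, .X 2, .X 1] [.X 2, .X 1, .X 2]), (4, false, .reid [.X 3, .X
      1] [.X 1, .X 3]), (0, false, .site [.L 0 true] [.L 0 true] 3 1), (1, false, .site [.X 1] [.X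
      1] 3 3), (2, false, .site [.X 2, .X 3] [] 2 3), (4, false, .turn true 0), (3, true, .site
      [.X 3] [.X 1] 0 0), (4, false, .reid [.X 1, .X 3] [.X 3, .X 1]), (2, true, .site [.X 2] [.X
      0] 0 0)]
    (by decide)

theorem LXa (b : Bool) : Rel 0 [b, false] [false, true, false, b]
    [(.X, 0), (.L true, 0), (.X, 1), (.H false, 0)]
    [(.L true, 1), (.X, 2), (.H false, 1), (.X, 0), (.X, 1), (.X, 2)] :=
  .of_chk
    [(0, true, .reid [.X 0, .L 0 true] [.L 0 true, .X 2]), (0, true, .reid [.L 0 true] [.L 1 true,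
      .X 0, .X 1]), (2, true, .reid [.X 1, .X 2, .X 1] [.X 2, .X 1, .X 2]), (4, true, .site [.X 2]
      [.X 0] 0 0), (1, false, .reid [.X 2, .X 0] [.X 0, .X 2]), (2, true, .site [.X 0, .X 1] [] 0
      1)]
    (by cases b <;> decide)

theorem LXb (b : Bool) : Rel 0 [false, b] [b, false, true, false]
    [(.X, 0), (.L true, 1), (.X, 2), (.H false, 1)]
    [(.L true, 0), (.X, 1), (.H false, 0), (.X, 2), (.X, 1), (.X, 0)] :=
  .of_chk
    [(1, true, .reid [.L 1 true] [.L 0 true, .X 1, .X 0]), (3, true, .reid [.X 0, .X 2] [.X 2, .X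
      0]), (0, false, .reid [.L 0 true, .X 2] [.X 0, .L 0 true]), (1, false, .reid [.X 1, .X 2, .X
      1] [.X 2, .X 1, .X 2]), (3, true, .site [.X 1, .X 0] [] 1 0), (2, true, .site [.X 2] [.X 0]
      0 0)]
    (by cases b <;> decide)

theorem LLa : Rel 0 [] [false, true, false, true]
    [(.L false, 0), (.L true, 0), (.X, 1), (.H false, 0)]
    [(.L false, 0), (.L true, 0), (.L false, 0), (.X, 3), (.X, 1), (.X, 2), (.H false, 3), (.X,
      4), (.R, 3)] :=
  .of_chk
    [(0, true, .turn false 0), (4, true, .reid [] [.L 3 false, .X 2, .R 3]), (4, true, .reid [.L 3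
      false] [.L 4 false, .X 3, .X 4]), (6, false, .reid [.X 2, .X 4] [.X 4, .X 2]), (3, false,
      .site [.L 4 false] [.L 2 false] 2 2), (4, false, .site [.X 3, .X 2] [] 3 2), (2, false,
      .reid [.L 4 false, .X 1] [.X 1, .L 4 false]), (3, false, .reid [.X 3, .X 1] [.X 1, .X 3]),
      (0, false, .reid [.L 0 true, .L 0 false] [.L 0 false, .L 2 true]), (1, false, .reid [.L 2
      false, .L 0 false] [.L 0 false, .L 4 false]), (0, false, .reid [.L 0 false, .L 0 true] [.L 0
      true, .L 2 false])]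
    (by decide)

theorem LLb : Rel 0 [] [true, false, true, false]
    [(.L true, 0), (.L true, 1), (.X, 2), (.H false, 1)]
    [(.L true, 0), (.L false, 0), (.L true, 0), (.X, 3), (.X, 1), (.X, 2), (.H false, 0), (.X, 1),
      (.R, 0)] :=
  .of_chk
    [(1, true, .reid [.L 1 true] [.L 0 true, .X 1, .X 0]), (0, true, .reid [.L 0 true, .L 0 true]
      [.L 0 true, .L 2 true]), (3, true, .reid [.X 0, .X 2] [.X 2, .X 0]), (1, true, .reid [.L 2
      true, .X 1, .X 2] [.L 1 true]), (2, false, .reid [.L 0 false, .X 1, .R 0] []), (1, false,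
      .reid [.L 0 false, .L 3 true] [.L 1 true, .L 0 false]), (2, false, .reid [.L 2 true, .X 3,
      .X 2] [.L 3 true]), (6, false, .reid [.X 2, .R 0] [.R 0, .X 0]), (4, false, .reid [.X 1, .X
      2, .X 1] [.X 2, .X 1, .X 2]), (7, true, .site [.R 0] [.R 0] 1 3), (6, true, .site [.X 1] [.X
      1] 3 3), (3, false, .reid [.X 1, .X 3] [.X 3, .X 1]), (4, true, .site [.X 3, .X 2] [] 3 2),
      (1, false, .turn false 0), (4, false, .site [.X 3] [.X 1] 0 0), (5, false, .site [.X 2] [.X
      0] 0 0), (3, false, .reid [.X 3, .X 1] [.X 1, .X 3])]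
    (by decide)

/-! ### runs with labels -/

variable {κ κ' : Type}

/-- One column with labels, the labels of the ends entering and leaving the handle cusps, and a
weight. -/
inductive Core (f : κ → ℕ) : List (Bool × κ) → K → List (Bool × κ) → List κ → List κ → ℕ → Prop
  | L (b : Bool) (x : κ) : Core f [] (.L b) [(b, x), (!b, x)] [] [] (f x)
  | R (b : Bool) (x : κ) : Core f [(b, x), (!b, x)] .R [] [] [] (f x)
  | X (a b : Bool × κ) : Core f [a, b] .X [b, a] [] [] (f a.2 + f b.2 + 2 * (f a.2 * f b.2))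
  | H (x₁ x₂ x₃ x₄ : κ) :
      Core f [(true, x₁), (false, x₂)] (.H false) [(false, x₃), (true, x₄)] [x₁, x₃] [x₂, x₄] 0

inductive RM (f : κ → ℕ) : List (Bool × κ) → Wd → List (Bool × κ) → List κ → List κ → ℕ → Prop
  | nil (s : List (Bool × κ)) : RM f s [] s [] [] 0
  | cons (p q : List (Bool × κ)) {s0 t0 t : List (Bool × κ)} {k : K} {w : Wd} {I O I' O' : List κ}
      {n n' : ℕ} : Core f s0 k t0 I O n → RM f (p ++ t0 ++ q) w t I' O' n' →
      RM f (p ++ s0 ++ q) ((k, p.length) :: w) t (I ++ I') (O ++ O') (n + n')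

/-- The directions. -/
def dir (s : List (Bool × κ)) : List Bool := s.map Prod.fst

@[simp] theorem dir_append (u v : List (Bool × κ)) : dir (u ++ v) = dir u ++ dir v :=
  List.map_append
@[simp] theorem dir_length (u : List (Bool × κ)) : (dir u).length = u.length := List.length_map _
@[simp] theorem dir_nil : dir ([] : List (Bool × κ)) = [] := rfl
@[simp] theorem dir_cons (a : Bool × κ) (u : List (Bool × κ)) : dir (a :: u) = a.1 :: dir u := rfl

variable {f : κ → ℕ} {s t r s0 t0 : List (Bool × κ)} {k : K} {u v w : Wd} {I O I' O' : List κ}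
  {n n' : ℕ}

theorem Core.val (c : Core f s0 k t0 I O n) : Val (dir s0) [(k, 0)] (dir t0) := by
  cases c with
  | L b x => cases b <;> exact Run.of_run rfl
  | R b x => cases b <;> exact Run.of_run rfl
  | X a b => exact Run.of_run rfl
  | H => exact Run.of_run rfl

theorem Core.val' (c : Core f s0 k t0 I O n) (p q : List (Bool × κ)) :
    Val (dir (p ++ s0 ++ q)) [(k, p.length)] (dir (p ++ t0 ++ q)) := by
  simpa [shE] using c.val.frame (dir p) (dir q)

theorem RM.val (h : RM f s w t I O n) : Val (dir s) w (dir t) := by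
  induction h with
  | nil s => exact .nil _
  | cons p q c _ ih => exact (c.val' p q).append ih

theorem RM.append (h : RM f s u t I O n) (h' : RM f t v r I' O' n') :
    RM f s (u ++ v) r (I ++ I') (O ++ O') (n + n') := by
  induction h with
  | nil s => simpa using h'
  | cons p q c _ ih => simpa [Nat.add_assoc] using RM.cons p q c (ih h')

theorem RM.inv {e : K × ℕ} (h : RM f s (e :: w) t I O n) :
    ∃ p q s0 t0 I1 O1 I2 O2 n1 n2, Core f s0 e.1 t0 I1 O1 n1 ∧ RM f (p ++ t0 ++ q) w t I2 O2 n2 ∧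
      s = p ++ s0 ++ q ∧ e.2 = p.length ∧ I = I1 ++ I2 ∧ O = O1 ++ O2 ∧ n = n1 + n2 := by
  cases h with
  | cons p q c h => exact ⟨p, q, _, _, _, _, _, _, _, _, c, h, rfl, rfl, rfl, rfl, rfl⟩

theorem RM.nil_inv (h : RM f s [] t I O n) : s = t ∧ I = [] ∧ O = [] ∧ n = 0 := by
  cases h; exact ⟨rfl, rfl, rfl, rfl⟩

theorem RM.split (h : RM f s (u ++ v) r I O n) : ∃ t I1 O1 I2 O2 n1 n2, RM f s u t I1 O1 n1 ∧
    RM f t v r I2 O2 n2 ∧ I = I1 ++ I2 ∧ O = O1 ++ O2 ∧ n = n1 + n2 := by
  induction u generalizing s I O n with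
  | nil => exact ⟨s, [], [], I, O, 0, n, .nil s, h, rfl, rfl, (Nat.zero_add n).symm⟩
  | cons e u ih =>
    obtain ⟨k, i⟩ := e
    obtain ⟨p, q, s0, t0, I1, O1, I2, O2, n1, n2, c, h1, rfl, rfl, rfl, rfl, rfl⟩ := RM.inv h
    obtain ⟨t, J1, P1, J2, P2, m1, m2, h2, h3, rfl, rfl, rfl⟩ := ih h1
    exact ⟨t, _, _, _, _, _, _, .cons p q c h2, h3, by simp, by simp, by omega⟩

theorem RM.frame (h : RM f s w t I O n) (x y : List (Bool × κ)) :
    RM f (x ++ s ++ y) (shE x.length w) (x ++ t ++ y) I O n := by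
  induction h with
  | nil s => exact .nil _
  | cons p q c _ ih =>
    simpa [shE] using RM.cons (x ++ p) (q ++ y) c (by simpa [shE] using ih)

/-- Change of labels. -/
def lab (φ : κ → κ') (s : List (Bool × κ)) : List (Bool × κ') := s.map fun a => (a.1, φ a.2)

@[simp] theorem lab_append (φ : κ → κ') (u v : List (Bool × κ)) :
    lab φ (u ++ v) = lab φ u ++ lab φ v := List.map_append
@[simp] theorem lab_length (φ : κ → κ') (u : List (Bool × κ)) : (lab φ u).length = u.length :=
  List.length_map _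
@[simp] theorem lab_nil (φ : κ → κ') : lab φ [] = [] := rfl
@[simp] theorem lab_cons (φ : κ → κ') (a : Bool × κ) (u : List (Bool × κ)) :
    lab φ (a :: u) = (a.1, φ a.2) :: lab φ u := rfl
@[simp] theorem dir_lab (φ : κ → κ') (u : List (Bool × κ)) : dir (lab φ u) = dir u := by
  simp [dir, lab]

theorem RM.map (h : RM f s w t I O n) (φ : κ → κ') (f' : κ' → ℕ) :
    ∃ m, RM f' (lab φ s) w (lab φ t) (I.map φ) (O.map φ) m := by
  induction h with
  | nil s => exact ⟨0, .nil _⟩
  | @cons p q s0 t0 t k w I O I' O' n n' c _ ih =>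
    obtain ⟨m, ih⟩ := ih
    obtain ⟨m', c'⟩ : ∃ m, Core f' (lab φ s0) k (lab φ t0) (I.map φ) (O.map φ) m := by
      cases c with
      | L b x => exact ⟨_, .L b _⟩
      | R b x => exact ⟨_, .R b _⟩
      | X a b => exact ⟨_, .X _ _⟩
      | H => exact ⟨_, .H _ _ _ _⟩
    exact ⟨_, by simpa using RM.cons (lab φ p) (lab φ q) c' (by simpa using ih)⟩

end Pool.Agent.Lib.MP_b4fd03_gt
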